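import Pool.Agent.W190.M.M5

/-! # Gaussian averages and their contour representation -/

set_option autoImplicit false

open Complex Filter Topology Set Metric MeasureTheory

namespace Pool.Agent.W190.W

noncomputable section

/-- Gaussian density of variance `q` -/
def gs (q x : ℝ) : ℝ := (√(2 * Real.pi * q))⁻¹ * Real.exp (-(x ^ 2) / (2 * q))

theorem gs_nonneg (q x : ℝ) : 0 ≤ gs q x := by
  unfold gs; positivity

theorem gs_cont (q : ℝ) : Continuous (gs q) := by
  unfold gs; fun_prop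

theorem gs_le {q : ℝ} (hq : 1 ≤ q) (x : ℝ) : gs q x ≤ Real.exp (-(x ^ 2) / (2 * q)) := by
  unfold gs
  have h1 : 1 ≤ √(2 * Real.pi * q) := by
    rw [Real.one_le_sqrt]
    nlinarith [Real.pi_gt_three]
  have h2 : (√(2 * Real.pi * q))⁻¹ ≤ 1 := inv_le_one_of_one_le₀ h1
  have h3 := Real.exp_pos (-(x ^ 2) / (2 * q))
  nlinarith

/-- the basic Gaussian line integral -/
theorem gauss_line {q : ℝ} (hq : 0 < q) (z0 : ℂ) (D : ℝ) :
    ∫ y : ℝ, cexp ((z0 + y * I) * D + q / 2 * (z0 + y * I) ^ 2) = (2 * Real.pi * gs q D : ℝ) := by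
  have hqc : (q : ℂ) ≠ 0 := by exact_mod_cast hq.ne'
  have hb : (-(q : ℂ) / 2).re < 0 := by
    have : (-(q : ℂ) / 2).re = -q / 2 := by
      rw [show (-(q : ℂ) / 2) = ((-q / 2 : ℝ) : ℂ) by push_cast; ring, Complex.ofReal_re]
    rw [this]; linarith
  have h1 := integral_cexp_quadratic hb (I * (q * z0 + D)) (q / 2 * z0 ^ 2 + z0 * D)
  have e1 : (fun y : ℝ => cexp ((z0 + y * I) * D + q / 2 * (z0 + y * I) ^ 2)) =
      fun y : ℝ => cexp (-(q : ℂ) / 2 * (y : ℂ) ^ 2 + I * (q * z0 + D) * y +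
        (q / 2 * z0 ^ 2 + z0 * D)) := by
    funext y
    congr 1
    have hI : I ^ 2 = -1 := Complex.I_sq
    linear_combination (q / 2 * (y:ℂ) ^ 2) * hI
  rw [e1, h1]
  have e2 : (q / 2 * z0 ^ 2 + z0 * D - (I * (q * z0 + D)) ^ 2 / (4 * (-(q : ℂ) / 2)) : ℂ) =
      ((-(D ^ 2) / (2 * q) : ℝ) : ℂ) := by
    push_cast
    have hI : I ^ 2 = -1 := Complex.I_sq
    rw [mul_pow, hI]
    field_simp
    ring
  rw [e2]
  have e3 : ((Real.pi : ℂ) / -(-(q : ℂ) / 2)) ^ (1 / 2 : ℂ) = ((2 * Real.pi * (√(2 * Real.pi * q))⁻¹ : ℝ) : ℂ) := by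
    have h2 : ((Real.pi : ℂ) / -(-(q : ℂ) / 2)) = ((2 * Real.pi / q : ℝ) : ℂ) := by
      push_cast
      field_simp
    rw [h2]
    have h3 : (1 / 2 : ℂ) = ((1 / 2 : ℝ) : ℂ) := by push_cast; ring
    rw [h3, ← Complex.ofReal_cpow (by positivity)]
    congr 1
    rw [← Real.sqrt_eq_rpow]
    have h4 : 0 < 2 * Real.pi * q := by positivity
    rw [← div_eq_mul_inv, eq_div_iff (by positivity), ← Real.sqrt_mul (by positivity)]
    rw [show 2 * Real.pi / q * (2 * Real.pi * q) = (2 * Real.pi) ^ 2 by field_simp]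
    rw [Real.sqrt_sq (by positivity)]
  rw [e3, ← Complex.ofReal_exp, ← Complex.ofReal_mul]
  unfold gs
  congr 1
  ring

theorem gs_int {q : ℝ} (hq : 0 < q) : Integrable (gs q) := by
  unfold gs
  refine Integrable.const_mul ?_ _
  have := integrable_exp_neg_mul_sq (show 0 < 1 / (2 * q) by positivity)
  refine this.congr (ae_of_all _ fun x => ?_)
  simp only
  congr 1
  ring

theorem gs_total {q : ℝ} (hq : 0 < q) : ∫ x, gs q x = 1 := by
  unfold gs
  rw [integral_const_mul]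
  have h1 := integral_gaussian (1 / (2 * q))
  have e : (fun x : ℝ => Real.exp (-(x ^ 2) / (2 * q))) = fun x => Real.exp (-(1 / (2 * q)) * x ^ 2) := by
    funext x; congr 1; ring
  rw [e, h1, show Real.pi / (1 / (2 * q)) = 2 * Real.pi * q by field_simp]
  exact inv_mul_cancel₀ (by positivity)

/-- the Gaussian average of `f` at `w0` with variance `q` -/
def J (f : ℝ → ℂ) (q w0 : ℝ) : ℂ := ∫ w : ℝ, f w * (gs q (w0 - w) : ℝ)

theorem norm_phi (q w0 x y : ℝ) :
    ‖cexp (((x : ℂ) + y * I) * w0 + q / 2 * ((x : ℂ) + y * I) ^ 2)‖ =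
      Real.exp (x * w0 + q * (x ^ 2 - y ^ 2) / 2) := by
  rw [Complex.norm_exp]
  congr 1
  have : ((x : ℂ) + y * I) * w0 + q / 2 * ((x : ℂ) + y * I) ^ 2 =
      ((x * w0 + q * (x ^ 2 - y ^ 2) / 2 : ℝ) : ℂ) + ((y * w0 + q * x * y : ℝ) : ℂ) * I := by
    push_cast
    have hI : I ^ 2 = -1 := Complex.I_sq
    linear_combination (q / 2 * (y:ℂ) ^ 2) * hI
  rw [this, Complex.add_re, Complex.ofReal_re, Complex.re_ofReal_mul, Complex.I_re, mul_zero,
    add_zero]

theorem gauss_real_int {q : ℝ} (hq : 0 < q) (x w0 : ℝ) :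
    Integrable (fun y : ℝ => Real.exp (x * w0 + q * (x ^ 2 - y ^ 2) / 2)) := by
  have := (integrable_exp_neg_mul_sq (show 0 < q / 2 by positivity)).const_mul
    (Real.exp (x * w0 + q * x ^ 2 / 2))
  refine this.congr (ae_of_all _ fun y => ?_)
  simp only
  rw [← Real.exp_add]
  congr 1
  ring

/-- representation of the Gaussian average as a line integral -/
theorem J_rep {f : ℝ → ℂ} {V : ℂ → ℂ} {x1 : ℝ} (hfm : AEStronglyMeasurable f volume)
    (hfi : Integrable (fun w => ‖f w‖ * Real.exp (-(x1 * w))))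
    (hV : ∀ y : ℝ, ∫ w : ℝ, f w * cexp (-(((x1 : ℂ) + y * I) * w)) = V (x1 + y * I))
    {q : ℝ} (hq : 0 < q) (w0 : ℝ) :
    ∫ y : ℝ, cexp (((x1 : ℂ) + y * I) * w0 + q / 2 * ((x1 : ℂ) + y * I) ^ 2) * V (x1 + y * I) =
      2 * Real.pi * J f q w0 := by
  have hprod : Integrable (Function.uncurry fun (y : ℝ) (w : ℝ) =>
      cexp (((x1 : ℂ) + y * I) * w0 + q / 2 * ((x1 : ℂ) + y * I) ^ 2) *
        (f w * cexp (-(((x1 : ℂ) + y * I) * w)))) (volume.prod volume) := by
    refine ((gauss_real_int hq x1 w0).mul_prod hfi).mono' ?_ (ae_of_all _ fun p => ?_)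
    · have h1 : AEStronglyMeasurable (fun p : ℝ × ℝ => f p.2) (volume.prod volume) :=
        hfm.comp_snd
      have h2 : Continuous (fun p : ℝ × ℝ =>
          cexp (((x1 : ℂ) + p.1 * I) * w0 + q / 2 * ((x1 : ℂ) + p.1 * I) ^ 2)) := by fun_prop
      have h3 : Continuous (fun p : ℝ × ℝ => cexp (-(((x1 : ℂ) + p.1 * I) * p.2))) := by fun_prop
      exact h2.aestronglyMeasurable.mul (h1.mul h3.aestronglyMeasurable)
    · simp only [Function.uncurry]
      rw [norm_mul, norm_mul, norm_phi]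
      have : ‖cexp (-(((x1 : ℂ) + p.1 * I) * p.2))‖ = Real.exp (-(x1 * p.2)) := by
        rw [Complex.norm_exp]
        congr 1
        simp
      rw [this]
  calc _ = ∫ y : ℝ, ∫ w : ℝ, cexp (((x1 : ℂ) + y * I) * w0 + q / 2 * ((x1 : ℂ) + y * I) ^ 2) *
        (f w * cexp (-(((x1 : ℂ) + y * I) * w))) := by
        refine integral_congr_ae (ae_of_all _ fun y => ?_)
        simp only
        rw [integral_const_mul, hV]
    _ = ∫ w : ℝ, ∫ y : ℝ, cexp (((x1 : ℂ) + y * I) * w0 + q / 2 * ((x1 : ℂ) + y * I) ^ 2) *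
        (f w * cexp (-(((x1 : ℂ) + y * I) * w))) := integral_integral_swap hprod
    _ = ∫ w : ℝ, (2 * Real.pi) * (f w * (gs q (w0 - w) : ℝ)) := by
        refine integral_congr_ae (ae_of_all _ fun w => ?_)
        simp only
        have h1 := gauss_line hq (x1 : ℂ) (w0 - w)
        calc _ = ∫ y : ℝ, f w * cexp (((x1 : ℂ) + y * I) * ((w0 - w : ℝ) : ℂ) + q / 2 * ((x1 : ℂ) + y * I) ^ 2) := by
              refine integral_congr_ae (ae_of_all _ fun y => ?_)
              simp only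
              rw [mul_left_comm, ← Complex.exp_add]
              congr 2
              push_cast
              ring
          _ = _ := by
              rw [integral_const_mul, h1]
              push_cast
              ring
    _ = _ := by
        rw [integral_const_mul]
        rfl

end

end Pool.Agent.W190.W
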