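import Pool.Agent.W190.W.W16
import Pool.Agent.H313R3.TK.J

/-! # Windows `[x, x^(1+e)]` for `M` and `L` -/

set_option autoImplicit false

open Complex Filter Topology Set Metric MeasureTheory
open Pool.Agent.W190
open H353 (FF)

namespace Pool.Agent.W190.W

noncomputable section

theorem Trf.smul {f : ℝ → ℂ} {V : ℂ → ℂ} {x1 B : ℝ} (h : Trf f V x1 B) (s : ℝ) :
    Trf (fun w => (s : ℂ) * f w) (fun z => s * V z) x1 B := by
  refine ⟨h.meas.const_mul _, ?_, ?_, fun z hz => ?_⟩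
  · obtain ⟨C, hC⟩ := h.eg
    refine ⟨|s| * C, fun w => ?_⟩
    rw [norm_mul, Complex.norm_real, Real.norm_eq_abs, mul_assoc]
    exact mul_le_mul_of_nonneg_left (hC w) (abs_nonneg _)
  · have := h.int.const_mul |s|
    refine this.congr (ae_of_all _ fun w => ?_)
    simp only
    rw [norm_mul, Complex.norm_real, Real.norm_eq_abs, mul_assoc]
  · rw [← h.eq z hz, ← integral_const_mul]
    refine integral_congr_ae (ae_of_all _ fun w => ?_)
    simp only
    ring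

/-- a nonnegative trigonometric polynomial with constant term `1` -/
def TrigPos (S : Finset ℝ) (p : ℝ → ℂ) : Prop :=
  (0:ℝ) ∈ S ∧ p 0 = 1 ∧ ∀ w : ℝ, (∑ l ∈ S, p l * cexp (l * I * w)).im = 0 ∧
    0 ≤ (∑ l ∈ S, p l * cexp (l * I * w)).re

theorem gen_one_sided {a : ℕ → ℂ} (ha : ∀ n, ‖a n‖ ≤ 1) {A : ℂ → ℂ}
    (hA : ∀ s : ℂ, s.re = 2 → A s = LSeries a s) (hAd : DifferentiableOn ℂ A {s | 1 / 2 < s.re})
    {cf : ℝ → ℂ} (hPD : ∀ g, PD A (hp g) (hp g * cf g)) (s : ℝ) {S : Finset ℝ} {p : ℝ → ℂ}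
    (hP : TrigPos S p) {e κ : ℝ} (he : 0 < e) (hκ : κ < s * (∑ l ∈ S, p l * cf (-l)).re) :
    ∀ᶠ T : ℝ in atTop, ∃ w : ℝ, T < w ∧ w ≤ (1 + e) * T ∧
      κ < s * ((TT a w).re * Real.exp (-(w / 2))) := by
  obtain ⟨hP0, hp0, hPw⟩ := hP
  have hT := (TT_Trf ha (θ := 1 / 2) hA).smul s
  have h := one_sided hT (by norm_num) (by norm_num) (by
      refine DifferentiableOn.const_mul (DifferentiableOn.div (hAd.comp (by fun_prop) fun z hz => ?_)
        (by fun_prop) fun z hz => ?_) _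
      · have hz' : 0 < z.re := hz
        simpa using hz'
      · have hz' : 0 < z.re := hz
        intro h
        have := congrArg Complex.re h
        simp at this
        linarith) S p (fun g => s * cf g) (fun l _ => by
      obtain ⟨r, hr, Bg, h1, h2, h3⟩ := PD_V (hPD (-l))
      have e1 : (((-l : ℝ) : ℂ) * I) = -(l * I) := by push_cast; ring
      rw [e1] at h1 h2 h3
      refine ⟨r, hr, fun z => s * Bg z, h1.const_mul _, fun z hz hz0 => ?_, by simp only; rw [h3]⟩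
      have h4 := h2 z hz hz0
      simp only
      rw [h4, sub_neg_eq_add]
      ring) hP0 hp0 (fun w => (hPw w).1) (fun w => (hPw w).2) (e := e) (κ := κ) he (by
      have : ∑ l ∈ S, p l * (s * cf (-l)) = s * ∑ l ∈ S, p l * cf (-l) := by
        rw [Finset.mul_sum]
        refine Finset.sum_congr rfl fun l _ => ?_
        ring
      rw [this, Complex.re_ofReal_mul]
      exact hκ)
  filter_upwards [h] with T hT
  obtain ⟨w, h1, h2, h3⟩ := hT
  refine ⟨w, h1, h2, h3.trans_le (le_of_eq ?_)⟩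
  rw [Complex.re_ofReal_mul]
  congr 1
  have : cexp (-(((1 / 2 : ℝ) : ℂ) * w)) = ((Real.exp (-(w / 2)) : ℝ) : ℂ) := by
    rw [Complex.ofReal_exp]
    congr 1
    push_cast
    ring
  rw [this, Complex.re_mul_ofReal]

theorem to_x {a : ℕ → ℂ} {b : ℕ → ℝ} (hab : ∀ n, a n = (b n : ℂ)) {e κ s : ℝ}
    (h : ∀ᶠ T : ℝ in atTop, ∃ w : ℝ, T < w ∧ w ≤ (1 + e) * T ∧
      κ < s * ((TT a w).re * Real.exp (-(w / 2)))) :
    ∀ᶠ x : ℝ in atTop, ∃ u : ℝ, x < u ∧ u ≤ x ^ (1 + e) ∧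
      κ * √u < s * ∑ n ∈ Finset.Icc 1 ⌊u⌋₊, b n := by
  filter_upwards [Real.tendsto_log_atTop.eventually h, eventually_gt_atTop (0:ℝ)] with x hx hx0
  obtain ⟨w, h1, h2, h3⟩ := hx
  refine ⟨Real.exp w, ?_, ?_, ?_⟩
  · rw [← Real.log_lt_iff_lt_exp hx0]; exact h1
  · rw [Real.rpow_def_of_pos hx0, mul_comm (Real.log x)]
    exact Real.exp_le_exp.2 h2
  · have e1 : √(Real.exp w) = Real.exp (w / 2) := by
      rw [Real.sqrt_eq_iff_mul_self_eq_of_pos (Real.exp_pos _), ← Real.exp_add]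
      congr 1
      ring
    have e2 : (TT a w).re = ∑ n ∈ Finset.Icc 1 ⌊Real.exp w⌋₊, b n := by
      unfold TT
      rw [Complex.re_sum]
      refine Finset.sum_congr rfl fun n _ => ?_
      rw [hab, Complex.ofReal_re]
    rw [e2] at h3
    rw [e1]
    have h4 := mul_lt_mul_of_pos_right h3 (Real.exp_pos (w / 2))
    refine h4.trans_le (le_of_eq ?_)
    rw [mul_assoc, mul_assoc, ← Real.exp_add]
    simp

/-- the Mertens function -/
def Mx (u : ℝ) : ℝ := ∑ n ∈ Finset.Icc 1 ⌊u⌋₊, ((ArithmeticFunction.moebius n : ℤ) : ℝ)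

/-- the summatory Liouville function -/
def Lx (u : ℝ) : ℝ := ∑ n ∈ Finset.Icc 1 ⌊u⌋₊, ((ArithmeticFunction.liouville n : ℤ) : ℝ)

/-- one-sided bounds for `M` on one sequence of windows imply RH and simplicity -/
theorem M_sparse {e κ : ℝ} (he : 0 < e) {s : ℝ} (hs : s = 1 ∨ s = -1)
    (h : ∃ᶠ x : ℝ in atTop, ∀ u : ℝ, x < u → u ≤ x ^ (1 + e) → s * Mx u ≤ κ * √u)
    (ρ : ℂ) (hz : riemannZeta ρ = 0) (h0 : 0 < ρ.re) (h1 : ρ.re < 1) :
    ρ.re = 1 / 2 ∧ deriv riemannZeta ρ ≠ 0 := by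
  refine H313.TK.weak_one s hs (fun ε hε => ?_) ρ hz h0 h1
  have hev1 : ∀ᶠ x : ℝ in atTop, Real.log x ≤ x ^ e := by
    have h3 := (isLittleO_log_rpow_atTop he).def one_pos
    filter_upwards [h3, eventually_gt_atTop 1] with x hx hx1
    have hx0 : 0 < x := by linarith
    rw [one_mul, Real.norm_eq_abs, Real.norm_eq_abs, abs_of_pos (Real.log_pos hx1),
      abs_of_pos (Real.rpow_pos_of_pos hx0 _)] at hx
    exact hx
  have hev2 : ∀ᶠ x : ℝ in atTop, κ ^ 2 / ε ≤ Real.log x :=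
    Real.tendsto_log_atTop.eventually_ge_atTop _
  refine (h.and_eventually (hev1.and (hev2.and (eventually_ge_atTop (Real.exp 1))))).mono ?_
  rintro x ⟨hx, hx1, hx2, hx3⟩
  have hx0 : 0 < x := (Real.exp_pos 1).trans_le hx3
  have hl1 : 1 ≤ Real.log x := by rwa [Real.le_log_iff_exp_le hx0]
  have hle : x ≤ x * Real.log x := le_mul_of_one_le_right hx0.le hl1
  have hle2 : x * Real.log x ≤ x ^ (1 + e) := by
    rw [Real.rpow_add hx0, Real.rpow_one]
    exact mul_le_mul_of_nonneg_left hx1 hx0.le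
  rw [intervalIntegral.integral_of_le hle]
  have hI : IntegrableOn (fun y : ℝ => κ ^ 2 * y⁻¹) (Ioc x (x * Real.log x)) := by
    have : IntervalIntegrable (fun y : ℝ => κ ^ 2 * y⁻¹) volume x (x * Real.log x) := by
      refine (ContinuousOn.intervalIntegrable ?_)
      rw [uIcc_of_le hle]
      exact ContinuousOn.mul continuousOn_const (continuousOn_id.inv₀ fun y hy => by
        have : 0 < y := hx0.trans_le hy.1
        exact this.ne')
    rwa [intervalIntegrable_iff_integrableOn_Ioc_of_le hle] at this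
  have h2 : ∫ y in Ioc x (x * Real.log x), (max (s * H313.TK.MM y) 0 / y) ^ 2 ≤
      ∫ y in Ioc x (x * Real.log x), κ ^ 2 * y⁻¹ := by
    refine integral_mono_of_nonneg (ae_of_all _ fun y => sq_nonneg _) hI ?_
    filter_upwards [ae_restrict_mem measurableSet_Ioc] with y hy
    have hy0 : 0 < y := hx0.trans hy.1
    have h3 := hx y hy.1 (hy.2.trans hle2)
    have h4 : max (s * H313.TK.MM y) 0 ≤ |κ| * √y := by
      refine max_le ?_ (by positivity)
      refine h3.trans ?_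
      exact mul_le_mul_of_nonneg_right (le_abs_self κ) (Real.sqrt_nonneg _)
    have h5 : (max (s * H313.TK.MM y) 0) ^ 2 ≤ (|κ| * √y) ^ 2 :=
      pow_le_pow_left₀ (le_max_right _ _) h4 2
    rw [mul_pow, sq_abs, Real.sq_sqrt hy0.le] at h5
    rw [div_pow, div_le_iff₀ (by positivity)]
    refine h5.trans (le_of_eq ?_)
    field_simp
  refine h2.trans ?_
  rw [integral_const_mul, ← intervalIntegral.integral_of_le hle, integral_inv_of_pos hx0 (by positivity)]
  have h6 : x * Real.log x / x = Real.log x := by field_simp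
  rw [h6]
  have h7 : Real.log (Real.log x) ≤ Real.log x := (Real.log_le_sub_one_of_pos (by linarith)).trans (by linarith)
  rw [div_le_iff₀ hε] at hx2
  calc κ ^ 2 * Real.log (Real.log x) ≤ κ ^ 2 * Real.log x := mul_le_mul_of_nonneg_left h7 (sq_nonneg _)
    _ ≤ (Real.log x * ε) * Real.log x := mul_le_mul_of_nonneg_right hx2 (by linarith)
    _ = _ := by ring

/-- **one-sided lower bounds for `M` on every window** -/
theorem M_one_sided {e κ : ℝ} (he : 0 < e) {s : ℝ} (hs : s = 1 ∨ s = -1) {S : Finset ℝ} {p : ℝ → ℂ}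
    (hP : TrigPos S p) (hκ : κ < s * (∑ l ∈ S, p l * cM (-l)).re) :
    ∀ᶠ x : ℝ in atTop, ∃ u : ℝ, x < u ∧ u ≤ x ^ (1 + e) ∧ κ * √u < s * Mx u := by
  by_contra hcon
  have hfr : ∃ᶠ x : ℝ in atTop, ∀ u : ℝ, x < u → u ≤ x ^ (1 + e) → s * Mx u ≤ κ * √u := by
    rw [Filter.not_eventually] at hcon
    refine hcon.mono fun x hx u h1 h2 => ?_
    by_contra h3
    exact hx ⟨u, h1, h2, not_le.1 h3⟩
  have hall := M_sparse he hs hfr
  have hfree : ∀ s : ℂ, 1 / 2 < s.re → riemannZeta s ≠ 0 := by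
    intro t ht h0
    have := (hall t h0 (by linarith) (zero_FF h0).2).1
    linarith
  have hsimple : ∀ ρ : ℂ, riemannZeta ρ = 0 → ρ.re = 1 / 2 → deriv riemannZeta ρ ≠ 0 := by
    intro ρ h0 hre
    exact (hall ρ h0 (by linarith) (by linarith)).2
  refine hcon ?_
  have h := gen_one_sided mua_norm Amu_L (Amu_diff hfree) (PD_mu hsimple) s hP he hκ
  exact to_x (a := mua) (b := fun n => ((ArithmeticFunction.moebius n : ℤ) : ℝ)) (fun n => by
    unfold mua; push_cast; rfl) h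

theorem lam_freq_false {e C S' : ℝ} (he : 0 < e) (hC : C < S')
    (h1 : ∃ᶠ x : ℝ in atTop, ∫ u in x..(x ^ (1 + e)), (Lx u / u) ^ 2 ≤ C * (e * Real.log x))
    (h2 : ∀ᶠ T : ℝ in atTop, e * S' * T ≤
      ∫ w in Ioc T ((1 + e) * T), ‖TT lama w‖ ^ 2 * Real.exp (-(2 * (1 / 2) * w))) : False := by
  have h3 := Real.tendsto_log_atTop.eventually h2
  obtain ⟨x, hx1, hx2, hx3⟩ := (h1.and_eventually (h3.and (eventually_gt_atTop (1:ℝ)))).exists
  have h8 := lam_window (x := x) (e := e) hx3.le he.le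
  unfold Lx at hx1
  rw [h8] at hx1
  have hl : 0 < Real.log x := Real.log_pos hx3
  have h4 := hx2.trans hx1
  have h5 : 0 < e * Real.log x := by positivity
  have h6 : C * (e * Real.log x) < S' * (e * Real.log x) := mul_lt_mul_of_pos_right hC h5
  linarith

theorem zero_re (hRH : RiemannHypothesis) (ρ : ℂ) (h0 : riemannZeta ρ = 0) (hpos : 0 < ρ.re) :
    ρ.re = 1 / 2 := by
  refine hRH ρ h0 ?_ ?_
  · rintro ⟨n, hn⟩
    rw [hn] at hpos
    have h2 : (-2 * ((n:ℂ) + 1)).re = -2 * ((n:ℝ) + 1) := by simp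
    rw [h2] at hpos
    have : (0:ℝ) ≤ n := Nat.cast_nonneg n
    linarith
  · rintro rfl
    exact riemannZeta_one_ne_zero h0

/-- **mean squares of `L(u)/u` on one sequence of windows** -/
theorem L_main {e C : ℝ} (he : 0 < e)
    (h1 : ∃ᶠ x : ℝ in atTop, ∫ u in x..(x ^ (1 + e)), (Lx u / u) ^ 2 ≤ C * (e * Real.log x)) :
    RiemannHypothesis ∧ (∀ ρ : ℂ, riemannZeta ρ = 0 → 0 < ρ.re → deriv riemannZeta ρ ≠ 0) ∧
      ∀ Z : Finset ℂ, (∀ ρ ∈ Z, riemannZeta ρ = 0 ∧ 0 < ρ.re) →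
        1 / ‖riemannZeta (1 / 2)‖ ^ 2 +
          ∑ ρ ∈ Z, ‖riemannZeta (2 * ρ) / (ρ * deriv riemannZeta ρ)‖ ^ 2 ≤ C := by
  have hfree : ∀ s : ℂ, 1 / 2 < s.re → riemannZeta s ≠ 0 := by
    intro s hs h0
    exact lam_freq_false he (lt_add_one C) h1 (lam_off ⟨s, h0, hs⟩ he)
  have hRH : RiemannHypothesis := rh_free.2 hfree
  have hre := zero_re hRH
  have hsimple : ∀ ρ : ℂ, riemannZeta ρ = 0 → 0 < ρ.re → deriv riemannZeta ρ ≠ 0 := by
    intro ρ h0 hpos hd
    exact lam_freq_false he (lt_add_one C) h1 (lam_multi hfree h0 (hre ρ h0 hpos) hd he)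
  refine ⟨hRH, hsimple, fun Z hZ => ?_⟩
  by_contra hlt
  rw [not_le] at hlt
  obtain ⟨S', hS1, hS2⟩ := exists_between hlt
  have hρe : ∀ ρ ∈ Z, hp ρ.im = ρ := by
    intro ρ hρ
    have := hre ρ (hZ ρ hρ).1 (hZ ρ hρ).2
    unfold hp
    apply Complex.ext <;> simp [this]
  have hinj : ∀ ρ ∈ Z, ∀ ρ' ∈ Z, ρ.im = ρ'.im → ρ = ρ' := by
    intro ρ hρ ρ' hρ' h
    rw [← hρe ρ hρ, ← hρe ρ' hρ', h]
  have h0n : (0:ℝ) ∉ Z.image Complex.im := by
    intro h
    obtain ⟨ρ, hρ, h2⟩ := Finset.mem_image.1 h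
    have h3 := hρe ρ hρ
    rw [h2] at h3
    have h4 := (hZ ρ hρ).1
    rw [← h3] at h4
    have h5 : hp 0 = 1 / 2 := by simp [hp]
    rw [h5] at h4
    exact zeta_half h4
  refine lam_freq_false he hS1 h1 (lam_bessel hfree (fun ρ h0 hr => hsimple ρ h0 (by rw [hr]; norm_num))
    (insert 0 (Z.image Complex.im)) he (hS2.trans_le (le_of_eq ?_)))
  rw [Finset.sum_insert h0n, Finset.sum_image hinj]
  congr 1
  · have h5 : hp 0 = 1 / 2 := by simp [hp]
    unfold cL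
    rw [h5, if_neg zeta_half, if_pos rfl, norm_div, norm_one, div_pow, one_pow]
  · refine Finset.sum_congr rfl fun ρ hρ => ?_
    unfold cL
    rw [hρe ρ hρ, if_pos (hZ ρ hρ).1]

/-- **one-sided bounds for `L`** -/
theorem L_one {e C κ : ℝ} (he : 0 < e) {s : ℝ} {S : Finset ℝ} {p : ℝ → ℂ}
    (hP : TrigPos S p)
    (h1 : ∃ᶠ x : ℝ in atTop, ∫ u in x..(x ^ (1 + e)), (Lx u / u) ^ 2 ≤ C * (e * Real.log x) ∧
      ∀ u : ℝ, x < u → u ≤ x ^ (1 + e) → s * Lx u ≤ κ * √u) :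
    s * (∑ l ∈ S, p l * cL (-l)).re ≤ κ := by
  obtain ⟨hRH, hs, _⟩ := L_main he (h1.mono fun x hx => hx.1)
  have hfree := rh_free.1 hRH
  by_contra hlt
  rw [not_le] at hlt
  have h := gen_one_sided lama_norm Alam_L (Alam_diff hfree)
    (PD_lam fun ρ h0 hr => hs ρ h0 (by rw [hr]; norm_num)) s hP he hlt
  have h2 := to_x (a := lama) (b := fun n => ((ArithmeticFunction.liouville n : ℤ) : ℝ)) (fun n => by
    unfold lama; push_cast; rfl) h
  obtain ⟨x, ⟨_, hx2⟩, u, hu1, hu2, hu3⟩ := (h1.and_eventually h2).exists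
  exact absurd (hx2 u hu1 hu2) (not_le.2 hu3)

end

end Pool.Agent.W190.W
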