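import Pool.Agent.W190.W.W9

/-! # Poles to the right of the line -/

set_option autoImplicit false

open Complex Filter Topology Set Metric MeasureTheory
open Pool.Agent.W190

namespace Pool.Agent.W190.W

noncomputable section

theorem off_line {a : ℕ → ℂ} {C : ℝ} (ha : ∀ n, ‖a n‖ ≤ C) {θ β : ℝ} (hθ0 : 0 < θ) (hθ1 : θ ≤ 1)
    (hβ : θ < β)
    (hm : ∀ δ ε : ℝ, 0 < δ → 0 < ε → ∀ᶠ u : ℝ in atTop,
      Real.exp ((β - ε) * u) ≤ ∫ v in u..(u + δ * u), ‖TT a v‖)
    {e M : ℝ} (he : 0 < e) :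
    ∀ᶠ T : ℝ in atTop, e * M * T ≤ ∫ w in Ioc T ((1 + e) * T), ‖TT a w‖ ^ 2 * Real.exp (-(2 * θ * w)) := by
  set κ := β - θ with hκ
  have hκ0 : 0 < κ := by rw [hκ]; linarith
  set δ := min e (κ / 2) with hδ
  have hδ0 : 0 < δ := lt_min he (by linarith)
  have hδ1 : δ ≤ e := min_le_left _ _
  have hδ2 : δ ≤ κ / 2 := min_le_right _ _
  have hpow : Tendsto (fun T : ℝ => Real.exp (κ / 2 * T) / T ^ 2) atTop atTop :=
    by simpa using tendsto_exp_mul_div_rpow_atTop 2 (κ / 2) (by linarith)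
  filter_upwards [hm δ (κ / 4) hδ0 (by linarith), eventually_gt_atTop (0:ℝ),
    hpow.eventually_ge_atTop (|M| * e * δ)] with T h1 hT0 h2
  set E := Real.exp ((β - κ / 4) * T) with hE
  have hE0 : 0 < E := Real.exp_pos _
  set F := δ * T * Real.exp (2 * θ * ((1 + δ) * T)) with hF
  have hF0 : 0 < F := by rw [hF]; positivity
  set l := F / E with hl
  have hl0 : 0 < l := by positivity
  have hEG : EG (fun w => TT a w * cexp (-(θ * w))) C (1 - θ) := fun w => by
    rw [norm_mul, Complex.norm_exp]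
    have e1 : (-((θ : ℂ) * w)).re = -(θ * w) := by simp
    rw [e1]
    calc ‖TT a w‖ * Real.exp (-(θ * w)) ≤ C * Real.exp w * Real.exp (-(θ * w)) :=
          mul_le_mul_of_nonneg_right (TT_norm ha w) (Real.exp_pos _).le
      _ = _ := by rw [mul_assoc, ← Real.exp_add]; congr 2; ring
  have hmeas : AEStronglyMeasurable (fun w : ℝ => TT a w * cexp (-(θ * w))) volume :=
    (TT_meas a).aestronglyMeasurable.mul
      (by fun_prop : Continuous fun w : ℝ => cexp (-(θ * w))).aestronglyMeasurable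
  have hint : ∀ x y : ℝ, IntegrableOn (fun w => ‖TT a w‖ ^ 2 * Real.exp (-(2 * θ * w))) (Ioc x y) := by
    intro x y
    have := sq_int_on hmeas (by linarith) hEG x y
    simpa only [sq_norm_TT] using this
  have hle : T ≤ T + δ * T := by
    have : 0 < δ * T := by positivity
    linarith
  rw [intervalIntegral.integral_of_le hle] at h1
  set W := ∫ w in Ioc T (T + δ * T), ‖TT a w‖ ^ 2 * Real.exp (-(2 * θ * w)) with hW
  have h3 : ∫ v in Ioc T (T + δ * T), ‖TT a v‖ ≤
      ∫ v in Ioc T (T + δ * T), (l / 2 * (‖TT a v‖ ^ 2 * Real.exp (-(2 * θ * v))) +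
        1 / (2 * l) * Real.exp (2 * θ * ((1 + δ) * T))) := by
    have hc : IntegrableOn (fun _ : ℝ => 1 / (2 * l) * Real.exp (2 * θ * ((1 + δ) * T)))
        (Ioc T (T + δ * T)) := integrableOn_const (by simp)
    refine integral_mono_of_nonneg (ae_of_all _ fun v => norm_nonneg _)
      (((hint _ _).const_mul _).add hc) ?_
    filter_upwards [ae_restrict_mem measurableSet_Ioc] with v hv
    have h4 : Real.exp (2 * θ * v) ≤ Real.exp (2 * θ * ((1 + δ) * T)) := by
      refine Real.exp_le_exp.2 (mul_le_mul_of_nonneg_left ?_ (by positivity))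
      linarith [hv.2]
    set X := ‖TT a v‖ with hX
    set Y := Real.exp (2 * θ * v) with hY
    have hY0 : 0 < Y := Real.exp_pos _
    have hYi : Real.exp (-(2 * θ * v)) = Y⁻¹ := by rw [hY, ← Real.exp_neg]
    rw [hYi]
    have h5 : 0 ≤ (l * X - Y) ^ 2 / (2 * l * Y) := by positivity
    have h6 : (l * X - Y) ^ 2 / (2 * l * Y) = l / 2 * (X ^ 2 * Y⁻¹) + 1 / (2 * l) * Y - X := by
      field_simp
      ring
    have h7 : 1 / (2 * l) * Y ≤ 1 / (2 * l) * Real.exp (2 * θ * ((1 + δ) * T)) :=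
      mul_le_mul_of_nonneg_left h4 (by positivity)
    rw [h6] at h5
    linarith
  have hc : IntegrableOn (fun _ : ℝ => 1 / (2 * l) * Real.exp (2 * θ * ((1 + δ) * T)))
      (Ioc T (T + δ * T)) := integrableOn_const (by simp)
  rw [integral_add ((hint _ _).const_mul _) hc, integral_const_mul, ← hW, setIntegral_const,
    smul_eq_mul, Measure.real, Real.volume_Ioc, ENNReal.toReal_ofReal (by linarith)] at h3
  have h8 : (T + δ * T - T) * (1 / (2 * l) * Real.exp (2 * θ * ((1 + δ) * T))) = E / 2 := by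
    rw [hl, hF]
    field_simp
    ring
  rw [h8] at h3
  have h9 : E / l ≤ W := by
    rw [div_le_iff₀ hl0]
    linarith
  have h10 : E / l = Real.exp ((2 * (β - κ / 4) - 2 * θ * (1 + δ)) * T) / (δ * T) := by
    have e1 : Real.exp ((2 * (β - κ / 4) - 2 * θ * (1 + δ)) * T) = E ^ 2 / Real.exp (2 * θ * ((1 + δ) * T)) := by
      rw [hE, ← Real.exp_nat_mul, ← Real.exp_sub]
      congr 1
      push_cast
      ring
    rw [e1, hl, hF]
    field_simp
  have h11 : Real.exp (κ / 2 * T) / (δ * T) ≤ E / l := by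
    rw [h10]
    refine div_le_div_of_nonneg_right (Real.exp_le_exp.2 (mul_le_mul_of_nonneg_right ?_ hT0.le))
      (by positivity)
    have : θ * δ ≤ 1 * (κ / 2) := mul_le_mul hθ1 hδ2 hδ0.le (by norm_num)
    rw [hκ] at this ⊢
    linarith
  have h12 : |M| * e * δ * T ^ 2 ≤ Real.exp (κ / 2 * T) := by
    rwa [le_div_iff₀ (by positivity)] at h2
  have h13 : e * |M| * T ≤ Real.exp (κ / 2 * T) / (δ * T) := by
    rw [le_div_iff₀ (by positivity)]
    linarith
  have h14 : W ≤ ∫ w in Ioc T ((1 + e) * T), ‖TT a w‖ ^ 2 * Real.exp (-(2 * θ * w)) :=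
    setIntegral_mono_set (hint _ _) (ae_of_all _ fun w => by positivity)
      (Ioc_subset_Ioc_right (by nlinarith)).eventuallyLE
  have h15 : e * M * T ≤ e * |M| * T := by
    have := le_abs_self M
    gcongr
  linarith

end

end Pool.Agent.W190.W
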