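import Pool.Agent.W190.W.W10
import Pool.Agent.W190.A17

/-! # The Mertens function in mean square over windows -/

set_option autoImplicit false

open Complex Filter Topology Set Metric MeasureTheory
open Pool.Agent.W190
open H353 (FF)

namespace Pool.Agent.W190.W

noncomputable section

theorem local_factor {F : ℂ → ℂ} {ρ : ℂ} (hF : AnalyticAt ℂ F ρ) (h0 : F ρ = 0)
    (hne : analyticOrderAt F ρ ≠ ⊤) :
    ∃ n : ℕ, ∃ r : ℝ, 0 < r ∧ ∃ h : ℂ → ℂ, DifferentiableOn ℂ h (ball ρ r) ∧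
      (∀ s ∈ ball ρ r, h s ≠ 0) ∧ (∀ s ∈ ball ρ r, F s = (s - ρ) ^ (n + 1) * h s) ∧
      (deriv F ρ ≠ 0 → n = 0) ∧ (n = 0 → h ρ = deriv F ρ) := by
  obtain ⟨m, hm⟩ := ENat.ne_top_iff_exists.1 hne
  obtain ⟨g, hg1, hg2, hg3⟩ := (hF.analyticOrderAt_eq_natCast).1 hm.symm
  have hm0 : m ≠ 0 := by
    rintro rfl
    have := hg3.self_of_nhds
    rw [h0, pow_zero, one_smul] at this
    exact hg2 this.symm
  obtain ⟨n, rfl⟩ := Nat.exists_eq_succ_of_ne_zero hm0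
  have hev : ∀ᶠ s in 𝓝 ρ, AnalyticAt ℂ g s ∧ g s ≠ 0 ∧ F s = (s - ρ) ^ (n + 1) * g s := by
    filter_upwards [hg1.eventually_analyticAt, hg1.continuousAt.eventually_ne hg2, hg3] with s h1 h2 h3
    exact ⟨h1, h2, by simpa [smul_eq_mul] using h3⟩
  obtain ⟨r, hr, hb⟩ := Metric.eventually_nhds_iff_ball.1 hev
  have hder : HasDerivAt F (((n + 1 : ℕ) : ℂ) * (ρ - ρ) ^ n * g ρ + (ρ - ρ) ^ (n + 1) * deriv g ρ) ρ := by
    have h1 : HasDerivAt (fun s => (s - ρ) ^ (n + 1) * g s)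
        (((n + 1 : ℕ) : ℂ) * (ρ - ρ) ^ n * 1 * g ρ + (ρ - ρ) ^ (n + 1) * deriv g ρ) ρ := by
      exact (((hasDerivAt_id ρ).sub_const ρ).pow (n + 1)).mul hg1.differentiableAt.hasDerivAt
    rw [mul_one] at h1
    refine h1.congr_of_eventuallyEq ?_
    filter_upwards [hev] with s hs
    exact hs.2.2
  refine ⟨n, r, hr, g, fun s hs => (hb s hs).1.differentiableAt.differentiableWithinAt,
    fun s hs => (hb s hs).2.1, fun s hs => (hb s hs).2.2, fun hd => ?_, fun hn => ?_⟩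
  · by_contra hn
    apply hd
    rw [hder.deriv, sub_self, zero_pow hn, zero_pow (Nat.succ_ne_zero n)]
    ring
  · subst hn
    rw [hder.deriv]
    simp

/-- the coefficients -/
def mua (n : ℕ) : ℂ := ((ArithmeticFunction.moebius n : ℤ) : ℂ)

theorem mua_norm (n : ℕ) : ‖mua n‖ ≤ 1 := by
  unfold mua
  rw [Complex.norm_intCast]
  exact_mod_cast ArithmeticFunction.abs_moebius_le_one

/-- `1 / ζ` -/
def Amu (s : ℂ) : ℂ := (s - 1) * (FF s)⁻¹

theorem FF_ne_zero {s : ℂ} (h : s = 1 ∨ riemannZeta s ≠ 0) : FF s ≠ 0 := by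
  by_cases hs : s = 1
  · subst hs
    have : FF 1 = 1 := ZU.J_g2b.FF_one
    rw [this]
    exact one_ne_zero
  · rw [FF_eq_ne hs]
    exact mul_ne_zero (sub_ne_zero.2 hs) (h.resolve_left hs)

theorem FF_diff : Differentiable ℂ FF := ZU.J_g2b.FF_diff

theorem Amu_eq {s : ℂ} (hs : s ≠ 1) : Amu s = (riemannZeta s)⁻¹ := by
  unfold Amu
  rw [FF_eq_ne hs, mul_inv, ← mul_assoc, mul_inv_cancel₀ (sub_ne_zero.2 hs), one_mul]

theorem Amu_L (s : ℂ) (hs : s.re = 2) : Amu s = LSeries mua s := by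
  have hs1 : s ≠ 1 := by
    rintro rfl
    norm_num at hs
  have hs2 : 1 < s.re := by rw [hs]; norm_num
  rw [Amu_eq hs1]
  have h1 := ArithmeticFunction.LSeries_zeta_mul_Lseries_moebius hs2
  rw [ArithmeticFunction.LSeries_zeta_eq_riemannZeta hs2] at h1
  exact inv_eq_of_mul_eq_one_right h1

theorem Amu_diff (hRH : ∀ s : ℂ, 1 / 2 < s.re → riemannZeta s ≠ 0) :
    DifferentiableOn ℂ Amu {s | 1 / 2 < s.re} := by
  unfold Amu
  refine DifferentiableOn.mul (by fun_prop) (FF_diff.differentiableOn.inv fun s hs => ?_)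
  exact FF_ne_zero (Or.inr (hRH s hs))

theorem mu_off (h : ∃ ρ : ℂ, riemannZeta ρ = 0 ∧ 1 / 2 < ρ.re) {e M : ℝ} (he : 0 < e) :
    ∀ᶠ T : ℝ in atTop, e * M * T ≤
      ∫ w in Ioc T ((1 + e) * T), ‖TT mua w‖ ^ 2 * Real.exp (-(2 * (1 / 2) * w)) := by
  obtain ⟨ρ, h0, h1⟩ := h
  have h2 : ρ.re < 1 := (zero_FF h0).2
  refine off_line mua_norm (by norm_num) (by norm_num) h1 (fun δ ε hδ hε => ?_) he
  have hL : DirichletCharacter.LFunction (1 : DirichletCharacter ℂ 1) ρ = 0 := by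
    rw [DirichletCharacter.LFunction_modOne_eq]
    exact h0
  have h3 := Pool.Agent.W190.M.muchi_window (q := 1) 1 hL (by linarith) h2 0 hδ hε
  have hmu : Pool.Agent.W190.M.muchi (1 : DirichletCharacter ℂ 1) = mua := by
    funext n
    unfold Pool.Agent.W190.M.muchi mua
    have : (n : ZMod 1) = 1 := Subsingleton.elim _ _
    rw [this, map_one, one_mul]
  filter_upwards [h3] with u hu
  have h4 := hu (fun _ => 0)
  have h5 : ∀ v, PE 0 (fun _ => 0) v = 0 := fun v => by simp [PE]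
  simpa only [h5, sub_zero, hmu] using h4

theorem FF_order (ρ : ℂ) : analyticOrderAt FF ρ ≠ ⊤ := H353.FF_order_ne_top ρ

theorem FF_deriv {ρ : ℂ} (h0 : riemannZeta ρ = 0) : deriv FF ρ = (ρ - 1) * deriv riemannZeta ρ := by
  have hρ1 : ρ ≠ 1 := by
    rintro rfl
    exact riemannZeta_one_ne_zero h0
  have h1 : FF =ᶠ[𝓝 ρ] fun v => (v - 1) * riemannZeta v := by
    filter_upwards [isOpen_ne.mem_nhds hρ1] with w hw
    exact FF_eq_ne hw
  rw [h1.deriv_eq]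
  have h2 : HasDerivAt (fun v => (v - 1) * riemannZeta v)
      (1 * riemannZeta ρ + (ρ - 1) * deriv riemannZeta ρ) ρ :=
    ((hasDerivAt_id ρ).sub_const 1).mul (differentiableAt_riemannZeta hρ1).hasDerivAt
  rw [h2.deriv, h0]
  ring

theorem mu_multi (hRH : ∀ s : ℂ, 1 / 2 < s.re → riemannZeta s ≠ 0) {ρ : ℂ} (h0 : riemannZeta ρ = 0)
    (hre : ρ.re = 1 / 2) (hd : deriv riemannZeta ρ = 0) {e M : ℝ} (he : 0 < e) :
    ∀ᶠ T : ℝ in atTop, e * M * T ≤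
      ∫ w in Ioc T ((1 + e) * T), ‖TT mua w‖ ^ 2 * Real.exp (-(2 * (1 / 2) * w)) := by
  have hF0 : FF ρ = 0 := (zero_FF h0).1
  obtain ⟨n, r, hr, h, hh1, hh2, hh3, hh4, hh5⟩ := local_factor (H353.FF_anal ρ) hF0 (FF_order ρ)
  have hρ1 : ρ ≠ 1 := by
    rintro rfl
    exact riemannZeta_one_ne_zero h0
  have hn : n ≠ 0 := by
    intro hn
    have h6 := hh5 hn
    rw [FF_deriv h0, hd, mul_zero] at h6
    exact hh2 ρ (mem_ball_self hr) h6
  have hρe : ((1 / 2 : ℝ) : ℂ) + ρ.im * I = ρ := by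
    apply Complex.ext <;> simp [hre]
  refine TT_multi mua_norm (by norm_num) (by norm_num) Amu_L (Amu_diff hRH) (g := ρ.im) hn hr
    (Bg := fun s => (s - 1) * (h s)⁻¹) ?_ ?_ ?_ he
  · rw [hρe]
    exact DifferentiableOn.mul (by fun_prop) (hh1.inv hh2)
  · rw [hρe]
    intro s hs _
    unfold Amu
    rw [hh3 s hs, mul_inv]
    ring
  · rw [hρe]
    exact mul_ne_zero (sub_ne_zero.2 hρ1) (inv_ne_zero (hh2 ρ (mem_ball_self hr)))

theorem mu_bessel (hRH : ∀ s : ℂ, 1 / 2 < s.re → riemannZeta s ≠ 0) (Z : Finset ℂ)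
    (hZ : ∀ ρ ∈ Z, riemannZeta ρ = 0 ∧ ρ.re = 1 / 2 ∧ deriv riemannZeta ρ ≠ 0) {e S' : ℝ} (he : 0 < e)
    (hS' : S' < ∑ ρ ∈ Z, 1 / ‖ρ * deriv riemannZeta ρ‖ ^ 2) :
    ∀ᶠ T : ℝ in atTop, e * S' * T ≤
      ∫ w in Ioc T ((1 + e) * T), ‖TT mua w‖ ^ 2 * Real.exp (-(2 * (1 / 2) * w)) := by
  have hρe : ∀ ρ ∈ Z, ((1 / 2 : ℝ) : ℂ) + ρ.im * I = ρ := by
    intro ρ hρ
    apply Complex.ext <;> simp [(hZ ρ hρ).2.1]
  have hinj : ∀ ρ ∈ Z, ∀ ρ' ∈ Z, ρ.im = ρ'.im → ρ = ρ' := by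
    intro ρ hρ ρ' hρ' h
    rw [← hρe ρ hρ, ← hρe ρ' hρ', h]
  refine TT_bessel mua_norm (by norm_num) (by norm_num) Amu_L (Amu_diff hRH) (Z.image Complex.im)
    (fun g => (deriv riemannZeta (((1 / 2 : ℝ) : ℂ) + g * I))⁻¹) ?_ he ?_
  · intro g hg
    obtain ⟨ρ, hρ, rfl⟩ := Finset.mem_image.1 hg
    obtain ⟨h0, hre, hd⟩ := hZ ρ hρ
    have hF0 : FF ρ = 0 := (zero_FF h0).1
    obtain ⟨n, r, hr, h, hh1, hh2, hh3, hh4, hh5⟩ := local_factor (H353.FF_anal ρ) hF0 (FF_order ρ)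
    have hρ1 : ρ ≠ 1 := by
      rintro rfl
      exact riemannZeta_one_ne_zero h0
    have hρ1' : ρ - 1 ≠ 0 := sub_ne_zero.2 hρ1
    have hn : n = 0 := hh4 (by
      rw [FF_deriv h0]
      exact mul_ne_zero hρ1' hd)
    have h6 := hh5 hn
    subst hn
    rw [hρe ρ hρ]
    refine ⟨r, hr, fun s => (s - 1) * (h s)⁻¹, DifferentiableOn.mul (by fun_prop) (hh1.inv hh2), ?_, ?_⟩
    · intro s hs _
      unfold Amu
      rw [hh3 s hs, mul_inv, zero_add, pow_one]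
      ring
    · simp only
      rw [h6, FF_deriv h0, mul_inv, ← mul_assoc, mul_inv_cancel₀ hρ1', one_mul]
  · rw [Finset.sum_image hinj]
    refine hS'.trans_le (le_of_eq (Finset.sum_congr rfl fun ρ hρ => ?_))
    rw [hρe ρ hρ, norm_div, norm_inv, norm_mul]
    field_simp

end

end Pool.Agent.W190.W
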