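import Pool.Agent.W190.W.W11

/-! # The mean square of `M(u)/u` over the windows `[x, x^(1+e)]` -/

set_option autoImplicit false

open Complex Filter Topology Set Metric MeasureTheory
open Pool.Agent.W190
open H353 (FF)

namespace Pool.Agent.W190.W

noncomputable section

theorem mua_cast (u : ℝ) : ‖∑ n ∈ Finset.Icc 1 ⌊u⌋₊, mua n‖ ^ 2 =
    (∑ n ∈ Finset.Icc 1 ⌊u⌋₊, ((ArithmeticFunction.moebius n : ℤ) : ℝ)) ^ 2 := by
  have : ∑ n ∈ Finset.Icc 1 ⌊u⌋₊, mua n =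
      ((∑ n ∈ Finset.Icc 1 ⌊u⌋₊, ((ArithmeticFunction.moebius n : ℤ) : ℝ) : ℝ) : ℂ) := by
    unfold mua
    push_cast
    rfl
  rw [this, Complex.norm_real, Real.norm_eq_abs, sq_abs]

theorem mua_window {x e : ℝ} (hx : 1 ≤ x) (he : 0 ≤ e) :
    ∫ u in x..(x ^ (1 + e)), ((∑ n ∈ Finset.Icc 1 ⌊u⌋₊, ((ArithmeticFunction.moebius n : ℤ) : ℝ)) / u) ^ 2 =
      ∫ w in Ioc (Real.log x) ((1 + e) * Real.log x), ‖TT mua w‖ ^ 2 * Real.exp (-(2 * (1 / 2) * w)) := by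
  rw [← window_change mua (1 / 2) hx he]
  have hle : x ≤ x ^ (1 + e) := by
    calc x = x ^ (1:ℝ) := (Real.rpow_one x).symm
      _ ≤ _ := Real.rpow_le_rpow_of_exponent_le hx (by linarith)
  refine intervalIntegral.integral_congr fun u hu => ?_
  rw [uIcc_of_le hle] at hu
  have hu0 : 0 < u := by linarith [hu.1]
  rw [mua_cast, div_pow, div_eq_mul_inv]
  congr 1
  rw [show (-(2 * (1 / 2)) - 1 : ℝ) = -(2:ℝ) by norm_num, Real.rpow_neg hu0.le]
  norm_num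

theorem freq_false {e C S' : ℝ} (he : 0 < e) (hC : C < S')
    (h1 : ∃ᶠ x : ℝ in atTop, ∫ u in x..(x ^ (1 + e)),
      ((∑ n ∈ Finset.Icc 1 ⌊u⌋₊, ((ArithmeticFunction.moebius n : ℤ) : ℝ)) / u) ^ 2 ≤
        C * (e * Real.log x))
    (h2 : ∀ᶠ T : ℝ in atTop, e * S' * T ≤
      ∫ w in Ioc T ((1 + e) * T), ‖TT mua w‖ ^ 2 * Real.exp (-(2 * (1 / 2) * w))) : False := by
  have h3 := Real.tendsto_log_atTop.eventually h2
  obtain ⟨x, hx1, hx2, hx3⟩ := (h1.and_eventually (h3.and (eventually_gt_atTop (1:ℝ)))).exists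
  rw [mua_window hx3.le he.le] at hx1
  have hl : 0 < Real.log x := Real.log_pos hx3
  have h4 := hx2.trans hx1
  have h5 : 0 < e * Real.log x := by positivity
  have h6 : C * (e * Real.log x) < S' * (e * Real.log x) := mul_lt_mul_of_pos_right hC h5
  linarith

/-- the main implication -/
theorem window_main {e C : ℝ} (he : 0 < e)
    (h1 : ∃ᶠ x : ℝ in atTop, ∫ u in x..(x ^ (1 + e)),
      ((∑ n ∈ Finset.Icc 1 ⌊u⌋₊, ((ArithmeticFunction.moebius n : ℤ) : ℝ)) / u) ^ 2 ≤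
        C * (e * Real.log x)) :
    RiemannHypothesis ∧ (∀ ρ : ℂ, riemannZeta ρ = 0 → 0 < ρ.re → deriv riemannZeta ρ ≠ 0) ∧
      ∀ Z : Finset ℂ, (∀ ρ ∈ Z, riemannZeta ρ = 0 ∧ 0 < ρ.re) →
        ∑ ρ ∈ Z, 1 / ‖ρ * deriv riemannZeta ρ‖ ^ 2 ≤ C := by
  have hfree : ∀ s : ℂ, 1 / 2 < s.re → riemannZeta s ≠ 0 := by
    intro s hs h0
    exact freq_false he (lt_add_one C) h1 (mu_off ⟨s, h0, hs⟩ he)
  have hRH : RiemannHypothesis := rh_free.2 hfree
  have hre : ∀ ρ : ℂ, riemannZeta ρ = 0 → 0 < ρ.re → ρ.re = 1 / 2 := by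
    intro ρ h0 hpos
    refine hRH ρ h0 ?_ ?_
    · rintro ⟨n, hn⟩
      rw [hn] at hpos
      have h2 : (-2 * ((n:ℂ) + 1)).re = -2 * ((n:ℝ) + 1) := by simp
      rw [h2] at hpos
      have : (0:ℝ) ≤ n := Nat.cast_nonneg n
      linarith
    · rintro rfl
      exact riemannZeta_one_ne_zero h0
  have hsimple : ∀ ρ : ℂ, riemannZeta ρ = 0 → 0 < ρ.re → deriv riemannZeta ρ ≠ 0 := by
    intro ρ h0 hpos hd
    exact freq_false he (lt_add_one C) h1 (mu_multi hfree h0 (hre ρ h0 hpos) hd he)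
  refine ⟨hRH, hsimple, fun Z hZ => ?_⟩
  by_contra hlt
  rw [not_le] at hlt
  obtain ⟨S', hS1, hS2⟩ := exists_between hlt
  exact freq_false he hS1 h1 (mu_bessel hfree Z (fun ρ hρ =>
    ⟨(hZ ρ hρ).1, hre ρ (hZ ρ hρ).1 (hZ ρ hρ).2, hsimple ρ (hZ ρ hρ).1 (hZ ρ hρ).2⟩) he hS2)

theorem mert_int (x y : ℝ) (hx : 0 < x) (hy : 0 < y) : IntervalIntegrable
    (fun u : ℝ => ((∑ n ∈ Finset.Icc 1 ⌊u⌋₊, ((ArithmeticFunction.moebius n : ℤ) : ℝ)) / u) ^ 2)
    volume x y := by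
  wlog hxy : x ≤ y generalizing x y
  · exact (this y x hy hx (le_of_not_ge hxy)).symm
  rw [intervalIntegrable_iff_integrableOn_Ioc_of_le hxy]
  have hm : Measurable (fun u : ℝ =>
      ((∑ n ∈ Finset.Icc 1 ⌊u⌋₊, ((ArithmeticFunction.moebius n : ℤ) : ℝ)) / u) ^ 2) := by
    have h1 : Measurable (fun n : ℕ => ∑ k ∈ Finset.Icc 1 n, ((ArithmeticFunction.moebius k : ℤ) : ℝ)) :=
      measurable_from_nat
    exact ((h1.comp Nat.measurable_floor).div measurable_id).pow_const 2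
  have hc : IntegrableOn (fun _ : ℝ => (1:ℝ)) (Ioc x y) := integrableOn_const (by simp)
  refine hc.mono' hm.aestronglyMeasurable ?_
  filter_upwards [ae_restrict_mem measurableSet_Ioc] with u hu
  have hu0 : 0 < u := hx.trans hu.1
  rw [Real.norm_eq_abs, abs_of_nonneg (sq_nonneg _), sq_le_one_iff_abs_le_one, abs_div, abs_of_pos hu0,
    div_le_one hu0]
  refine (Finset.abs_sum_le_sum_abs _ _).trans ?_
  calc ∑ n ∈ Finset.Icc 1 ⌊u⌋₊, |((ArithmeticFunction.moebius n : ℤ) : ℝ)| ≤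
        ∑ n ∈ Finset.Icc 1 ⌊u⌋₊, (1:ℝ) := Finset.sum_le_sum fun n _ => by
          exact_mod_cast ArithmeticFunction.abs_moebius_le_one
    _ = ⌊u⌋₊ := by simp
    _ ≤ u := Nat.floor_le hu0.le

/-- the same for `I(x)` along one sequence -/
theorem I_main {C : ℝ}
    (h1 : ∃ᶠ x : ℝ in atTop, ∫ u in (1:ℝ)..x,
      ((∑ n ∈ Finset.Icc 1 ⌊u⌋₊, ((ArithmeticFunction.moebius n : ℤ) : ℝ)) / u) ^ 2 ≤ C * Real.log x) :
    RiemannHypothesis ∧ (∀ ρ : ℂ, riemannZeta ρ = 0 → 0 < ρ.re → deriv riemannZeta ρ ≠ 0) ∧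
      ∀ Z : Finset ℂ, (∀ ρ ∈ Z, riemannZeta ρ = 0 ∧ 0 < ρ.re) →
        ∑ ρ ∈ Z, 1 / ‖ρ * deriv riemannZeta ρ‖ ^ 2 ≤ C := by
  have key : ∀ e : ℝ, 0 < e → ∃ᶠ x : ℝ in atTop, ∫ u in x..(x ^ (1 + e)),
      ((∑ n ∈ Finset.Icc 1 ⌊u⌋₊, ((ArithmeticFunction.moebius n : ℤ) : ℝ)) / u) ^ 2 ≤
        (C * (1 + e) / e) * (e * Real.log x) := by
    intro e he
    rw [Filter.frequently_atTop] at h1 ⊢
    intro b
    obtain ⟨x, hx1, hx2⟩ := h1 ((max b 1) ^ (1 + e))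
    have hb1 : (1:ℝ) ≤ max b 1 := le_max_right _ _
    have hb2 : (1:ℝ) ≤ (max b 1) ^ (1 + e) := Real.one_le_rpow hb1 (by linarith)
    have hx3 : 1 ≤ x := hb2.trans hx1
    have hx0 : 0 < x := by linarith
    set y := x ^ (1 / (1 + e)) with hy
    have hy1 : y ^ (1 + e) = x := by
      rw [hy, ← Real.rpow_mul hx0.le, one_div, inv_mul_cancel₀ (by linarith), Real.rpow_one]
    have hyb : max b 1 ≤ y := by
      have h2 := Real.rpow_le_rpow (by linarith) hx1 (by positivity : (0:ℝ) ≤ 1 / (1 + e))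
      rw [← Real.rpow_mul (by linarith), mul_one_div_cancel (by linarith), Real.rpow_one] at h2
      exact h2
    refine ⟨y, (le_max_left _ _).trans hyb, ?_⟩
    rw [hy1]
    have hy2 : 1 ≤ y := hb1.trans hyb
    have h3 : C * (1 + e) / e * (e * Real.log y) = C * Real.log x := by
      have h3' : Real.log x = (1 + e) * Real.log y := by
        rw [← Real.log_rpow (by linarith), hy1]
      rw [h3']
      field_simp
    rw [h3]
    refine le_trans ?_ hx2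
    have hyx : y ≤ x := by
      rw [← hy1]
      calc y = y ^ (1:ℝ) := (Real.rpow_one y).symm
        _ ≤ _ := Real.rpow_le_rpow_of_exponent_le hy2 (by linarith)
    have hadd := intervalIntegral.integral_add_adjacent_intervals (mert_int 1 y one_pos (by linarith))
      (mert_int y x (by linarith) hx0)
    rw [← hadd]
    have h4 : 0 ≤ ∫ u in (1:ℝ)..y,
        ((∑ n ∈ Finset.Icc 1 ⌊u⌋₊, ((ArithmeticFunction.moebius n : ℤ) : ℝ)) / u) ^ 2 :=
      intervalIntegral.integral_nonneg hy2 fun u _ => sq_nonneg _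
    linarith
  obtain ⟨hRH, hs, _⟩ := window_main one_pos (key 1 one_pos)
  refine ⟨hRH, hs, fun Z hZ => ?_⟩
  have hall : ∀ e : ℝ, 0 < e → ∑ ρ ∈ Z, 1 / ‖ρ * deriv riemannZeta ρ‖ ^ 2 ≤ C * (1 + e) / e :=
    fun e he => (window_main he (key e he)).2.2 Z hZ
  have hlim : Tendsto (fun e : ℝ => C * (1 + e) / e) atTop (𝓝 C) := by
    have h5 : Tendsto (fun e : ℝ => C * e⁻¹ + C) atTop (𝓝 (C * 0 + C)) :=
      (tendsto_inv_atTop_zero.const_mul C).add_const C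
    rw [mul_zero, zero_add] at h5
    refine h5.congr' ?_
    filter_upwards [eventually_gt_atTop (0:ℝ)] with e he
    field_simp
  exact ge_of_tendsto hlim (by
    filter_upwards [eventually_gt_atTop (0:ℝ)] with e he
    exact hall e he)

end

end Pool.Agent.W190.W
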