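import Pool.Agent.W190.W.W8

/-! # One-sided bounds and nonnegative trigonometric polynomials -/

set_option autoImplicit false

open Complex Filter Topology Set Metric MeasureTheory
open Pool.Agent.W190

namespace Pool.Agent.W190.W

noncomputable section

/-- trigonometric polynomial -/
def TP (S : Finset ℝ) (p : ℝ → ℂ) (w : ℝ) : ℂ := ∑ l ∈ S, p l * cexp (l * I * w)

theorem TP_cont (S : Finset ℝ) (p : ℝ → ℂ) : Continuous (TP S p) := by
  unfold TP; fun_prop

theorem TP_norm (S : Finset ℝ) (p : ℝ → ℂ) (w : ℝ) : ‖TP S p w‖ ≤ ∑ l ∈ S, ‖p l‖ := by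
  unfold TP
  refine (norm_sum_le _ _).trans (Finset.sum_le_sum fun l _ => ?_)
  have : (l : ℂ) * I * w = -(((-(l * w) : ℝ) : ℂ) * I) := by push_cast; ring
  rw [norm_mul, this, norm_cis, mul_one]

theorem J_TP {f : ℝ → ℂ} (hfm : AEStronglyMeasurable f volume) {C B : ℝ} (hf : EG f C B)
    {q : ℝ} (hq : 0 < q) (w0 : ℝ) (S : Finset ℝ) (p : ℝ → ℂ) :
    ∫ w, f w * TP S p w * (gs q (w0 - w) : ℝ) = ∑ l ∈ S, p l * J (md (-l) f) q w0 := by
  have i1 : ∀ l ∈ S, Integrable (fun w => p l * (md (-l) f w * (gs q (w0 - w) : ℝ))) :=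
    fun l _ => (f_gs_int (md_meas hfm (-l)) (md_EG hf (-l)) hq w0).const_mul _
  have e : (fun w : ℝ => f w * TP S p w * (gs q (w0 - w) : ℝ)) =
      fun w => ∑ l ∈ S, p l * (md (-l) f w * (gs q (w0 - w) : ℝ)) := by
    funext w
    unfold TP
    rw [Finset.mul_sum, Finset.sum_mul]
    refine Finset.sum_congr rfl fun l _ => ?_
    unfold md
    have : cexp (-(((-l : ℝ) : ℂ) * I * w)) = cexp (l * I * w) := by
      congr 1
      push_cast
      ring
    rw [this]
    ring
  rw [e, integral_finsetSum S i1]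
  refine Finset.sum_congr rfl fun l _ => ?_
  rw [integral_const_mul]
  rfl

theorem one_EG : EG (fun _ => (1:ℂ)) 1 0 := fun w => by simp

/-- the first power of `f` outside of a window -/
theorem tail_first {f : ℝ → ℂ} (hfm : AEStronglyMeasurable f volume) {C B : ℝ} (hB : 0 ≤ B)
    (hf : EG f C B) {η Λ K T : ℝ} (hη : 0 < η)
    (hΛ : 0 ≤ Λ) (hK : 0 < K) (hKe : 2 * B + 1 + (2 * B * Λ + 1) / η ≤ η / (2 * K)) (hT : 0 < T)
    (hKT : 1 ≤ K * T) {w0 a b : ℝ} (hw0 : w0 ≤ Λ * T) (ha : a ≤ w0 - η * T) (hb : w0 + η * T ≤ b) :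
    (∫ w in (Ioc a b)ᶜ, ‖f w‖ * gs (K * T) (w0 - w)) ≤ (C ^ 2 + 1) * Real.exp (-T) * (2 * Real.pi) := by
  have hq : 0 < K * T := by positivity
  have hi := sq_gs_int hfm hf hq w0
  have hKe1 : 2 * 0 + 1 + (2 * 0 * Λ + 1) / η ≤ η / (2 * K) := by
    refine le_trans ?_ hKe
    have h1 : (2 * 0 * Λ + 1) / η ≤ (2 * B * Λ + 1) / η := by
      refine div_le_div_of_nonneg_right ?_ hη.le
      have : 0 ≤ 2 * B * Λ := by positivity
      linarith
    linarith
  have h1 := tail_window hfm hB hf hη hΛ hK hKe hT hKT hw0 ha hb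
  have h2 := tail_window (f := fun _ => (1:ℂ)) aestronglyMeasurable_const le_rfl one_EG hη hΛ hK hKe1
    hT hKT hw0 ha hb
  have hi1 := sq_gs_int (f := fun _ => (1:ℂ)) aestronglyMeasurable_const one_EG hq w0
  rw [← integral_add_compl (measurableSet_Ioc (a := a) (b := b)) hi] at h1
  rw [← integral_add_compl (measurableSet_Ioc (a := a) (b := b)) hi1] at h2
  have h3 : (∫ w in (Ioc a b)ᶜ, ‖f w‖ * gs (K * T) (w0 - w)) ≤
      ∫ w in (Ioc a b)ᶜ, (‖f w‖ ^ 2 * gs (K * T) (w0 - w) + ‖(1:ℂ)‖ ^ 2 * gs (K * T) (w0 - w)) := by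
    refine integral_mono_of_nonneg (ae_of_all _ fun w => mul_nonneg (norm_nonneg _) (gs_nonneg _ _))
      ((hi.add hi1).integrableOn) (ae_of_all _ fun w => ?_)
    simp only
    rw [← add_mul]
    refine mul_le_mul_of_nonneg_right ?_ (gs_nonneg _ _)
    rw [norm_one]
    nlinarith [sq_nonneg (‖f w‖ - 1), norm_nonneg (f w)]
  rw [integral_add hi.integrableOn hi1.integrableOn] at h3
  nlinarith [Real.exp_pos (-T), Real.pi_pos]

/-- **one-sided bounds on windows** -/
theorem one_sided {f : ℝ → ℂ} {V : ℂ → ℂ} {x1 B : ℝ} (h : Trf f V x1 B) (hB : 0 ≤ B) (hx1 : 0 < x1)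
    (hVd : DifferentiableOn ℂ V {z | 0 < z.re}) (S : Finset ℝ) (p : ℝ → ℂ) (c : ℝ → ℂ)
    (hS : ∀ l ∈ S, ∃ r : ℝ, 0 < r ∧ ∃ Bg : ℂ → ℂ, DifferentiableOn ℂ Bg (ball (-(l * I)) r) ∧
      (∀ z ∈ ball (-((l : ℂ) * I)) r, 0 < z.re → V z = (z + l * I)⁻¹ * Bg z) ∧ Bg (-(l * I)) = c (-l))
    (h0 : (0:ℝ) ∈ S) (hp0 : p 0 = 1) (hPr : ∀ w, (TP S p w).im = 0) (hPp : ∀ w, 0 ≤ (TP S p w).re)
    {e κ : ℝ} (he : 0 < e) (hκ : κ < (∑ l ∈ S, p l * c (-l)).re) :
    ∀ᶠ T : ℝ in atTop, ∃ w : ℝ, T < w ∧ w ≤ (1 + e) * T ∧ κ < (f w).re := by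
  obtain ⟨C, hC⟩ := h.eg
  set A := (∑ l ∈ S, p l * c (-l)).re with hA
  set N := ∑ l ∈ S, ‖p l‖ with hN
  have hN0 : 0 ≤ N := Finset.sum_nonneg fun l _ => norm_nonneg _
  set Λ := 1 + e with hΛ
  set η := e / 2 with hη
  have hη0 : 0 < η := by positivity
  set D := 2 * B + 1 + (2 * B * Λ + 1) / η with hD
  have hD0 : 0 < D := by rw [hD]; positivity
  set K := η / (2 * D) with hK
  have hK0 : 0 < K := by rw [hK]; positivity
  have hKe : 2 * B + 1 + (2 * B * Λ + 1) / η ≤ η / (2 * K) := by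
    rw [← hD, hK]
    refine le_of_eq ?_
    field_simp
  set d := A - κ with hd
  have hd0 : 0 < d := by rw [hd]; linarith
  -- convergence for `f`
  have ev1 : ∀ᶠ T : ℝ in atTop, ∀ l ∈ S, ∀ w0 : ℝ, T ≤ w0 → w0 ≤ Λ * T →
      ‖J (md (-l) f) (K * T) w0 - c (-l)‖ ≤ d / (8 * (N + 1)) := by
    refine (Filter.eventually_all_finset S).2 fun l hl => ?_
    obtain ⟨r, hr, Bg, hBg, hVB, hBc⟩ := hS l hl
    have hm := h.md (-l)
    have hd' : DifferentiableOn ℂ (fun z => V (z + (-l : ℝ) * I)) {z | 0 < z.re} := by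
      refine hVd.comp (by fun_prop) fun z hz => ?_
      simpa using hz
    have hb : DifferentiableOn ℂ (fun z => Bg (z + (-l : ℝ) * I)) (ball 0 r) := by
      refine hBg.comp (by fun_prop) fun z hz => ?_
      rw [mem_ball_iff_norm]
      have : z + (-l : ℝ) * I - -(l * I) = z := by push_cast; ring
      rw [this]
      simpa using hz
    have := gauss_lim hx1 hm.meas hm.int (fun y => hm.eq _ (by simp)) hd' hr hb (fun z hz hz0 => by
      have h1 := hVB (z + (-l : ℝ) * I) (by
        rw [mem_ball_iff_norm]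
        have : z + (-l : ℝ) * I - -(l * I) = z := by push_cast; ring
        rw [this]
        simpa using hz) (by simpa using hz0)
      have h2 : z + (-l : ℝ) * I + l * I = z := by push_cast; ring
      rw [h1, h2]) hK0 (by linarith : 1 ≤ Λ) (ε := d / (8 * (N + 1))) (by positivity)
    have e0 : (0:ℂ) + (-l : ℝ) * I = -(l * I) := by push_cast; ring
    simpa only [e0, hBc] using this
  -- convergence for `1`
  have ev2 : ∀ᶠ T : ℝ in atTop, ∀ l ∈ S, l ≠ 0 → Real.exp (-((K * l ^ 2 / 2) * T)) ≤ d / (8 * (N + 1) * (|κ| + 1)) := by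
    refine (Filter.eventually_all_finset S).2 fun l _ => ?_
    by_cases hl : l = 0
    · exact Eventually.of_forall fun T h' => absurd hl h'
    · have hpos : 0 < K * l ^ 2 / 2 := by positivity
      have h1 : Tendsto (fun T : ℝ => Real.exp (-((K * l ^ 2 / 2) * T))) atTop (𝓝 0) := by
        refine Real.tendsto_exp_atBot.comp (tendsto_neg_atTop_atBot.comp ?_)
        exact tendsto_id.const_mul_atTop hpos
      filter_upwards [h1.eventually (Iio_mem_nhds (show 0 < d / (8 * (N + 1) * (|κ| + 1)) by positivity))]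
        with T hT _
      exact le_of_lt hT
  have hlim : Tendsto (fun T : ℝ => (N * (C ^ 2 + 1) * (2 * Real.pi) + |κ| * (N * (1 ^ 2 + 1) * (2 * Real.pi))) *
      Real.exp (-T)) atTop (𝓝 0) := by
    have := Real.tendsto_exp_neg_atTop_nhds_zero.const_mul
      (N * (C ^ 2 + 1) * (2 * Real.pi) + |κ| * (N * (1 ^ 2 + 1) * (2 * Real.pi)))
    rwa [mul_zero] at this
  filter_upwards [ev1, ev2, hlim.eventually (Iio_mem_nhds (show 0 < d / 4 by positivity)),
    eventually_ge_atTop (1:ℝ), eventually_ge_atTop (1 / K)] with T h1 h2 h3 h4 h5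
  by_contra hcon
  push Not at hcon
  have hT0 : 0 < T := by linarith
  have hKT : 1 ≤ K * T := by
    rw [div_le_iff₀ hK0] at h5
    linarith
  have hq : 0 < K * T := by positivity
  set w0 := (1 + η) * T with hw0
  have hw1 : T ≤ w0 := by rw [hw0]; nlinarith
  have hw2 : w0 ≤ Λ * T := by rw [hw0, hΛ, hη]; nlinarith
  have ha : T ≤ w0 - η * T := by rw [hw0]; linarith
  have hb : w0 + η * T ≤ (1 + e) * T := by rw [hw0, hη]; linarith
  set P : ℝ → ℝ := fun w => (TP S p w).re with hP
  have hPc : Continuous P := Complex.continuous_re.comp (TP_cont S p)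
  have hPe : ∀ w, TP S p w = (P w : ℂ) := fun w => by
    apply Complex.ext
    · simp [hP]
    · simp [hPr]
  have hPN : ∀ w, P w ≤ N := fun w => (Complex.re_le_norm _).trans (TP_norm S p w)
  -- integrability
  have hfg := f_gs_int h.meas hC hq w0
  have hint : Integrable (fun w => ((f w).re - κ) * P w * gs (K * T) (w0 - w)) := by
    have i1 : Integrable (fun w => ‖f w‖ * gs (K * T) (w0 - w)) := by
      refine hfg.norm.congr (ae_of_all _ fun w => ?_)
      simp only
      rw [norm_mul, Complex.norm_real, Real.norm_eq_abs, abs_of_nonneg (gs_nonneg _ _)]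
    have i2 := (i1.add ((gs_shift_int hq w0).const_mul |κ|)).const_mul N
    refine i2.mono' ?_ (ae_of_all _ fun w => ?_)
    · have := gs_cont (K * T)
      have m1 : AEStronglyMeasurable (fun w => (f w).re) volume := h.meas.re
      exact ((m1.sub aestronglyMeasurable_const).mul hPc.aestronglyMeasurable).mul
        (by fun_prop : Continuous fun w => gs (K * T) (w0 - w)).aestronglyMeasurable
    · simp only [Pi.add_apply]
      rw [norm_mul, norm_mul, Real.norm_eq_abs, Real.norm_eq_abs, Real.norm_eq_abs,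
        abs_of_nonneg (gs_nonneg _ _), abs_of_nonneg (hPp w)]
      have h6 : |(f w).re - κ| ≤ ‖f w‖ + |κ| := (abs_sub _ _).trans
        (add_le_add (Complex.abs_re_le_norm _) le_rfl)
      have hg0 := gs_nonneg (K * T) (w0 - w)
      calc |(f w).re - κ| * P w * gs (K * T) (w0 - w) ≤ (‖f w‖ + |κ|) * N * gs (K * T) (w0 - w) := by
            refine mul_le_mul_of_nonneg_right ?_ hg0
            exact mul_le_mul h6 (hPN w) (hPp w) (by positivity)
        _ = _ := by ring
  -- the whole integral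
  have hwhole : d / 2 ≤ ∫ w, ((f w).re - κ) * P w * gs (K * T) (w0 - w) := by
    have j1 := J_TP h.meas hC hq w0 S p
    have j2 := J_TP (f := fun _ => (1:ℂ)) aestronglyMeasurable_const one_EG hq w0 S p
    have k1 : Integrable (fun w => f w * TP S p w * (gs (K * T) (w0 - w) : ℝ)) := by
      refine (hfg.bdd_mul (c := N) (TP_cont S p).aestronglyMeasurable
        (ae_of_all _ fun w => TP_norm S p w)).congr (ae_of_all _ fun w => ?_)
      simp only
      ring
    have k2 : Integrable (fun w => (1:ℂ) * TP S p w * (gs (K * T) (w0 - w) : ℝ)) := by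
      have := f_gs_int (f := fun _ => (1:ℂ)) aestronglyMeasurable_const one_EG hq w0
      refine (this.bdd_mul (c := N) (TP_cont S p).aestronglyMeasurable
        (ae_of_all _ fun w => TP_norm S p w)).congr (ae_of_all _ fun w => ?_)
      simp only
      ring
    have e1 : ∫ w, ((f w).re - κ) * P w * gs (K * T) (w0 - w) =
        (∫ w, f w * TP S p w * (gs (K * T) (w0 - w) : ℝ)).re -
          κ * (∫ w, (1:ℂ) * TP S p w * (gs (K * T) (w0 - w) : ℝ)).re := by
      have r1 := integral_re k1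
      have r2 := integral_re k2
      have r1' : (∫ w, f w * TP S p w * (gs (K * T) (w0 - w) : ℝ)).re =
          ∫ w, (f w * TP S p w * (gs (K * T) (w0 - w) : ℝ)).re := by simpa using r1.symm
      have r2' : (∫ w, (1:ℂ) * TP S p w * (gs (K * T) (w0 - w) : ℝ)).re =
          ∫ w, ((1:ℂ) * TP S p w * (gs (K * T) (w0 - w) : ℝ)).re := by simpa using r2.symm
      rw [r1', r2', ← integral_const_mul, ← integral_sub]
      · refine integral_congr_ae (ae_of_all _ fun w => ?_)
        simp only [hPe, one_mul]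
        rw [Complex.re_mul_ofReal, Complex.re_mul_ofReal, Complex.re_mul_ofReal, Complex.ofReal_re]
        ring
      · exact k1.re
      · exact (k2.re).const_mul κ
    rw [e1, j1, j2]
    have a1 : A - d / 8 ≤ (∑ l ∈ S, p l * J (md (-l) f) (K * T) w0).re := by
      have b1 : ‖∑ l ∈ S, p l * J (md (-l) f) (K * T) w0 - ∑ l ∈ S, p l * c (-l)‖ ≤ N * (d / (8 * (N + 1))) := by
        rw [← Finset.sum_sub_distrib, hN, Finset.sum_mul]
        refine (norm_sum_le _ _).trans (Finset.sum_le_sum fun l hl => ?_)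
        rw [← mul_sub, norm_mul]
        exact mul_le_mul_of_nonneg_left (h1 l hl w0 hw1 hw2) (norm_nonneg _)
      have b2 := (Complex.abs_re_le_norm _).trans b1
      rw [Complex.sub_re] at b2
      have b3 := (abs_le.1 b2).1
      have b4 : N * (d / (8 * (N + 1))) ≤ d / 8 := by
        rw [mul_div_assoc', div_le_div_iff₀ (by positivity) (by norm_num)]
        nlinarith
      linarith
    have a2 : |(∑ l ∈ S, p l * J (md (-l) (fun _ => (1:ℂ))) (K * T) w0).re - 1| ≤ d / (8 * (|κ| + 1)) := by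
      have b0 : ∀ l, J (md (-l) (fun _ => (1:ℂ))) (K * T) w0 = cexp (l * I * w0 - (K * T : ℝ) * l ^ 2 / 2) := by
        intro l
        have := gs_fourier hq l w0
        rw [← this]
        unfold J md
        refine integral_congr_ae (ae_of_all _ fun w => ?_)
        simp only
        rw [one_mul]
        congr 2
        push_cast
        ring
      have b1 : ‖∑ l ∈ S, p l * J (md (-l) (fun _ => (1:ℂ))) (K * T) w0 - 1‖ ≤ N * (d / (8 * (N + 1) * (|κ| + 1))) := by
        have b2 : ∑ l ∈ S, p l * J (md (-l) (fun _ => (1:ℂ))) (K * T) w0 - 1 =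
            ∑ l ∈ S, (p l * J (md (-l) (fun _ => (1:ℂ))) (K * T) w0 - (if l = 0 then p l else 0)) := by
          rw [Finset.sum_sub_distrib, Finset.sum_ite_eq' S 0, if_pos h0, hp0]
        rw [b2, hN, Finset.sum_mul]
        refine (norm_sum_le _ _).trans (Finset.sum_le_sum fun l hl => ?_)
        by_cases hl0 : l = 0
        · subst hl0
          rw [if_pos rfl, b0]
          simp
          positivity
        · rw [if_neg hl0, sub_zero, norm_mul, b0]
          refine mul_le_mul_of_nonneg_left ?_ (norm_nonneg _)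
          rw [Complex.norm_exp]
          have : ((l : ℂ) * I * w0 - (K * T : ℝ) * l ^ 2 / 2).re = -((K * l ^ 2 / 2) * T) := by
            have e2 : ((l : ℂ) * I * w0 - (K * T : ℝ) * l ^ 2 / 2) =
                ((-((K * l ^ 2 / 2) * T) : ℝ) : ℂ) + ((l * w0 : ℝ) : ℂ) * I := by
              push_cast
              ring
            rw [e2, Complex.add_re, Complex.ofReal_re, Complex.re_ofReal_mul, Complex.I_re, mul_zero,
              add_zero]
          rw [this]
          exact h2 l hl hl0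
      have b2 := (Complex.abs_re_le_norm _).trans b1
      rw [Complex.sub_re, Complex.one_re] at b2
      refine b2.trans ?_
      rw [mul_div_assoc', div_le_div_iff₀ (by positivity) (by positivity)]
      have : 0 ≤ d * (|κ| + 1) := by positivity
      nlinarith
    have a3 : κ * (∑ l ∈ S, p l * J (md (-l) (fun _ => (1:ℂ))) (K * T) w0).re ≤ κ + d / 8 := by
      set X := (∑ l ∈ S, p l * J (md (-l) (fun _ => (1:ℂ))) (K * T) w0).re with hX
      have b1 : κ * X = κ + κ * (X - 1) := by ring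
      have b2 : κ * (X - 1) ≤ |κ| * |X - 1| := (le_abs_self _).trans (le_of_eq (abs_mul _ _))
      have b3 : |κ| * |X - 1| ≤ |κ| * (d / (8 * (|κ| + 1))) := mul_le_mul_of_nonneg_left a2 (abs_nonneg _)
      have b4 : |κ| * (d / (8 * (|κ| + 1))) ≤ d / 8 := by
        rw [mul_div_assoc', div_le_div_iff₀ (by positivity) (by norm_num)]
        nlinarith [abs_nonneg κ]
      linarith
    linarith
  -- split
  rw [← integral_add_compl (measurableSet_Ioc (a := T) (b := (1 + e) * T)) hint] at hwhole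
  have hin : ∫ w in Ioc T ((1 + e) * T), ((f w).re - κ) * P w * gs (K * T) (w0 - w) ≤ 0 := by
    refine setIntegral_nonpos measurableSet_Ioc fun w hw => ?_
    have b1 := hcon w hw.1 hw.2
    exact mul_nonpos_of_nonpos_of_nonneg (mul_nonpos_of_nonpos_of_nonneg (by linarith) (hPp w))
      (gs_nonneg _ _)
  have hout : ∫ w in (Ioc T ((1 + e) * T))ᶜ, ((f w).re - κ) * P w * gs (K * T) (w0 - w) ≤
      (N * (C ^ 2 + 1) * (2 * Real.pi) + |κ| * (N * (1 ^ 2 + 1) * (2 * Real.pi))) * Real.exp (-T) := by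
    have t1 := tail_first h.meas hB hC hη0 (by linarith : 0 ≤ Λ) hK0 hKe hT0 hKT hw2 ha hb
    have hKe1 : 2 * 0 + 1 + (2 * 0 * Λ + 1) / η ≤ η / (2 * K) := by
      refine le_trans ?_ hKe
      have h1 : (2 * 0 * Λ + 1) / η ≤ (2 * B * Λ + 1) / η := by
        refine div_le_div_of_nonneg_right ?_ hη0.le
        have : 0 ≤ 2 * B * Λ := by positivity
        linarith
      linarith
    have t2 := tail_first (f := fun _ => (1:ℂ)) aestronglyMeasurable_const le_rfl one_EG hη0
      (by linarith : 0 ≤ Λ) hK0 hKe1 hT0 hKT hw2 ha hb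
    have i1 : Integrable (fun w => ‖f w‖ * gs (K * T) (w0 - w)) := by
      refine hfg.norm.congr (ae_of_all _ fun w => ?_)
      simp only
      rw [norm_mul, Complex.norm_real, Real.norm_eq_abs, abs_of_nonneg (gs_nonneg _ _)]
    have i2 : Integrable (fun w => ‖(1:ℂ)‖ * gs (K * T) (w0 - w)) := (gs_shift_int hq w0).const_mul _
    have h6 : ∫ w in (Ioc T ((1 + e) * T))ᶜ, ((f w).re - κ) * P w * gs (K * T) (w0 - w) ≤
        ∫ w in (Ioc T ((1 + e) * T))ᶜ, (N * (‖f w‖ * gs (K * T) (w0 - w)) +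
          |κ| * N * (‖(1:ℂ)‖ * gs (K * T) (w0 - w))) := by
      refine integral_mono hint.integrableOn ((i1.const_mul N).add (i2.const_mul (|κ| * N))).integrableOn
        fun w => ?_
      simp only [norm_one, one_mul]
      have hg0 := gs_nonneg (K * T) (w0 - w)
      have h7 : (f w).re - κ ≤ ‖f w‖ + |κ| := by
        have := Complex.re_le_norm (f w)
        have := neg_abs_le κ
        linarith
      have h8 : ((f w).re - κ) * P w ≤ (‖f w‖ + |κ|) * N := by
        calc ((f w).re - κ) * P w ≤ (‖f w‖ + |κ|) * P w := mul_le_mul_of_nonneg_right h7 (hPp w)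
          _ ≤ _ := mul_le_mul_of_nonneg_left (hPN w) (by positivity)
      calc ((f w).re - κ) * P w * gs (K * T) (w0 - w) ≤ (‖f w‖ + |κ|) * N * gs (K * T) (w0 - w) :=
            mul_le_mul_of_nonneg_right h8 hg0
        _ = _ := by ring
    refine h6.trans ?_
    rw [integral_add (i1.const_mul N).integrableOn (i2.const_mul (|κ| * N)).integrableOn,
      integral_const_mul, integral_const_mul]
    have h9 := mul_le_mul_of_nonneg_left t1 hN0
    have h10 := mul_le_mul_of_nonneg_left t2 (by positivity : 0 ≤ |κ| * N)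
    refine (add_le_add h9 h10).trans (le_of_eq ?_)
    ring
  have h3' : (N * (C ^ 2 + 1) * (2 * Real.pi) + |κ| * (N * (1 ^ 2 + 1) * (2 * Real.pi))) * Real.exp (-T) < d / 4 := h3
  linarith

end

end Pool.Agent.W190.W
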