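import Pool.Agent.W190.W.W12
import Pool.Agent.W190.W.W13

/-! # The Liouville function -/

set_option autoImplicit false

open Complex Filter Topology Set Metric MeasureTheory
open Pool.Agent.W190
open H353 (FF)

namespace Pool.Agent.W190.W

noncomputable section

/-- the Liouville function -/
def lama (n : ℕ) : ℂ := ((ArithmeticFunction.liouville n : ℤ) : ℂ)

theorem lama_zero : lama 0 = 0 := by simp [lama]

theorem lama_ne {n : ℕ} (hn : n ≠ 0) : lama n = (-1) ^ ArithmeticFunction.cardFactors n := by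
  unfold lama
  rw [ArithmeticFunction.liouville_apply hn]
  push_cast
  rfl

theorem lama_norm (n : ℕ) : ‖lama n‖ ≤ 1 := by
  by_cases hn : n = 0
  · subst hn; rw [lama_zero]; simp
  · rw [lama_ne hn]; simp

theorem lama_mul (m n : ℕ) : lama (m * n) = lama m * lama n := by
  unfold lama
  rw [ArithmeticFunction.liouville_apply_mul]
  push_cast
  rfl

theorem lama_one : lama 1 = 1 := by
  unfold lama
  rw [ArithmeticFunction.liouville_apply_one]
  simp

/-- `λ(n) n^{-s}` as a homomorphism -/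
def lamHom {s : ℂ} (hs : s ≠ 0) : ℕ →*₀ ℂ where
  toFun n := lama n * riemannZetaSummandHom hs n
  map_zero' := by simp [lama_zero]
  map_one' := by rw [lama_one, map_one, one_mul]
  map_mul' m n := by rw [lama_mul, map_mul]; ring

theorem lama_prod {s : ℂ} (hs : 1 < s.re) : LSeries lama s * riemannZeta s = riemannZeta (2 * s) := by
  have hs0 : s ≠ 0 := by rintro rfl; simp at hs; linarith
  have hsum : Summable (fun n => ‖lamHom hs0 n‖) := by
    refine Summable.of_nonneg_of_le (fun n => norm_nonneg _) (fun n => ?_)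
      (summable_riemannZetaSummand hs)
    have e : lamHom hs0 n = lama n * riemannZetaSummandHom hs0 n := rfl
    rw [e, norm_mul]
    calc _ ≤ 1 * ‖riemannZetaSummandHom hs0 n‖ := mul_le_mul_of_nonneg_right (lama_norm n) (norm_nonneg _)
      _ = _ := one_mul _
  have h1 := EulerProduct.eulerProduct_completely_multiplicative_hasProd hsum
  have h2 := riemannZeta_eulerProduct_hasProd hs
  have hs2 : 1 < (2 * s).re := by simp; linarith
  have h3 := riemannZeta_eulerProduct_hasProd hs2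
  have h4 := h1.mul h2
  have e1 : (fun p : Nat.Primes => (1 - lamHom hs0 p)⁻¹ * (1 - (p : ℂ) ^ (-s))⁻¹) =
      fun p : Nat.Primes => (1 - (p : ℂ) ^ (-(2 * s)))⁻¹ := by
    funext p
    have hp : (p : ℂ) ≠ 0 := by exact_mod_cast p.2.ne_zero
    have e2 : lamHom hs0 p = -(p : ℂ) ^ (-s) := by
      have e : lamHom hs0 p = lama p * (p : ℂ) ^ (-s) := rfl
      rw [e, lama_ne p.2.ne_zero, ArithmeticFunction.cardFactors_apply_prime p.2]
      ring
    have e3 : (p : ℂ) ^ (-(2 * s)) = ((p : ℂ) ^ (-s)) ^ 2 := by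
      rw [← Complex.cpow_nat_mul]
      congr 1
      push_cast
      ring
    rw [e2, e3, ← mul_inv]
    congr 1
    ring
  rw [e1] at h4
  have h5 := h4.unique h3
  rw [← h5]
  congr 1
  unfold LSeries
  refine tsum_congr fun n => ?_
  by_cases hn : n = 0
  · subst hn
    rw [LSeries.term_zero, map_zero]
  · rw [LSeries.term_of_ne_zero hn]
    have e : lamHom hs0 n = lama n * (n : ℂ) ^ (-s) := rfl
    rw [e, Complex.cpow_neg]
    rfl

/-- `ζ(2s)/ζ(s)` -/
def Alam (s : ℂ) : ℂ := (s - 1) * (FF s)⁻¹ * (FF (2 * s) * (2 * s - 1)⁻¹)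

theorem Alam_eq {s : ℂ} (hs : s ≠ 1) (hs2 : 2 * s ≠ 1) : Alam s = riemannZeta (2 * s) * (riemannZeta s)⁻¹ := by
  unfold Alam
  have h1 := Amu_eq hs
  unfold Amu at h1
  rw [h1, FF_eq_ne hs2]
  have : 2 * s - 1 ≠ 0 := sub_ne_zero.2 hs2
  field_simp

theorem Alam_L (s : ℂ) (hs : s.re = 2) : Alam s = LSeries lama s := by
  have hs1 : s ≠ 1 := by
    rintro rfl
    norm_num at hs
  have hs3 : 2 * s ≠ 1 := by
    intro h
    have := congrArg Complex.re h
    simp [hs] at this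
    norm_num at this
  have hs2 : 1 < s.re := by rw [hs]; norm_num
  rw [Alam_eq hs1 hs3, ← lama_prod hs2]
  have : riemannZeta s ≠ 0 := riemannZeta_ne_zero_of_one_le_re hs2.le
  field_simp

theorem Alam_diff (hRH : ∀ s : ℂ, 1 / 2 < s.re → riemannZeta s ≠ 0) :
    DifferentiableOn ℂ Alam {s | 1 / 2 < s.re} := by
  unfold Alam
  refine (Amu_diff hRH).mul (DifferentiableOn.mul ?_ ?_)
  · exact (FF_diff.comp (by fun_prop : Differentiable ℂ fun s : ℂ => 2 * s)).differentiableOn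
  · refine DifferentiableOn.inv (by fun_prop) fun s hs => ?_
    intro h
    have h1 : (1:ℝ) / 2 < s.re := hs
    have := congrArg Complex.re h
    simp at this
    linarith

theorem FF_half : FF (1 / 2) ≠ 0 := by
  intro h
  have h1 := H353.FF_eq (1 / 2) (by norm_num) (by norm_num)
  rw [h] at h1
  have h2 : ∫ u in Ioi (1 : ℝ), ((Int.fract u : ℝ) : ℂ) * (u : ℂ) ^ (-(1 / 2 : ℂ) - 1) =
      ((∫ u in Ioi (1 : ℝ), Int.fract u * u ^ (-(1 / 2 : ℝ) - 1) : ℝ) : ℂ) := by
    rw [← integral_complex_ofReal]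
    refine setIntegral_congr_fun measurableSet_Ioi fun u hu => ?_
    have hu0 : (0:ℝ) < u := lt_trans one_pos hu
    rw [Complex.ofReal_mul, Complex.ofReal_cpow hu0.le]
    push_cast
    rfl
  have h3 : 0 ≤ ∫ u in Ioi (1 : ℝ), Int.fract u * u ^ (-(1 / 2 : ℝ) - 1) :=
    setIntegral_nonneg measurableSet_Ioi fun u hu => by
      have hu0 : (0:ℝ) < u := lt_trans one_pos hu
      have := Int.fract_nonneg u
      positivity
  rw [h2] at h1
  have h4 := congrArg Complex.re h1
  have h5 : ((1 / 2 : ℂ) - ((1 / 2 : ℂ) - 1) * (1 / 2) *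
      ((∫ u in Ioi (1 : ℝ), Int.fract u * u ^ (-(1 / 2 : ℝ) - 1) : ℝ) : ℂ)) =
      ((1 / 2 + 1 / 4 * (∫ u in Ioi (1 : ℝ), Int.fract u * u ^ (-(1 / 2 : ℝ) - 1)) : ℝ) : ℂ) := by
    push_cast
    ring
  rw [h5, Complex.ofReal_re, Complex.zero_re] at h4
  linarith

theorem zeta_half : riemannZeta (1 / 2) ≠ 0 := by
  intro h
  apply FF_half
  rw [FF_eq_ne (by norm_num), h, mul_zero]

theorem lam_window {x e : ℝ} (hx : 1 ≤ x) (he : 0 ≤ e) :
    ∫ u in x..(x ^ (1 + e)), ((∑ n ∈ Finset.Icc 1 ⌊u⌋₊, (ArithmeticFunction.liouville n : ℝ)) / u) ^ 2 =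
      ∫ w in Ioc (Real.log x) ((1 + e) * Real.log x), ‖TT lama w‖ ^ 2 * Real.exp (-(2 * (1 / 2) * w)) := by
  rw [← window_change lama (1 / 2) hx he]
  have hle : x ≤ x ^ (1 + e) := by
    calc x = x ^ (1:ℝ) := (Real.rpow_one x).symm
      _ ≤ _ := Real.rpow_le_rpow_of_exponent_le hx (by linarith)
  refine intervalIntegral.integral_congr fun u hu => ?_
  rw [uIcc_of_le hle] at hu
  have hu0 : 0 < u := by linarith [hu.1]
  have e1 : ‖∑ n ∈ Finset.Icc 1 ⌊u⌋₊, lama n‖ ^ 2 =
      (∑ n ∈ Finset.Icc 1 ⌊u⌋₊, (ArithmeticFunction.liouville n : ℝ)) ^ 2 := by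
    have : ∑ n ∈ Finset.Icc 1 ⌊u⌋₊, lama n =
        ((∑ n ∈ Finset.Icc 1 ⌊u⌋₊, (ArithmeticFunction.liouville n : ℝ) : ℝ) : ℂ) := by
      unfold lama
      push_cast
      rfl
    rw [this, Complex.norm_real, Real.norm_eq_abs, sq_abs]
  rw [e1, div_pow, div_eq_mul_inv]
  congr 1
  rw [show (-(2 * (1 / 2)) - 1 : ℝ) = -(2:ℝ) by norm_num, Real.rpow_neg hu0.le]
  norm_num

end

end Pool.Agent.W190.W
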