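import Pool.Agent.W190.W.W14

/-! # Pole data for `1/ζ(s)` and `ζ(2s)/ζ(s)` on the critical line -/

set_option autoImplicit false

open Complex Filter Topology Set Metric MeasureTheory
open Pool.Agent.W190
open H353 (FF)

namespace Pool.Agent.W190.W

noncomputable section

/-- pole data of `A` at `ρ` with residue `c` -/
def PD (A : ℂ → ℂ) (ρ c : ℂ) : Prop :=
  ∃ r : ℝ, 0 < r ∧ ∃ Bg : ℂ → ℂ, DifferentiableOn ℂ Bg (ball ρ r) ∧
    (∀ s ∈ ball ρ r, s ≠ ρ → A s = (s - ρ)⁻¹ * Bg s) ∧ Bg ρ = c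

theorem data_zero {N A : ℂ → ℂ} {ρ : ℂ} {r0 : ℝ} (hr0 : 0 < r0) (hN : DifferentiableOn ℂ N (ball ρ r0))
    (hA : ∀ s ∈ ball ρ r0, A s = N s * (FF s)⁻¹) (h0 : FF ρ = 0) (hd : deriv FF ρ ≠ 0) :
    PD A ρ (N ρ * (deriv FF ρ)⁻¹) := by
  obtain ⟨n, r, hr, h, hh1, hh2, hh3, hh4, hh5⟩ := local_factor (H353.FF_anal ρ) h0 (FF_order ρ)
  have hn := hh4 hd
  have h6 := hh5 hn
  subst hn
  refine ⟨min r r0, lt_min hr hr0, fun s => N s * (h s)⁻¹, ?_, ?_, by simp only; rw [h6]⟩
  · exact (hN.mono (ball_subset_ball (min_le_right _ _))).mul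
      ((hh1.inv hh2).mono (ball_subset_ball (min_le_left _ _)))
  · intro s hs _
    rw [hA s (ball_subset_ball (min_le_right _ _) hs), hh3 s (ball_subset_ball (min_le_left _ _) hs),
      mul_inv, zero_add, pow_one]
    ring

theorem data_reg {A : ℂ → ℂ} {ρ : ℂ} {r : ℝ} (hr : 0 < r) (hA : DifferentiableOn ℂ A (ball ρ r)) :
    PD A ρ 0 := by
  refine ⟨r, hr, fun s => (s - ρ) * A s, DifferentiableOn.mul (by fun_prop) hA, ?_, by simp⟩
  intro s _ hs
  have : s - ρ ≠ 0 := sub_ne_zero.2 hs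
  field_simp

theorem FF_ball {ρ : ℂ} (h : FF ρ ≠ 0) : ∃ r : ℝ, 0 < r ∧ ∀ s ∈ ball ρ r, FF s ≠ 0 := by
  have := (FF_diff.continuous.continuousAt (x := ρ)).eventually_ne h
  exact Metric.eventually_nhds_iff_ball.1 this

/-- the point `1/2 + i g` -/
def hp (g : ℝ) : ℂ := 1 / 2 + g * I

theorem hp_re (g : ℝ) : (hp g).re = 1 / 2 := by simp [hp]

theorem hp_ne_one (g : ℝ) : hp g ≠ 1 := by
  intro h
  have := congrArg Complex.re h
  rw [hp_re] at this
  norm_num at this

theorem hp_ne_zero (g : ℝ) : hp g ≠ 0 := by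
  intro h
  have := congrArg Complex.re h
  rw [hp_re] at this
  norm_num at this

open scoped Classical in
/-- coefficient of `e^{i g w}` for `M(e^w) e^{-w/2}` -/
def cM (g : ℝ) : ℂ := if riemannZeta (hp g) = 0 then 1 / (hp g * deriv riemannZeta (hp g)) else 0

open scoped Classical in
/-- coefficient of `e^{i g w}` for `L(e^w) e^{-w/2}` -/
def cL (g : ℝ) : ℂ := if riemannZeta (hp g) = 0 then
  riemannZeta (2 * hp g) / (hp g * deriv riemannZeta (hp g)) else
    if g = 0 then 1 / riemannZeta (1 / 2) else 0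

theorem PD_mu (hs : ∀ ρ : ℂ, riemannZeta ρ = 0 → ρ.re = 1 / 2 → deriv riemannZeta ρ ≠ 0) (g : ℝ) :
    PD Amu (hp g) (hp g * cM g) := by
  unfold cM
  by_cases h : riemannZeta (hp g) = 0
  · rw [if_pos h]
    have h0 : FF (hp g) = 0 := (zero_FF h).1
    have hd := hs _ h (hp_re g)
    have h1 : hp g - 1 ≠ 0 := sub_ne_zero.2 (hp_ne_one g)
    have h2 : hp g ≠ 0 := hp_ne_zero g
    have := data_zero (N := fun s => s - 1) (A := Amu) (ρ := hp g) one_pos (by fun_prop)
      (fun s _ => rfl) h0 (by rw [FF_deriv h]; exact mul_ne_zero h1 hd)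
    convert this using 1
    rw [FF_deriv h]
    field_simp
  · rw [if_neg h, mul_zero]
    obtain ⟨r, hr, hb⟩ := FF_ball (FF_ne_zero (s := hp g) (Or.inr h))
    refine data_reg hr ?_
    unfold Amu
    exact DifferentiableOn.mul (by fun_prop) (FF_diff.differentiableOn.inv hb)

theorem PD_lam (hs : ∀ ρ : ℂ, riemannZeta ρ = 0 → ρ.re = 1 / 2 → deriv riemannZeta ρ ≠ 0) (g : ℝ) :
    PD Alam (hp g) (hp g * cL g) := by
  have h2FF : Differentiable ℂ fun s : ℂ => FF (2 * s) :=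
    FF_diff.comp (by fun_prop : Differentiable ℂ fun s : ℂ => 2 * s)
  unfold cL
  by_cases hg : g = 0
  · subst hg
    have e0 : hp 0 = 1 / 2 := by simp [hp]
    rw [e0, if_neg zeta_half, if_pos rfl]
    obtain ⟨r, hr, hb⟩ := FF_ball FF_half
    refine ⟨r, hr, fun s => (s - 1) * (FF s)⁻¹ * (FF (2 * s) / 2), ?_, ?_, ?_⟩
    · exact (DifferentiableOn.mul (by fun_prop) (FF_diff.differentiableOn.inv hb)).mul
        (h2FF.differentiableOn.div_const 2)
    · intro s _ hs
      unfold Alam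
      have h1 : s - 1 / 2 ≠ 0 := sub_ne_zero.2 hs
      have h2 : 2 * s - 1 = 2 * (s - 1 / 2) := by ring
      rw [h2]
      field_simp
    · simp only
      have h1 : (2:ℂ) * (1 / 2) = 1 := by norm_num
      have h2 : FF 1 = 1 := ZU.J_g2b.FF_one
      rw [h1, h2, FF_eq_ne (by norm_num : (1 / 2 : ℂ) ≠ 1)]
      have := zeta_half
      field_simp
  · have hne : 2 * hp g - 1 ≠ 0 := by
      intro h
      have := congrArg Complex.im h
      simp [hp] at this
      exact hg this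
    -- a ball where `2s ≠ 1`
    obtain ⟨r1, hr1, hb1⟩ : ∃ r : ℝ, 0 < r ∧ ∀ s ∈ ball (hp g) r, 2 * s - 1 ≠ 0 := by
      have hc : Continuous fun s : ℂ => 2 * s - 1 := by fun_prop
      exact Metric.eventually_nhds_iff_ball.1 ((hc.continuousAt (x := hp g)).eventually_ne hne)
    have hN : DifferentiableOn ℂ (fun s : ℂ => (s - 1) * (FF (2 * s) * (2 * s - 1)⁻¹)) (ball (hp g) r1) := by
      refine DifferentiableOn.mul (by fun_prop) (h2FF.differentiableOn.mul ?_)
      exact DifferentiableOn.inv (by fun_prop) hb1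
    by_cases h : riemannZeta (hp g) = 0
    · rw [if_pos h]
      have h0 : FF (hp g) = 0 := (zero_FF h).1
      have hd := hs _ h (hp_re g)
      have h1 : hp g - 1 ≠ 0 := sub_ne_zero.2 (hp_ne_one g)
      have h2 : hp g ≠ 0 := hp_ne_zero g
      have := data_zero (A := Alam) hr1 hN (fun s _ => by unfold Alam; ring) h0
        (by rw [FF_deriv h]; exact mul_ne_zero h1 hd)
      convert this using 1
      rw [FF_deriv h, FF_eq_ne (sub_ne_zero.1 hne)]
      have hne' : hp g * 2 - 1 ≠ 0 := by rwa [mul_comm]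
      field_simp
    · rw [if_neg h, if_neg hg, mul_zero]
      obtain ⟨r, hr, hb⟩ := FF_ball (FF_ne_zero (s := hp g) (Or.inr h))
      refine data_reg (lt_min hr hr1) ?_
      have e : Alam = fun s => ((s - 1) * (FF (2 * s) * (2 * s - 1)⁻¹)) * (FF s)⁻¹ := by
        funext s; unfold Alam; ring
      rw [e]
      exact (hN.mono (ball_subset_ball (min_le_right _ _))).mul
        ((FF_diff.differentiableOn.inv hb).mono (ball_subset_ball (min_le_left _ _)))

/-- transfer to `V z = A (1/2 + z) / (1/2 + z)` -/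
theorem PD_V {A : ℂ → ℂ} {g : ℝ} {c : ℂ} (h : PD A (hp g) (hp g * c)) :
    ∃ r : ℝ, 0 < r ∧ ∃ Bg : ℂ → ℂ, DifferentiableOn ℂ Bg (ball (g * I) r) ∧
      (∀ z ∈ ball ((g : ℂ) * I) r, 0 < z.re → A (((1 / 2 : ℝ) : ℂ) + z) / (((1 / 2 : ℝ) : ℂ) + z) =
        (z - g * I)⁻¹ * Bg z) ∧ Bg (g * I) = c := by
  obtain ⟨r, hr, Bg, hB1, hB2, hB3⟩ := h
  have hhp : ∀ z : ℂ, ((1 / 2 : ℝ) : ℂ) + z - hp g = z - g * I := by
    intro z; unfold hp; push_cast; ring
  have hne : ∀ z : ℂ, -(1 / 2) < z.re → ((1 / 2 : ℝ) : ℂ) + z ≠ 0 := by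
    intro z hz h
    have := congrArg Complex.re h
    simp at this
    linarith
  have hball : ∀ z ∈ ball ((g : ℂ) * I) (min r (1 / 2)), ((1 / 2 : ℝ) : ℂ) + z ∈ ball (hp g) r := by
    intro z hz
    rw [mem_ball_iff_norm] at hz ⊢
    rw [hhp]
    exact hz.trans_le (min_le_left _ _)
  have hre : ∀ z ∈ ball ((g : ℂ) * I) (min r (1 / 2)), -(1 / 2) < z.re := by
    intro z hz
    rw [mem_ball_iff_norm] at hz
    have h1 := Complex.abs_re_le_norm (z - g * I)
    have h2 : (z - g * I).re = z.re := by simp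
    rw [h2] at h1
    have h3 := (abs_le.1 h1).1
    have h4 := hz.trans_le (min_le_right r (1 / 2))
    linarith
  refine ⟨min r (1 / 2), lt_min hr (by norm_num), fun z => Bg (((1 / 2 : ℝ) : ℂ) + z) / (((1 / 2 : ℝ) : ℂ) + z),
    ?_, ?_, ?_⟩
  · refine DifferentiableOn.div (hB1.comp (by fun_prop) hball) (by fun_prop) fun z hz => hne z (hre z hz)
  · intro z hz hz0
    have h1 : ((1 / 2 : ℝ) : ℂ) + z ≠ hp g := by
      intro h
      have := congrArg Complex.re h
      rw [hp_re] at this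
      simp at this
      linarith
    rw [hB2 _ (hball z hz) h1, hhp, mul_div_assoc]
  · have e : ((1 / 2 : ℝ) : ℂ) + g * I = hp g := by unfold hp; push_cast; ring
    simp only
    rw [e, hB3, mul_div_assoc, mul_comm, div_mul_cancel₀ _ (hp_ne_zero g)]

end

end Pool.Agent.W190.W
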