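import Pool.Agent.W190.W.W15

/-! # The Liouville function: degenerate cases and the Bessel inequality -/

set_option autoImplicit false

open Complex Filter Topology Set Metric MeasureTheory
open Pool.Agent.W190
open H353 (FF)

namespace Pool.Agent.W190.W

noncomputable section

theorem lama_sum : Summable fun n : ℕ => ‖lama n‖ / (n : ℝ) ^ 2 := by
  refine Summable.of_nonneg_of_le (fun n => by positivity) (fun n => ?_)
    (Real.summable_one_div_nat_pow.2 (by norm_num : 1 < 2))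
  have := lama_norm n
  gcongr

theorem Alam_mero (z : ℂ) : MeromorphicAt Alam z := by
  unfold Alam
  have h1 : AnalyticAt ℂ FF z := H353.FF_anal z
  have h2 : AnalyticAt ℂ (fun s : ℂ => FF (2 * s)) z :=
    (FF_diff.comp (by fun_prop : Differentiable ℂ fun s : ℂ => 2 * s)).analyticAt z
  have h3 : AnalyticAt ℂ (fun s : ℂ => s - 1) z := by fun_prop
  have h4 : AnalyticAt ℂ (fun s : ℂ => 2 * s - 1) z := by fun_prop
  exact (h3.meromorphicAt.mul h1.meromorphicAt.inv).mul (h2.meromorphicAt.mul h4.meromorphicAt.inv)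

theorem lam_off (h : ∃ ρ : ℂ, riemannZeta ρ = 0 ∧ 1 / 2 < ρ.re) {e M : ℝ} (he : 0 < e) :
    ∀ᶠ T : ℝ in atTop, e * M * T ≤
      ∫ w in Ioc T ((1 + e) * T), ‖TT lama w‖ ^ 2 * Real.exp (-(2 * (1 / 2) * w)) := by
  obtain ⟨ρ, h0, h1⟩ := h
  obtain ⟨hF0, h2⟩ := zero_FF h0
  have hρ1 : ρ - 1 ≠ 0 := sub_ne_zero.2 (by rintro rfl; simp at h2)
  have h2ρ : 2 * ρ ≠ 1 := by
    intro h
    have := congrArg Complex.re h
    simp at this
    linarith
  have h2ρ' : 2 * ρ - 1 ≠ 0 := sub_ne_zero.2 h2ρ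
  have hz2 : riemannZeta (2 * ρ) ≠ 0 := riemannZeta_ne_zero_of_one_le_re (by simp; linarith)
  set N : ℂ → ℂ := fun s => (s - 1) * (FF (2 * s) * (2 * s - 1)⁻¹) with hN
  have hNan : AnalyticAt ℂ N ρ := by
    have a1 : AnalyticAt ℂ (fun s : ℂ => FF (2 * s)) ρ :=
      (FF_diff.comp (by fun_prop : Differentiable ℂ fun s : ℂ => 2 * s)).analyticAt ρ
    have a2 : AnalyticAt ℂ (fun s : ℂ => s - 1) ρ := by fun_prop
    have a3 : AnalyticAt ℂ (fun s : ℂ => 2 * s - 1) ρ := by fun_prop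
    exact a2.mul (a1.mul (a3.inv h2ρ'))
  have hN0 : N ρ ≠ 0 := by
    simp only [hN]
    rw [FF_eq_ne h2ρ]
    exact mul_ne_zero hρ1 (mul_ne_zero (mul_ne_zero h2ρ' hz2) (inv_ne_zero h2ρ'))
  have hord : meromorphicOrderAt Alam ρ < 0 := by
    have e1 : Alam = N * FF⁻¹ := by
      funext s
      simp only [Pi.mul_apply, Pi.inv_apply, hN]
      unfold Alam
      ring
    rw [e1, meromorphicOrderAt_mul hNan.meromorphicAt (H353.FF_anal ρ).meromorphicAt.inv,
      meromorphicOrderAt_inv]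
    have e2 : meromorphicOrderAt N ρ = 0 := by
      rw [hNan.meromorphicOrderAt_eq, hNan.analyticOrderAt_eq_zero.2 hN0]
      rfl
    rw [e2, zero_add]
    obtain ⟨n, hn⟩ := ENat.ne_top_iff_exists.1 (FF_order ρ)
    have hn0 : n ≠ 0 := by
      rintro rfl
      have : analyticOrderAt FF ρ = 0 := by rw [← hn]; rfl
      rw [(H353.FF_anal ρ).analyticOrderAt_eq_zero] at this
      exact this hF0
    rw [(H353.FF_anal ρ).meromorphicOrderAt_eq, ← hn]
    have : -(ENat.map (fun m : ℕ => (m : ℤ)) (n : ℕ∞) : WithTop ℤ) = ((-(n : ℤ) : ℤ) : WithTop ℤ) := rfl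
    rw [this]
    exact_mod_cast (by omega : -(n : ℤ) < 0)
  refine off_line lama_norm (by norm_num) (by norm_num) h1 (fun δ ε hδ hε => ?_) he
  have h3 := Pool.Agent.W190.M.meso (a := lama) lama_zero lama_sum Alam (θ := ρ.re / 2) (by linarith) ρ
    (by linarith) h2.le (by
      intro k hk
      have h2 : ρ.re = k := by rw [← hk]; simp
      rcases Nat.eq_zero_or_pos k with h3 | h3
      · subst h3
        simp at h2
        linarith
      · have : (1:ℝ) ≤ k := by exact_mod_cast h3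
        linarith) (fun z _ => Alam_mero z) (by
      intro z hz
      refine ⟨?_, (Alam_L z hz).symm⟩
      have hz1 : FF z ≠ 0 := FF_ne_zero (Or.inr (riemannZeta_ne_zero_of_one_le_re (by rw [hz]; norm_num)))
      have hz2 : 2 * z - 1 ≠ 0 := by
        intro h
        have := congrArg Complex.re h
        simp [hz] at this
        norm_num at this
      have a1 : AnalyticAt ℂ (fun s : ℂ => FF (2 * s)) z :=
        (FF_diff.comp (by fun_prop : Differentiable ℂ fun s : ℂ => 2 * s)).analyticAt z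
      have a2 : AnalyticAt ℂ (fun s : ℂ => s - 1) z := by fun_prop
      have a3 : AnalyticAt ℂ (fun s : ℂ => 2 * s - 1) z := by fun_prop
      exact (a2.mul ((H353.FF_anal z).inv hz1)).mul (a1.mul (a3.inv hz2))) hord 0 hδ hε
  filter_upwards [h3] with u hu
  have h4 := hu (fun _ => 0)
  have h5 : ∀ v, PE 0 (fun _ => 0) v = 0 := fun v => by simp [PE]
  simpa only [h5, sub_zero] using h4

theorem lam_multi (hRH : ∀ s : ℂ, 1 / 2 < s.re → riemannZeta s ≠ 0) {ρ : ℂ} (h0 : riemannZeta ρ = 0)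
    (hre : ρ.re = 1 / 2) (hd : deriv riemannZeta ρ = 0) {e M : ℝ} (he : 0 < e) :
    ∀ᶠ T : ℝ in atTop, e * M * T ≤
      ∫ w in Ioc T ((1 + e) * T), ‖TT lama w‖ ^ 2 * Real.exp (-(2 * (1 / 2) * w)) := by
  have hF0 : FF ρ = 0 := (zero_FF h0).1
  obtain ⟨n, r, hr, h, hh1, hh2, hh3, hh4, hh5⟩ := local_factor (H353.FF_anal ρ) hF0 (FF_order ρ)
  have hρ1 : ρ ≠ 1 := by
    rintro rfl
    exact riemannZeta_one_ne_zero h0
  have hn : n ≠ 0 := by
    intro hn
    have h6 := hh5 hn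
    rw [FF_deriv h0, hd, mul_zero] at h6
    exact hh2 ρ (mem_ball_self hr) h6
  have hρe : ((1 / 2 : ℝ) : ℂ) + ρ.im * I = ρ := by
    apply Complex.ext <;> simp [hre]
  have h2ρ : 2 * ρ ≠ 1 := by
    intro h
    have h1 : ρ = 1 / 2 := by linear_combination h / 2
    rw [h1] at h0
    exact zeta_half h0
  have h2ρ' : 2 * ρ - 1 ≠ 0 := sub_ne_zero.2 h2ρ
  obtain ⟨r1, hr1, hb1⟩ : ∃ r : ℝ, 0 < r ∧ ∀ s ∈ ball ρ r, 2 * s - 1 ≠ 0 := by
    have hc : Continuous fun s : ℂ => 2 * s - 1 := by fun_prop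
    exact Metric.eventually_nhds_iff_ball.1 ((hc.continuousAt (x := ρ)).eventually_ne h2ρ')
  have hz2 : riemannZeta (2 * ρ) ≠ 0 := riemannZeta_ne_zero_of_one_le_re (by simp [hre])
  have h2FF : Differentiable ℂ fun s : ℂ => FF (2 * s) :=
    FF_diff.comp (by fun_prop : Differentiable ℂ fun s : ℂ => 2 * s)
  refine TT_multi lama_norm (by norm_num) (by norm_num) Alam_L (Alam_diff hRH) (g := ρ.im) hn
    (lt_min hr hr1)
    (Bg := fun s => (s - 1) * (h s)⁻¹ * (FF (2 * s) * (2 * s - 1)⁻¹)) ?_ ?_ ?_ he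
  · rw [hρe]
    refine DifferentiableOn.mul (DifferentiableOn.mul (by fun_prop)
      ((hh1.inv hh2).mono (ball_subset_ball (min_le_left _ _)))) ?_
    exact h2FF.differentiableOn.mul ((DifferentiableOn.inv (by fun_prop) hb1).mono
      (ball_subset_ball (min_le_right _ _)))
  · rw [hρe]
    intro s hs _
    unfold Alam
    rw [hh3 s (ball_subset_ball (min_le_left _ _) hs), mul_inv]
    ring
  · rw [hρe]
    refine mul_ne_zero (mul_ne_zero (sub_ne_zero.2 hρ1) (inv_ne_zero (hh2 ρ (mem_ball_self hr)))) ?_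
    rw [FF_eq_ne h2ρ]
    exact mul_ne_zero (mul_ne_zero h2ρ' hz2) (inv_ne_zero h2ρ')

theorem lam_bessel (hRH : ∀ s : ℂ, 1 / 2 < s.re → riemannZeta s ≠ 0)
    (hs : ∀ ρ : ℂ, riemannZeta ρ = 0 → ρ.re = 1 / 2 → deriv riemannZeta ρ ≠ 0)
    (S : Finset ℝ) {e S' : ℝ} (he : 0 < e) (hS' : S' < ∑ g ∈ S, ‖cL g‖ ^ 2) :
    ∀ᶠ T : ℝ in atTop, e * S' * T ≤
      ∫ w in Ioc T ((1 + e) * T), ‖TT lama w‖ ^ 2 * Real.exp (-(2 * (1 / 2) * w)) := by
  have h := mean_bessel (TT_Trf lama_norm (θ := 1 / 2) Alam_L) (by norm_num) (by norm_num) (by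
      refine DifferentiableOn.div ((Alam_diff hRH).comp (by fun_prop) fun z hz => ?_) (by fun_prop)
        fun z hz => ?_
      · have hz' : 0 < z.re := hz
        simpa using hz'
      · have hz' : 0 < z.re := hz
        intro h
        have := congrArg Complex.re h
        simp at this
        linarith) S cL (fun g _ => PD_V (PD_lam hs g)) he hS'
  simpa only [sq_norm_TT] using h

end

end Pool.Agent.W190.W
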