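import Pool.Agent.W190.W.W2

/-! # The contour lemma -/

set_option autoImplicit false

open Complex Filter Topology Set Metric MeasureTheory
open Pool.Agent.H810R2.CSd (rect rect_inv)
open Pool.Agent.W190

namespace Pool.Agent.W190.W

noncomputable section

theorem CL {Ω1 Ω2 : Set ℂ} {F g : ℂ → ℂ} (hF : DifferentiableOn ℂ F Ω1) (hg : DifferentiableOn ℂ g Ω2)
    (hΩ2 : IsOpen Ω2) {a x1 L η δ : ℝ} (ha : 0 < a) (hax : a < x1) (hη : 0 < η) (hηL : η ≤ L)
    (hδ : 0 < δ)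
    (hs1 : ∀ z : ℂ, a ≤ z.re → z.re ≤ x1 → |z.im| ≤ L → z ∈ Ω1)
    (hs2 : ∀ z : ℂ, -δ ≤ z.re → z.re ≤ a → |z.im| ≤ η → z ∈ Ω2)
    (hFg : ∀ y : ℝ, |y| ≤ η → F (a + y * I) = ((a : ℂ) + y * I)⁻¹ * g (a + y * I))
    {W1 V1 W2 V2 : ℝ}
    (h1 : ∀ x y : ℝ, a ≤ x → x ≤ x1 → |y| = L → ‖F (x + y * I)‖ ≤ W1)
    (h2 : ∀ y : ℝ, η ≤ |y| → |y| ≤ L → ‖F (a + y * I)‖ ≤ V1)
    (h3 : ∀ x y : ℝ, -δ ≤ x → x ≤ a → |y| = η → ‖((x : ℂ) + y * I)⁻¹ * g (x + y * I)‖ ≤ W2)
    (h4 : ∀ y : ℝ, |y| ≤ η → ‖(((-δ : ℝ) : ℂ) + y * I)⁻¹ * g (((-δ : ℝ) : ℂ) + y * I)‖ ≤ V2) :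
    ‖(∫ y in (-L)..L, F (x1 + y * I)) - 2 * Real.pi * g 0‖ ≤
      2 * (x1 - a) * W1 + 2 * (L - η) * V1 + 2 * (a + δ) * W2 + 2 * η * V2 := by
  have hL : 0 < L := by linarith
  have key1 : rect a x1 (-L) L F = 0 := by
    have h := integral_boundary_rect_eq_zero_of_differentiableOn F (⟨a, -L⟩ : ℂ)
      (⟨x1, L⟩ : ℂ) (hF.mono fun z hz => by
        rw [mem_reProdIm] at hz
        obtain ⟨⟨a1, a2⟩, a3, a4⟩ := hz
        simp only [min_eq_left hax.le, max_eq_right hax.le, min_eq_left (by linarith : -L ≤ L),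
          max_eq_right (by linarith : -L ≤ L)] at a1 a2 a3 a4
        exact hs1 z a1 a2 (abs_le.2 ⟨a3, a4⟩))
    exact h
  have key2 := rect_res (w := 0) hg hΩ2 (x₀ := -δ) (x₁ := a) (y₀ := -η) (y₁ := η)
    (by simpa using hδ) (by simpa using ha) (by simpa using hη) (by simpa using hη)
    (fun z a1 a2 a3 a4 => hs2 z a1 a2 (abs_le.2 ⟨a3, a4⟩))
  simp only [sub_zero] at key2
  unfold rect at key1 key2
  have hFc : ContinuousOn (fun y : ℝ => F ((a : ℂ) + y * I)) (Icc (-L) L) := by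
    refine hF.continuousOn.comp (by fun_prop) ?_
    intro y hy
    exact hs1 _ (by simp) (by simpa using hax.le) (by simpa using abs_le.2 ⟨hy.1, hy.2⟩)
  have hsplit : ∫ y in (-L)..L, F ((a : ℂ) + y * I) =
      (∫ y in (-L)..(-η), F ((a : ℂ) + y * I)) + (∫ y in (-η)..η, F ((a : ℂ) + y * I)) +
        ∫ y in η..L, F ((a : ℂ) + y * I) := by
    have i1 : IntervalIntegrable (fun y : ℝ => F ((a : ℂ) + y * I)) volume (-L) (-η) :=
      (hFc.mono (by
        rw [uIcc_of_le (by linarith)]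
        exact Icc_subset_Icc le_rfl (by linarith))).intervalIntegrable
    have i2 : IntervalIntegrable (fun y : ℝ => F ((a : ℂ) + y * I)) volume (-η) η :=
      (hFc.mono (by
        rw [uIcc_of_le (by linarith)]
        exact Icc_subset_Icc (by linarith) (by linarith))).intervalIntegrable
    have i3 : IntervalIntegrable (fun y : ℝ => F ((a : ℂ) + y * I)) volume η L :=
      (hFc.mono (by
        rw [uIcc_of_le (by linarith)]
        exact Icc_subset_Icc (by linarith) le_rfl)).intervalIntegrable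
    rw [intervalIntegral.integral_add_adjacent_intervals i1 i2,
      intervalIntegral.integral_add_adjacent_intervals (i1.trans i2) i3]
  have hmid : ∫ y in (-η)..η, F ((a : ℂ) + y * I) =
      ∫ y in (-η)..η, ((a : ℂ) + y * I)⁻¹ * g (a + y * I) := by
    refine intervalIntegral.integral_congr fun y hy => ?_
    rw [uIcc_of_le (by linarith)] at hy
    exact hFg y (abs_le.2 ⟨hy.1, hy.2⟩)
  set b0 := ∫ x in a..x1, F ((x : ℂ) + ((-L : ℝ) : ℂ) * I) with hb0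
  set b1 := ∫ x in a..x1, F ((x : ℂ) + (L : ℂ) * I) with hb1
  set v1 := ∫ y in (-L)..L, F ((x1 : ℂ) + y * I) with hv1
  set v0 := ∫ y in (-L)..L, F ((a : ℂ) + y * I) with hv0
  set c0 := ∫ x in (-δ)..a, ((x : ℂ) + ((-η : ℝ) : ℂ) * I)⁻¹ * g (x + ((-η : ℝ) : ℂ) * I) with hc0
  set c1 := ∫ x in (-δ)..a, ((x : ℂ) + (η : ℂ) * I)⁻¹ * g (x + (η : ℂ) * I) with hc1
  set u0 := ∫ y in (-η)..η, (((-δ : ℝ) : ℂ) + y * I)⁻¹ * g (((-δ : ℝ) : ℂ) + y * I) with hu0
  set m := ∫ y in (-η)..η, ((a : ℂ) + y * I)⁻¹ * g (a + y * I) with hm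
  set p1 := ∫ y in (-L)..(-η), F ((a : ℂ) + y * I) with hp1
  set p2 := ∫ y in η..L, F ((a : ℂ) + y * I) with hp2
  have e0 : ‖b0‖ ≤ W1 * |x1 - a| := by
    refine intervalIntegral.norm_integral_le_of_norm_le_const fun x hx' => ?_
    rw [uIoc_of_le hax.le] at hx'
    exact h1 x (-L) hx'.1.le hx'.2 (by rw [abs_neg, abs_of_pos hL])
  have e1 : ‖b1‖ ≤ W1 * |x1 - a| := by
    refine intervalIntegral.norm_integral_le_of_norm_le_const fun x hx' => ?_
    rw [uIoc_of_le hax.le] at hx'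
    exact h1 x L hx'.1.le hx'.2 (abs_of_pos hL)
  have e2 : ‖c0‖ ≤ W2 * |a - -δ| := by
    refine intervalIntegral.norm_integral_le_of_norm_le_const fun x hx' => ?_
    rw [uIoc_of_le (by linarith)] at hx'
    exact h3 x (-η) hx'.1.le hx'.2 (by rw [abs_neg, abs_of_pos hη])
  have e3 : ‖c1‖ ≤ W2 * |a - -δ| := by
    refine intervalIntegral.norm_integral_le_of_norm_le_const fun x hx' => ?_
    rw [uIoc_of_le (by linarith)] at hx'
    exact h3 x η hx'.1.le hx'.2 (abs_of_pos hη)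
  have e4 : ‖u0‖ ≤ V2 * |η - -η| := by
    refine intervalIntegral.norm_integral_le_of_norm_le_const fun y hy' => ?_
    rw [uIoc_of_le (by linarith)] at hy'
    exact h4 y (abs_le.2 ⟨hy'.1.le, hy'.2⟩)
  have e5 : ‖p1‖ ≤ V1 * |-η - -L| := by
    refine intervalIntegral.norm_integral_le_of_norm_le_const fun y hy' => ?_
    rw [uIoc_of_le (by linarith)] at hy'
    have : y < 0 := by linarith [hy'.2]
    exact h2 y (by rw [abs_of_neg this]; linarith [hy'.2]) (by rw [abs_of_neg this]; linarith [hy'.1])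
  have e6 : ‖p2‖ ≤ V1 * |L - η| := by
    refine intervalIntegral.norm_integral_le_of_norm_le_const fun y hy' => ?_
    rw [uIoc_of_le (by linarith)] at hy'
    have : 0 < y := by linarith [hy'.1]
    exact h2 y (by rw [abs_of_pos this]; linarith [hy'.1]) (by rw [abs_of_pos this]; linarith [hy'.2])
  rw [abs_of_nonneg (by linarith)] at e0 e1 e2 e3 e4 e5 e6
  simp only [smul_eq_mul] at key1 key2
  have hI : I * I = -1 := Complex.I_mul_I
  have hI0 := Complex.I_ne_zero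
  have e7 : v1 - 2 * Real.pi * g 0 = I * (b0 - b1) + p1 + p2 + u0 + I * (c0 - c1) := by
    have hv : v0 = p1 + m + p2 := by rw [hsplit, hmid]
    have : I * (v1 - 2 * Real.pi * g 0) = I * (I * (b0 - b1) + p1 + p2 + u0 + I * (c0 - c1)) := by
      rw [hv] at key1
      linear_combination key1 + key2 - (b0 - b1) * hI - (c0 - c1) * hI
    exact mul_left_cancel₀ hI0 this
  rw [e7]
  have n1 : ‖I * (b0 - b1)‖ ≤ ‖b0‖ + ‖b1‖ := by
    rw [norm_mul, Complex.norm_I, one_mul]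
    exact norm_sub_le _ _
  have n2 : ‖I * (c0 - c1)‖ ≤ ‖c0‖ + ‖c1‖ := by
    rw [norm_mul, Complex.norm_I, one_mul]
    exact norm_sub_le _ _
  have n3 : ‖I * (b0 - b1) + p1 + p2 + u0 + I * (c0 - c1)‖ ≤
      ‖I * (b0 - b1)‖ + ‖p1‖ + ‖p2‖ + ‖u0‖ + ‖I * (c0 - c1)‖ := by
    refine (norm_add_le _ _).trans (add_le_add ?_ le_rfl)
    refine (norm_add_le _ _).trans (add_le_add ?_ le_rfl)
    refine (norm_add_le _ _).trans (add_le_add ?_ le_rfl)
    exact norm_add_le _ _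
  refine n3.trans ?_
  linarith

end

end Pool.Agent.W190.W
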