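import Pool.Agent.W190.W.W3

/-! # Gaussian averages converge to the residue -/

set_option autoImplicit false

open Complex Filter Topology Set Metric MeasureTheory
open Pool.Agent.W190

namespace Pool.Agent.W190.W

noncomputable section

theorem mem_rect_compact (a b c d : ℝ) : IsCompact {z : ℂ | z.re ∈ Icc a b ∧ z.im ∈ Icc c d} := by
  have := (isCompact_Icc (a := a) (b := b)).reProdIm (isCompact_Icc (a := c) (b := d))
  exact this

theorem tail2 (f : ℝ → ℂ) (L : ℝ) (hL : 0 ≤ L) (hf : Integrable f) (g : ℝ → ℝ) (hg : Integrable g)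
    (hg0 : ∀ y, 0 ≤ g y) (hb : ∀ y : ℝ, L ≤ |y| → ‖f y‖ ≤ g y) :
    ‖(∫ y : ℝ, f y) - ∫ y in (-L)..L, f y‖ ≤ ∫ y, g y := by
  have hs : ∫ y : ℝ, f y = (∫ y in Ioc (-L) L, f y) + ∫ y in (Ioc (-L) L)ᶜ, f y :=
    (integral_add_compl measurableSet_Ioc hf).symm
  rw [intervalIntegral.integral_of_le (by linarith), hs, add_sub_cancel_left]
  have h1 : ‖∫ y in (Ioc (-L) L)ᶜ, f y‖ ≤ ∫ y in (Ioc (-L) L)ᶜ, g y := by
    refine norm_integral_le_of_norm_le hg.integrableOn ?_
    filter_upwards [ae_restrict_mem measurableSet_Ioc.compl] with y hy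
    refine hb y ?_
    rw [mem_compl_iff, mem_Ioc, not_and, not_le] at hy
    by_cases h : -L < y
    · exact (hy h).le.trans (le_abs_self y)
    · exact (by linarith [not_lt.1 h] : L ≤ -y).trans (neg_le_abs y)
  exact h1.trans (setIntegral_le_integral hg (ae_of_all _ hg0))

theorem gauss_lim {f : ℝ → ℂ} {V B : ℂ → ℂ} {x1 r : ℝ} (hx1 : 0 < x1) (hfm : AEStronglyMeasurable f volume)
    (hfi : Integrable (fun w => ‖f w‖ * Real.exp (-(x1 * w))))
    (hV : ∀ y : ℝ, ∫ w : ℝ, f w * cexp (-(((x1 : ℂ) + y * I) * w)) = V (x1 + y * I))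
    (hVd : DifferentiableOn ℂ V {z | 0 < z.re}) (hr : 0 < r) (hB : DifferentiableOn ℂ B (ball 0 r))
    (hVB : ∀ z ∈ ball (0:ℂ) r, 0 < z.re → V z = z⁻¹ * B z) {K Λ ε : ℝ} (hK : 0 < K) (hΛ : 1 ≤ Λ)
    (hε : 0 < ε) :
    ∀ᶠ T : ℝ in atTop, ∀ w0 : ℝ, T ≤ w0 → w0 ≤ Λ * T → ‖J f (K * T) w0 - B 0‖ ≤ ε := by
  -- parameters
  set η := r / 4 with hη
  have hη0 : 0 < η := by positivity
  set a := min (x1 / 2) (min (η / 2) (K * η ^ 2 / (8 * Λ))) with ha
  have hΛ0 : 0 < Λ := by linarith
  have ha0 : 0 < a := by rw [ha]; positivity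
  have ha1 : a ≤ x1 / 2 := min_le_left _ _
  have ha2 : a ≤ η / 2 := (min_le_right _ _).trans (min_le_left _ _)
  have ha3 : a * Λ ≤ K * η ^ 2 / 8 := by
    have h := (min_le_right (x1 / 2) (min (η / 2) (K * η ^ 2 / (8 * Λ)))).trans (min_le_right _ _)
    rw [← ha, le_div_iff₀ (by positivity)] at h
    linarith
  set δ := min (η / 2) (1 / K) with hδ
  have hδ0 : 0 < δ := by rw [hδ]; positivity
  have hδ1 : δ ≤ η / 2 := min_le_left _ _
  have hδ2 : K * δ ≤ 1 := by
    have h := min_le_right (η / 2) (1 / K)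
    rw [← hδ, le_div_iff₀ hK] at h
    linarith
  set P := 2 * (x1 ^ 2 + 2 * (x1 * Λ + 1) / K) with hP
  have hP0 : 0 < P := by positivity
  set L := η + 1 + P with hL
  have hLP : P ≤ L ^ 2 := by
    have h1 : 1 ≤ L := by rw [hL]; linarith
    have h2 : P ≤ L := by rw [hL]; linarith
    calc P = P * 1 := by ring
      _ ≤ L * L := mul_le_mul h2 h1 zero_le_one (by linarith)
      _ = _ := by ring
  have hL0 : 0 < L := by positivity
  have hKP : K * P = 2 * (K * x1 ^ 2) + 4 * (x1 * Λ + 1) := by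
    rw [hP]; field_simp
    ring
  have hax : a < x1 := by linarith
  -- bounds
  have hVc : ContinuousOn V {z | 0 < z.re} := hVd.continuousOn
  obtain ⟨M1, hM1⟩ := (mem_rect_compact a x1 (-L) L).exists_bound_of_continuousOn
    (hVc.mono fun z hz => lt_of_lt_of_le ha0 hz.1.1)
  obtain ⟨M2, hM2⟩ := (isCompact_closedBall (0:ℂ) (r / 2)).exists_bound_of_continuousOn
    (hB.continuousOn.mono (closedBall_subset_ball (by linarith)))
  have hM10 : 0 ≤ M1 := (norm_nonneg _).trans (hM1 (a : ℂ) ⟨by simp [hax.le], by simp [hL0.le]⟩)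
  have hM20 : 0 ≤ M2 := (norm_nonneg _).trans (hM2 0 (mem_closedBall_self (by positivity)))
  set M := M1 + M2 * (η⁻¹ + δ⁻¹) with hM
  have hM1M : M1 ≤ M := by rw [hM]; have : 0 ≤ M2 * (η⁻¹ + δ⁻¹) := by positivity
                           linarith
  have hM2M : M2 * η⁻¹ ≤ M := by
    rw [hM]
    have : 0 ≤ M2 * δ⁻¹ := by positivity
    linarith
  have hM3M : M2 * δ⁻¹ ≤ M := by
    rw [hM]
    have : 0 ≤ M2 * η⁻¹ := by positivity
    linarith
  have hM0 : 0 ≤ M := hM10.trans hM1M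
  set c := min 1 (min (K * η ^ 2 / 4) (δ / 2)) with hc
  have hc0 : 0 < c := by rw [hc]; positivity
  have hc1 : c ≤ 1 := min_le_left _ _
  have hc2 : c ≤ K * η ^ 2 / 4 := (min_le_right _ _).trans (min_le_left _ _)
  have hc3 : c ≤ δ / 2 := (min_le_right _ _).trans (min_le_right _ _)
  -- bound for V on the line
  set C1 := ∫ w, ‖f w‖ * Real.exp (-(x1 * w)) with hC1
  have hC10 : 0 ≤ C1 := integral_nonneg fun w => by positivity
  have hVl : ∀ y : ℝ, ‖V (x1 + y * I)‖ ≤ C1 := by
    intro y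
    rw [← hV y]
    refine norm_integral_le_of_norm_le hfi (ae_of_all _ fun w => ?_)
    rw [norm_mul, Complex.norm_exp]
    simp
  have hVlc : Continuous (fun y : ℝ => V (x1 + y * I)) := by
    refine continuous_iff_continuousAt.2 fun y => ?_
    have hopen : IsOpen {z : ℂ | 0 < z.re} := isOpen_lt continuous_const Complex.continuous_re
    have h1 : ContinuousAt V ((x1 : ℂ) + y * I) :=
      hVc.continuousAt (hopen.mem_nhds (by simpa using hx1))
    have h2 : ContinuousAt (fun y : ℝ => (x1 : ℂ) + y * I) y := by fun_prop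
    exact ContinuousAt.comp (f := fun y : ℝ => (x1 : ℂ) + y * I) h1 h2
  have hgau : Integrable (fun y : ℝ => Real.exp (-(K / 4) * y ^ 2)) :=
    integrable_exp_neg_mul_sq (by positivity)
  set C2 := ∫ y : ℝ, Real.exp (-(K / 4) * y ^ 2) with hC2
  have hC20 : 0 ≤ C2 := integral_nonneg fun y => by positivity
  set C3 := (2 * x1 + 2 * L + 2 * δ) * M + C1 * C2 with hC3
  have hlim : Tendsto (fun T : ℝ => C3 * Real.exp (-(c * T))) atTop (𝓝 0) := by
    have h1 : Tendsto (fun T : ℝ => Real.exp (-(c * T))) atTop (𝓝 0) := by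
      refine Real.tendsto_exp_atBot.comp (tendsto_neg_atTop_atBot.comp ?_)
      exact tendsto_id.const_mul_atTop hc0
    simpa using h1.const_mul C3
  filter_upwards [hlim.eventually (Iio_mem_nhds hε), eventually_ge_atTop (1:ℝ)] with T hT hT1
  intro w0 hw1 hw2
  have hT0 : 0 < T := by linarith
  have hw0 : 0 < w0 := by linarith
  set q := K * T with hq
  have hq0 : 0 < q := by positivity
  set φ : ℂ → ℂ := fun z => cexp (z * w0 + q / 2 * z ^ 2) with hφ
  have hφn : ∀ x y : ℝ, ‖φ (x + y * I)‖ = Real.exp (x * w0 + q * (x ^ 2 - y ^ 2) / 2) := fun x y =>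
    norm_phi q w0 x y
  have hφd : Differentiable ℂ φ := by rw [hφ]; fun_prop
  have hrep := J_rep hfm hfi hV hq0 w0
  have heT : ∀ E : ℝ, E ≤ -(c * T) → Real.exp E ≤ Real.exp (-(c * T)) := fun E hE =>
    Real.exp_le_exp.2 hE
  -- the contour lemma
  have hcl := CL (Ω1 := {z | 0 < z.re}) (Ω2 := ball 0 r) (F := fun z => φ z * V z)
    (g := fun z => φ z * B z) (hφd.differentiableOn.mul hVd) (hφd.differentiableOn.mul hB)
    isOpen_ball (L := L) ha0 hax hη0 (by rw [hL]; linarith) hδ0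
    (fun z h1 _ _ => lt_of_lt_of_le ha0 h1)
    (fun z h1 h2 h3 => by
      rw [mem_ball_zero_iff]
      have h4 : |z.re| ≤ η := abs_le.2 ⟨by linarith, by linarith⟩
      have h5 := Complex.norm_le_abs_re_add_abs_im z
      linarith)
    (fun y hy => by
      rw [hVB _ ?_ (by simpa using ha0)]
      · ring
      · rw [mem_ball_zero_iff]
        have h5 := Complex.norm_le_abs_re_add_abs_im ((a : ℂ) + y * I)
        simp only [Complex.add_re, Complex.ofReal_re, Complex.re_ofReal_mul, Complex.I_re, mul_zero,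
          add_zero, Complex.add_im, Complex.ofReal_im, Complex.im_ofReal_mul, Complex.I_im, mul_one,
          zero_add, abs_of_pos ha0] at h5
        linarith)
    (W1 := Real.exp (-(c * T)) * M) (V1 := Real.exp (-(c * T)) * M)
    (W2 := Real.exp (-(c * T)) * M) (V2 := Real.exp (-(c * T)) * M)
    (fun x y h1 h2 h3 => by
      rw [norm_mul, hφn]
      refine mul_le_mul (heT _ ?_) ((hM1 _ ⟨by simpa using ⟨h1, h2⟩, by simpa using abs_le.1 h3.le⟩).trans hM1M)
        (norm_nonneg _) (Real.exp_pos _).le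
      have hy2 : y ^ 2 = L ^ 2 := by rw [← sq_abs, h3]
      have hx0 : 0 ≤ x := by linarith
      have a1 : x * w0 ≤ x1 * (Λ * T) := mul_le_mul h2 hw2 hw0.le hx1.le
      have a2 : x ^ 2 ≤ x1 ^ 2 := pow_le_pow_left₀ hx0 h2 2
      have a3 : q * (x ^ 2 - y ^ 2) / 2 ≤ T * (K * (x1 ^ 2 - P) / 2) := by
        rw [hy2, hq]
        have : K * T * (x ^ 2 - L ^ 2) ≤ K * T * (x1 ^ 2 - P) :=
          mul_le_mul_of_nonneg_left (by linarith) (by positivity)
        linarith
      have a4 : K * (x1 ^ 2 - P) / 2 = -(K * x1 ^ 2) / 2 - 2 * (x1 * Λ + 1) := by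
        rw [mul_sub, hKP]; ring
      rw [a4] at a3
      have a5 : 0 ≤ K * x1 ^ 2 * T := by positivity
      have a6 : 0 ≤ x1 * Λ * T := by positivity
      have a7 : c * T ≤ 1 * T := mul_le_mul_of_nonneg_right hc1 hT0.le
      linarith)
    (fun y h1 h2 => by
      rw [norm_mul, hφn]
      refine mul_le_mul (heT _ ?_) ((hM1 _ ⟨by simpa using hax.le, by simpa using abs_le.1 h2⟩).trans hM1M)
        (norm_nonneg _) (Real.exp_pos _).le
      have hy2 : η ^ 2 ≤ y ^ 2 := by rw [← sq_abs y]; exact pow_le_pow_left₀ hη0.le h1 2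
      have a1 : a * w0 ≤ K * η ^ 2 / 8 * T := by
        calc a * w0 ≤ a * (Λ * T) := mul_le_mul_of_nonneg_left hw2 ha0.le
          _ = a * Λ * T := by ring
          _ ≤ _ := mul_le_mul_of_nonneg_right ha3 hT0.le
      have a2 : a ^ 2 ≤ η ^ 2 / 4 :=
        (pow_le_pow_left₀ ha0.le ha2 2).trans (le_of_eq (by ring))
      have a3 : q * (a ^ 2 - y ^ 2) / 2 ≤ K * T * (η ^ 2 / 4 - η ^ 2) / 2 := by
        rw [hq]
        have : K * T * (a ^ 2 - y ^ 2) ≤ K * T * (η ^ 2 / 4 - η ^ 2) :=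
          mul_le_mul_of_nonneg_left (by linarith) (by positivity)
        linarith
      have a7 : c * T ≤ K * η ^ 2 / 4 * T := mul_le_mul_of_nonneg_right hc2 hT0.le
      linarith)
    (fun x y h1 h2 h3 => by
      have hzn : η ≤ ‖(x : ℂ) + y * I‖ := by
        have h := Complex.abs_im_le_norm ((x : ℂ) + y * I)
        simp only [Complex.add_im, Complex.ofReal_im, Complex.im_ofReal_mul, Complex.I_im, mul_one,
          zero_add, h3] at h
        exact h
      have hzb : ‖(x : ℂ) + y * I‖ ≤ r / 2 := by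
        have h5 := Complex.norm_le_abs_re_add_abs_im ((x : ℂ) + y * I)
        simp only [Complex.add_re, Complex.ofReal_re, Complex.re_ofReal_mul, Complex.I_re, mul_zero,
          add_zero, Complex.add_im, Complex.ofReal_im, Complex.im_ofReal_mul, Complex.I_im, mul_one,
          zero_add, h3] at h5
        have h6 : |x| ≤ η := abs_le.2 ⟨by linarith, by linarith⟩
        linarith
      rw [norm_mul, norm_inv, norm_mul, hφn]
      have hb := hM2 _ (mem_closedBall_zero_iff.2 hzb)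
      have hi : ‖(x : ℂ) + y * I‖⁻¹ ≤ η⁻¹ := inv_anti₀ hη0 hzn
      have he : Real.exp (x * w0 + q * (x ^ 2 - y ^ 2) / 2) ≤ Real.exp (-(c * T)) := by
        refine heT _ ?_
        have hy2 : η ^ 2 = y ^ 2 := by rw [← sq_abs y, h3]
        have a1 : x * w0 ≤ K * η ^ 2 / 8 * T := by
          calc x * w0 ≤ a * w0 := mul_le_mul_of_nonneg_right h2 hw0.le
            _ ≤ a * (Λ * T) := mul_le_mul_of_nonneg_left hw2 ha0.le
            _ = a * Λ * T := by ring
            _ ≤ _ := mul_le_mul_of_nonneg_right ha3 hT0.le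
        have a2 : x ^ 2 ≤ η ^ 2 / 4 :=
          (sq_le_sq' (b := η / 2) (by linarith) (by linarith)).trans (le_of_eq (by ring))
        have a3 : q * (x ^ 2 - y ^ 2) / 2 ≤ K * T * (η ^ 2 / 4 - η ^ 2) / 2 := by
          rw [hq, ← hy2]
          have : K * T * (x ^ 2 - η ^ 2) ≤ K * T * (η ^ 2 / 4 - η ^ 2) :=
            mul_le_mul_of_nonneg_left (by linarith) (by positivity)
          linarith
        have a7 : c * T ≤ K * η ^ 2 / 4 * T := mul_le_mul_of_nonneg_right hc2 hT0.le
        linarith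
      calc _ ≤ η⁻¹ * (Real.exp (-(c * T)) * M2) := by gcongr
        _ = Real.exp (-(c * T)) * (M2 * η⁻¹) := by ring
        _ ≤ _ := mul_le_mul_of_nonneg_left hM2M (Real.exp_pos _).le)
    (fun y h3 => by
      have hzn : δ ≤ ‖((-δ : ℝ) : ℂ) + y * I‖ := by
        have h := Complex.abs_re_le_norm (((-δ : ℝ) : ℂ) + y * I)
        simp only [Complex.add_re, Complex.ofReal_re, Complex.re_ofReal_mul, Complex.I_re, mul_zero,
          add_zero, abs_neg, abs_of_pos hδ0] at h
        exact h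
      have hzb : ‖((-δ : ℝ) : ℂ) + y * I‖ ≤ r / 2 := by
        have h5 := Complex.norm_le_abs_re_add_abs_im (((-δ : ℝ) : ℂ) + y * I)
        simp only [Complex.add_re, Complex.ofReal_re, Complex.re_ofReal_mul, Complex.I_re, mul_zero,
          add_zero, Complex.add_im, Complex.ofReal_im, Complex.im_ofReal_mul, Complex.I_im, mul_one,
          zero_add, abs_neg, abs_of_pos hδ0] at h5
        linarith
      rw [norm_mul, norm_inv, norm_mul, hφn]
      have hb := hM2 _ (mem_closedBall_zero_iff.2 hzb)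
      have hi : ‖((-δ : ℝ) : ℂ) + y * I‖⁻¹ ≤ δ⁻¹ := inv_anti₀ hδ0 hzn
      have he : Real.exp (-δ * w0 + q * ((-δ) ^ 2 - y ^ 2) / 2) ≤ Real.exp (-(c * T)) := by
        refine heT _ ?_
        have a1 : -δ * w0 ≤ -(δ * T) := by
          have := mul_le_mul_of_nonneg_left hw1 hδ0.le
          linarith
        have a3 : q * ((-δ) ^ 2 - y ^ 2) / 2 ≤ δ * T / 2 := by
          rw [hq]
          have h6 : K * T * ((-δ) ^ 2 - y ^ 2) ≤ K * T * δ ^ 2 :=
            mul_le_mul_of_nonneg_left (by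
              have h8 := sq_nonneg y
              have h9 : (-δ) ^ 2 = δ ^ 2 := by ring
              linarith) (by positivity)
          have h7 : K * T * δ ^ 2 ≤ 1 * (T * δ) := by
            calc K * T * δ ^ 2 = K * δ * (T * δ) := by ring
              _ ≤ _ := mul_le_mul_of_nonneg_right hδ2 (by positivity)
          linarith
        have a7 : c * T ≤ δ / 2 * T := mul_le_mul_of_nonneg_right hc3 hT0.le
        linarith
      calc _ ≤ δ⁻¹ * (Real.exp (-(c * T)) * M2) := by gcongr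
        _ = Real.exp (-(c * T)) * (M2 * δ⁻¹) := by ring
        _ ≤ _ := mul_le_mul_of_nonneg_left hM3M (Real.exp_pos _).le)
  -- the tail
  have hGi : Integrable (fun y : ℝ => φ (x1 + y * I) * V (x1 + y * I)) := by
    refine ((gauss_real_int hq0 x1 w0).mul_const C1).mono' ?_ (ae_of_all _ fun y => ?_)
    · have h1 : Continuous (fun y : ℝ => φ (x1 + y * I)) := by
        have := hφd.continuous
        fun_prop
      exact (h1.mul hVlc).aestronglyMeasurable
    · rw [norm_mul, hφn]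
      exact mul_le_mul_of_nonneg_left (hVl y) (Real.exp_pos _).le
  have htail := tail2 (fun y : ℝ => φ (x1 + y * I) * V (x1 + y * I)) L hL0.le hGi
    (fun y => (Real.exp (-(c * T)) * C1) * Real.exp (-(K / 4) * y ^ 2)) (hgau.const_mul _)
    (fun y => by positivity) (fun y hy => by
      rw [norm_mul, hφn]
      have hy2 : L ^ 2 ≤ y ^ 2 := by rw [← sq_abs y]; exact pow_le_pow_left₀ hL0.le hy 2
      have h1 : Real.exp (x1 * w0 + q * (x1 ^ 2 - y ^ 2) / 2) ≤
          Real.exp (-(c * T)) * Real.exp (-(K / 4) * y ^ 2) := by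
        rw [← Real.exp_add]
        refine Real.exp_le_exp.2 ?_
        have a1 : x1 * w0 ≤ x1 * (Λ * T) := mul_le_mul_of_nonneg_left hw2 hx1.le
        have a2 : x1 ^ 2 - y ^ 2 ≤ x1 ^ 2 - P / 2 - y ^ 2 / 2 := by linarith
        have a3 : q * (x1 ^ 2 - y ^ 2) / 2 ≤ T * (K * (x1 ^ 2 - P / 2) / 2) - K * T * y ^ 2 / 4 := by
          rw [hq]
          have : K * T * (x1 ^ 2 - y ^ 2) ≤ K * T * (x1 ^ 2 - P / 2 - y ^ 2 / 2) :=
            mul_le_mul_of_nonneg_left a2 (by positivity)
          linarith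
        have a4 : K * (x1 ^ 2 - P / 2) / 2 = -(x1 * Λ + 1) := by
          have : K * (P / 2) = K * x1 ^ 2 + 2 * (x1 * Λ + 1) := by
            rw [mul_div_assoc', hKP]; ring
          rw [mul_sub, this]; ring
        rw [a4] at a3
        have a5 : K * y ^ 2 * 1 ≤ K * y ^ 2 * T := mul_le_mul_of_nonneg_left hT1 (by positivity)
        have a7 : c * T ≤ 1 * T := mul_le_mul_of_nonneg_right hc1 hT0.le
        linarith
      calc _ ≤ (Real.exp (-(c * T)) * Real.exp (-(K / 4) * y ^ 2)) * C1 :=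
            mul_le_mul h1 (hVl y) (norm_nonneg _) (by positivity)
        _ = _ := by ring)
  rw [integral_const_mul, ← hC2] at htail
  -- conclusion
  have hφ0 : φ 0 = 1 := by simp [hφ]
  simp only [hφ0, one_mul] at hcl
  have hrep' : ∫ y : ℝ, φ (x1 + y * I) * V (x1 + y * I) = 2 * Real.pi * J f q w0 := hrep
  rw [hrep'] at htail
  set Y := ∫ y in (-L)..L, φ (x1 + y * I) * V (x1 + y * I) with hY
  have hfin : ‖2 * (Real.pi : ℂ) * (J f q w0 - B 0)‖ ≤ C3 * Real.exp (-(c * T)) := by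
    have e : 2 * (Real.pi : ℂ) * (J f q w0 - B 0) =
        (2 * Real.pi * J f q w0 - Y) + (Y - 2 * Real.pi * B 0) := by ring
    rw [e]
    refine (norm_add_le _ _).trans ((add_le_add htail hcl).trans (le_of_eq ?_))
    rw [hC3]
    ring
  rw [norm_mul, norm_mul, Complex.norm_real, Real.norm_eq_abs, abs_of_pos Real.pi_pos,
    Complex.norm_ofNat] at hfin
  have hpi := Real.pi_gt_three
  have hn := norm_nonneg (J f q w0 - B 0)
  have hT' : C3 * Real.exp (-(c * T)) < ε := hT
  have h1n : 1 * ‖J f q w0 - B 0‖ ≤ 2 * Real.pi * ‖J f q w0 - B 0‖ :=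
    mul_le_mul_of_nonneg_right (by linarith) hn
  linarith

end

end Pool.Agent.W190.W
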