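import Pool.Agent.W190.W.W4

/-! # Tails of Gaussian averages and a Bessel inequality -/

set_option autoImplicit false

open Complex Filter Topology Set Metric MeasureTheory
open Pool.Agent.W190

namespace Pool.Agent.W190.W

noncomputable section

/-- exponential growth -/
def EG (f : ℝ → ℂ) (C B : ℝ) : Prop := ∀ w : ℝ, ‖f w‖ ≤ C * Real.exp (B * w)

theorem gs_shift_int {q : ℝ} (hq : 0 < q) (w0 : ℝ) : Integrable (fun w => gs q (w0 - w)) :=
  (gs_int hq).comp_sub_left w0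

theorem gs_shift_total {q : ℝ} (hq : 0 < q) (w0 : ℝ) : ∫ w, gs q (w0 - w) = 1 := by
  rw [integral_sub_left_eq_self (fun w => gs q w) volume w0, gs_total hq]

theorem exp_gs_le {q : ℝ} (hq : 0 < q) (B w0 w : ℝ) :
    Real.exp (B * w) * gs q (w0 - w) ≤
      (√(2 * Real.pi * q))⁻¹ * Real.exp (B * w0 + q * B ^ 2) * Real.exp (-(1 / (4 * q)) * (w - w0) ^ 2) := by
  unfold gs
  rw [mul_left_comm, ← Real.exp_add, mul_assoc (√(2 * Real.pi * q))⁻¹, ← Real.exp_add]
  refine mul_le_mul_of_nonneg_left (Real.exp_le_exp.2 ?_) (by positivity)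
  have h1 : 0 ≤ (w - w0 - 2 * q * B) ^ 2 / (4 * q) := by positivity
  have h2 : (w - w0 - 2 * q * B) ^ 2 / (4 * q) = (w - w0) ^ 2 / (4 * q) - (w - w0) * B + q * B ^ 2 := by
    field_simp
    ring
  have h3 : -(w0 - w) ^ 2 / (2 * q) = -((w - w0) ^ 2 / (4 * q)) - (1 / (4 * q)) * (w - w0) ^ 2 := by
    field_simp
    ring
  rw [h3]
  rw [h2] at h1
  linarith

theorem exp_gs_int {q : ℝ} (hq : 0 < q) (B w0 : ℝ) :
    Integrable (fun w => Real.exp (B * w) * gs q (w0 - w)) := by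
  have h1 := ((integrable_exp_neg_mul_sq (show 0 < 1 / (4 * q) by positivity)).comp_sub_right w0).const_mul
    ((√(2 * Real.pi * q))⁻¹ * Real.exp (B * w0 + q * B ^ 2))
  refine h1.mono' ?_ (ae_of_all _ fun w => ?_)
  · have := gs_cont q
    exact (by fun_prop : Continuous _).aestronglyMeasurable
  · rw [Real.norm_eq_abs, abs_of_nonneg (mul_nonneg (Real.exp_pos _).le (gs_nonneg _ _))]
    exact exp_gs_le hq B w0 w

theorem sq_gs_int {f : ℝ → ℂ} (hfm : AEStronglyMeasurable f volume) {C B : ℝ} (hf : EG f C B)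
    {q : ℝ} (hq : 0 < q) (w0 : ℝ) : Integrable (fun w => ‖f w‖ ^ 2 * gs q (w0 - w)) := by
  refine ((exp_gs_int hq (2 * B) w0).const_mul (C ^ 2)).mono' ?_ (ae_of_all _ fun w => ?_)
  · have := (gs_cont q)
    exact (hfm.norm.pow 2).mul (by fun_prop : Continuous fun w => gs q (w0 - w)).aestronglyMeasurable
  · rw [Real.norm_eq_abs, abs_of_nonneg (mul_nonneg (by positivity) (gs_nonneg _ _)), ← mul_assoc]
    refine mul_le_mul_of_nonneg_right ?_ (gs_nonneg _ _)
    calc ‖f w‖ ^ 2 ≤ (C * Real.exp (B * w)) ^ 2 := pow_le_pow_left₀ (norm_nonneg _) (hf w) 2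
      _ = _ := by
        rw [mul_pow, ← Real.exp_nat_mul]
        congr 2
        push_cast
        ring

theorem f_gs_int {f : ℝ → ℂ} (hfm : AEStronglyMeasurable f volume) {C B : ℝ} (hf : EG f C B)
    {q : ℝ} (hq : 0 < q) (w0 : ℝ) : Integrable (fun w => f w * (gs q (w0 - w) : ℝ)) := by
  refine ((exp_gs_int hq B w0).const_mul C).mono' ?_ (ae_of_all _ fun w => ?_)
  · have := (gs_cont q)
    exact hfm.mul (by fun_prop : Continuous fun w => ((gs q (w0 - w) : ℝ) : ℂ)).aestronglyMeasurable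
  · rw [norm_mul, Complex.norm_real, Real.norm_eq_abs, abs_of_nonneg (gs_nonneg _ _), ← mul_assoc]
    exact mul_le_mul_of_nonneg_right (hf w) (gs_nonneg _ _)

/-- pointwise bound outside of the window -/
theorem tail_point {f : ℝ → ℂ} {C B : ℝ} (hB : 0 ≤ B) (hf : EG f C B) {η Λ K T : ℝ} (hη : 0 < η)
    (hΛ : 0 ≤ Λ) (hK : 0 < K) (hKe : 2 * B + 1 + (2 * B * Λ + 1) / η ≤ η / (2 * K)) (hT : 0 < T)
    (hKT : 1 ≤ K * T) {w0 w : ℝ} (hw0 : w0 ≤ Λ * T) (hw : η * T ≤ |w - w0|) :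
    ‖f w‖ ^ 2 * gs (K * T) (w0 - w) ≤ C ^ 2 * Real.exp (-T) * Real.exp (-|w - w0|) := by
  set X := |w - w0| with hX
  have hX0 : 0 ≤ X := abs_nonneg _
  have h1 : ‖f w‖ ^ 2 ≤ C ^ 2 * Real.exp (2 * B * (Λ * T + X)) := by
    calc ‖f w‖ ^ 2 ≤ (C * Real.exp (B * w)) ^ 2 := pow_le_pow_left₀ (norm_nonneg _) (hf w) 2
      _ = C ^ 2 * Real.exp (2 * B * w) := by
        rw [mul_pow, ← Real.exp_nat_mul]
        congr 2
        push_cast
        ring
      _ ≤ _ := by
        refine mul_le_mul_of_nonneg_left (Real.exp_le_exp.2 ?_) (sq_nonneg _)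
        refine mul_le_mul_of_nonneg_left ?_ (by positivity)
        have := le_abs_self (w - w0)
        linarith
  have h2 : gs (K * T) (w0 - w) ≤ Real.exp (-(X * (η / (2 * K)))) := by
    refine (gs_le hKT _).trans (Real.exp_le_exp.2 ?_)
    have e1 : (w0 - w) ^ 2 = X ^ 2 := by rw [hX, sq_abs]; ring
    rw [e1]
    have e2 : X * (η / (2 * K)) = X * (η * T) / (2 * (K * T)) := by
      field_simp
    rw [e2, neg_div, neg_le_neg_iff]
    refine div_le_div_of_nonneg_right ?_ (by positivity)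
    rw [sq]
    exact mul_le_mul_of_nonneg_left hw hX0
  calc _ ≤ (C ^ 2 * Real.exp (2 * B * (Λ * T + X))) * Real.exp (-(X * (η / (2 * K)))) :=
        mul_le_mul h1 h2 (gs_nonneg _ _) (by positivity)
    _ = C ^ 2 * Real.exp (2 * B * (Λ * T + X) - X * (η / (2 * K))) := by
        rw [mul_assoc, ← Real.exp_add]; rfl
    _ ≤ C ^ 2 * Real.exp (-T + -X) := by
        refine mul_le_mul_of_nonneg_left (Real.exp_le_exp.2 ?_) (sq_nonneg _)
        have h3 : X * (2 * B + 1 + (2 * B * Λ + 1) / η) ≤ X * (η / (2 * K)) :=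
          mul_le_mul_of_nonneg_left hKe hX0
        have h4 : (2 * B * Λ + 1) * T ≤ X * ((2 * B * Λ + 1) / η) := by
          rw [mul_div_assoc', le_div_iff₀ hη]
          have h5 : (2 * B * Λ + 1) * (η * T) ≤ (2 * B * Λ + 1) * X :=
            mul_le_mul_of_nonneg_left hw (by positivity)
          linarith
        have h6 : X * (2 * B + 1 + (2 * B * Λ + 1) / η) = 2 * B * X + X + X * ((2 * B * Λ + 1) / η) := by
          ring
        have h7 : 2 * B * (Λ * T + X) = (2 * B * Λ + 1) * T - T + 2 * B * X := by ring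
        linarith
    _ = _ := by rw [Real.exp_add]; ring

theorem exp_abs_le (x : ℝ) : Real.exp (-|x|) ≤ 2 * (1 + x ^ 2)⁻¹ := by
  have h1 : (1 + x ^ 2) / 2 ≤ Real.exp |x| := by
    have h2 := Real.quadratic_le_exp_of_nonneg (abs_nonneg x)
    rw [sq_abs] at h2
    have h3 := abs_nonneg x
    linarith
  rw [Real.exp_neg]
  have h4 : 0 < (1 + x ^ 2) / 2 := by positivity
  calc (Real.exp |x|)⁻¹ ≤ ((1 + x ^ 2) / 2)⁻¹ := inv_anti₀ h4 h1
    _ = _ := by rw [inv_div]; rfl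

theorem cauchy_int (w0 : ℝ) : Integrable (fun w : ℝ => 2 * (1 + (w - w0) ^ 2)⁻¹) ∧
    ∫ w : ℝ, 2 * (1 + (w - w0) ^ 2)⁻¹ = 2 * Real.pi := by
  refine ⟨(integrable_inv_one_add_sq.comp_sub_right w0).const_mul 2, ?_⟩
  rw [integral_const_mul, integral_sub_right_eq_self (fun w => (1 + w ^ 2)⁻¹) w0,
    integral_univ_inv_one_add_sq]

/-- the Gaussian average outside of a window is negligible -/
theorem tail_window {f : ℝ → ℂ} (hfm : AEStronglyMeasurable f volume) {C B : ℝ} (hB : 0 ≤ B)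
    (hf : EG f C B) {η Λ K T : ℝ} (hη : 0 < η)
    (hΛ : 0 ≤ Λ) (hK : 0 < K) (hKe : 2 * B + 1 + (2 * B * Λ + 1) / η ≤ η / (2 * K)) (hT : 0 < T)
    (hKT : 1 ≤ K * T) {w0 a b : ℝ} (hw0 : w0 ≤ Λ * T) (ha : a ≤ w0 - η * T) (hb : w0 + η * T ≤ b) :
    (∫ w, ‖f w‖ ^ 2 * gs (K * T) (w0 - w)) ≤
      (∫ w in Ioc a b, ‖f w‖ ^ 2 * gs (K * T) (w0 - w)) + C ^ 2 * Real.exp (-T) * (2 * Real.pi) := by
  have hq : 0 < K * T := by positivity
  have hi := sq_gs_int hfm hf hq w0
  rw [← integral_add_compl (measurableSet_Ioc (a := a) (b := b)) hi]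
  refine add_le_add le_rfl ?_
  obtain ⟨hc1, hc2⟩ := cauchy_int w0
  calc ∫ w in (Ioc a b)ᶜ, ‖f w‖ ^ 2 * gs (K * T) (w0 - w)
      ≤ ∫ w in (Ioc a b)ᶜ, C ^ 2 * Real.exp (-T) * (2 * (1 + (w - w0) ^ 2)⁻¹) := by
        refine setIntegral_mono_on hi.integrableOn (hc1.const_mul _).integrableOn
          measurableSet_Ioc.compl fun w hw => ?_
        have hw' : η * T ≤ |w - w0| := by
          rw [mem_compl_iff, mem_Ioc, not_and, not_le] at hw
          by_cases h : a < w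
          · have := hw h
            exact le_trans (by linarith) (le_abs_self _)
          · exact le_trans (by linarith [not_lt.1 h]) (neg_le_abs _)
        refine (tail_point hB hf hη hΛ hK hKe hT hKT hw0 hw').trans ?_
        exact mul_le_mul_of_nonneg_left (exp_abs_le _) (by positivity)
    _ ≤ ∫ w, C ^ 2 * Real.exp (-T) * (2 * (1 + (w - w0) ^ 2)⁻¹) :=
        setIntegral_le_integral (hc1.const_mul _) (ae_of_all _ fun w => by positivity)
    _ = _ := by rw [integral_const_mul, hc2]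

end

end Pool.Agent.W190.W
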