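import Pool.Agent.W190.W.W5

/-! # A Bessel inequality for Gaussian averages -/

set_option autoImplicit false

open Complex Filter Topology Set Metric MeasureTheory
open Pool.Agent.W190
open scoped ComplexConjugate

namespace Pool.Agent.W190.W

noncomputable section

/-- modulation -/
def md (g : ℝ) (f : ℝ → ℂ) (w : ℝ) : ℂ := f w * cexp (-(g * I * w))

theorem norm_cis (t : ℝ) : ‖cexp (-(t * I))‖ = 1 := by
  rw [Complex.norm_exp]; simp

theorem md_norm (g : ℝ) (f : ℝ → ℂ) (w : ℝ) : ‖md g f w‖ = ‖f w‖ := by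
  unfold md
  have : -((g : ℂ) * I * w) = -(((g * w : ℝ) : ℂ) * I) := by push_cast; ring
  rw [norm_mul, this, norm_cis, mul_one]

theorem md_EG {f : ℝ → ℂ} {C B : ℝ} (hf : EG f C B) (g : ℝ) : EG (md g f) C B := fun w => by
  rw [md_norm]; exact hf w

theorem md_meas {f : ℝ → ℂ} (hfm : AEStronglyMeasurable f volume) (g : ℝ) :
    AEStronglyMeasurable (md g f) volume :=
  hfm.mul (by fun_prop : Continuous fun w : ℝ => cexp (-(g * I * w))).aestronglyMeasurable

theorem gs_fourier {q : ℝ} (hq : 0 < q) (t w0 : ℝ) :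
    ∫ w : ℝ, cexp (t * I * w) * (gs q (w0 - w) : ℝ) = cexp (t * I * w0 - q * t ^ 2 / 2) := by
  have hqc : (q : ℂ) ≠ 0 := by exact_mod_cast hq.ne'
  have hb : (-(1 / (2 * q) : ℂ)).re < 0 := by
    have : (-(1 / (2 * q) : ℂ)).re = -(1 / (2 * q)) := by
      rw [show (-(1 / (2 * q) : ℂ)) = ((-(1 / (2 * q)) : ℝ) : ℂ) by push_cast; ring, Complex.ofReal_re]
    rw [this]
    have : 0 < 1 / (2 * q) := by positivity
    linarith
  have h1 := integral_cexp_quadratic hb (w0 / q + t * I) (-(w0 ^ 2) / (2 * q))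
  have e1 : (fun w : ℝ => cexp (t * I * w) * (gs q (w0 - w) : ℝ)) =
      fun w : ℝ => ((√(2 * Real.pi * q))⁻¹ : ℂ) * cexp (-(1 / (2 * q) : ℂ) * (w : ℂ) ^ 2 + (w0 / q + t * I) * w +
        (-(w0 ^ 2) / (2 * q))) := by
    funext w
    unfold gs
    rw [Complex.ofReal_mul, Complex.ofReal_exp, Complex.ofReal_inv, mul_left_comm, ← Complex.exp_add]
    congr 2
    push_cast
    field_simp
    ring
  rw [e1, integral_const_mul, h1]
  have e2 : (-((w0 : ℂ) ^ 2) / (2 * q) - (w0 / q + t * I) ^ 2 / (4 * (-(1 / (2 * q) : ℂ))) : ℂ) =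
      t * I * w0 - q * t ^ 2 / 2 := by
    have hI : I ^ 2 = -1 := Complex.I_sq
    field_simp
    linear_combination (4 * q ^ 2 * (t : ℂ) ^ 2) * hI
  rw [e2]
  have e3 : ((Real.pi : ℂ) / -(-(1 / (2 * q) : ℂ))) ^ (1 / 2 : ℂ) = ((√(2 * Real.pi * q) : ℝ) : ℂ) := by
    have h2 : ((Real.pi : ℂ) / -(-(1 / (2 * q) : ℂ))) = ((2 * Real.pi * q : ℝ) : ℂ) := by
      push_cast
      field_simp
    rw [h2]
    have h3 : (1 / 2 : ℂ) = ((1 / 2 : ℝ) : ℂ) := by push_cast; ring
    rw [h3, ← Complex.ofReal_cpow (by positivity), ← Real.sqrt_eq_rpow]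
  rw [e3, ← mul_assoc]
  have h4 : ((√(2 * Real.pi * q))⁻¹ : ℂ) * ((√(2 * Real.pi * q) : ℝ) : ℂ) = 1 := by
    rw [inv_mul_cancel₀]
    have : 0 < √(2 * Real.pi * q) := by positivity
    exact_mod_cast this.ne'
  rw [h4, one_mul]

theorem cis_gs_int {q : ℝ} (hq : 0 < q) (t w0 : ℝ) :
    Integrable (fun w : ℝ => cexp (t * I * w) * (gs q (w0 - w) : ℝ)) := by
  refine (gs_shift_int hq w0).mono' ?_ (ae_of_all _ fun w => ?_)
  · have := gs_cont q
    exact (by fun_prop : Continuous _).aestronglyMeasurable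
  · have : (t : ℂ) * I * w = -(((-(t * w) : ℝ) : ℂ) * I) := by push_cast; ring
    rw [norm_mul, this, norm_cis, one_mul, Complex.norm_real, Real.norm_eq_abs,
      abs_of_nonneg (gs_nonneg _ _)]

theorem bessel_ineq {f : ℝ → ℂ} (hfm : AEStronglyMeasurable f volume) {C B : ℝ} (hf : EG f C B)
    {q : ℝ} (hq : 0 < q) (w0 : ℝ) (S : Finset ℝ) (c : ℝ → ℂ) :
    2 * (∑ g ∈ S, conj (c g) * J (md g f) q w0).re -
      (∑ g ∈ S, ∑ g' ∈ S, conj (c g) * c g' * cexp ((g' - g : ℝ) * I * w0 - q * (g' - g : ℝ) ^ 2 / 2)).re ≤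
      ∫ w, ‖f w‖ ^ 2 * gs q (w0 - w) := by
  have i1 : ∀ g ∈ S, Integrable (fun w => conj (c g) * (md g f w * (gs q (w0 - w) : ℝ))) :=
    fun g _ => (f_gs_int (md_meas hfm g) (md_EG hf g) hq w0).const_mul _
  have i2 : ∀ g ∈ S, ∀ g' ∈ S, Integrable (fun w : ℝ =>
      conj (c g) * c g' * (cexp ((g' - g : ℝ) * I * w) * (gs q (w0 - w) : ℝ))) :=
    fun g _ g' _ => (cis_gs_int hq (g' - g) w0).const_mul _
  set G : ℝ → ℂ := fun w => 2 * (∑ g ∈ S, conj (c g) * (md g f w * (gs q (w0 - w) : ℝ))) -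
    ∑ g ∈ S, ∑ g' ∈ S, conj (c g) * c g' * (cexp ((g' - g : ℝ) * I * w) * (gs q (w0 - w) : ℝ)) with hG
  have j1 : Integrable (fun w => 2 * (∑ g ∈ S, conj (c g) * (md g f w * (gs q (w0 - w) : ℝ)))) :=
    (integrable_finsetSum S i1).const_mul 2
  have j2 : Integrable (fun w : ℝ => ∑ g ∈ S, ∑ g' ∈ S, conj (c g) * c g' *
      (cexp ((g' - g : ℝ) * I * w) * (gs q (w0 - w) : ℝ))) :=
    integrable_finsetSum S fun g hg => integrable_finsetSum S fun g' hg' => i2 g hg g' hg'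
  have hGi : Integrable G := j1.sub j2
  have hGv : ∫ w, G w = 2 * (∑ g ∈ S, conj (c g) * J (md g f) q w0) -
      ∑ g ∈ S, ∑ g' ∈ S, conj (c g) * c g' * cexp ((g' - g : ℝ) * I * w0 - q * (g' - g : ℝ) ^ 2 / 2) := by
    rw [hG, integral_sub j1 j2, integral_const_mul, integral_finsetSum S i1,
      integral_finsetSum S fun g hg => integrable_finsetSum S fun g' hg' => i2 g hg g' hg']
    congr 1
    · congr 1
      refine Finset.sum_congr rfl fun g _ => ?_
      rw [integral_const_mul]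
      rfl
    · refine Finset.sum_congr rfl fun g hg => ?_
      rw [integral_finsetSum S fun g' hg' => i2 g hg g' hg']
      refine Finset.sum_congr rfl fun g' _ => ?_
      rw [integral_const_mul, gs_fourier hq]
  have hre : (∫ w, G w).re = ∫ w, (G w).re := by
    have := integral_re hGi
    simpa using this.symm
  have hlhs : 2 * (∑ g ∈ S, conj (c g) * J (md g f) q w0).re -
      (∑ g ∈ S, ∑ g' ∈ S, conj (c g) * c g' * cexp ((g' - g : ℝ) * I * w0 - q * (g' - g : ℝ) ^ 2 / 2)).re =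
      (∫ w, G w).re := by
    rw [hGv, Complex.sub_re]
    congr 1
    simp
  rw [hlhs, hre]
  refine integral_mono hGi.re (sq_gs_int hfm hf hq w0) fun w => ?_
  simp only
  set P : ℂ := ∑ g ∈ S, c g * cexp (g * I * w) with hP
  have hcP : conj P = ∑ g ∈ S, conj (c g) * cexp (-(g * I * w)) := by
    rw [hP, map_sum]
    refine Finset.sum_congr rfl fun g _ => ?_
    rw [map_mul, ← Complex.exp_conj]
    congr 2
    simp
  have hg1 : G w = (2 * (f w * conj P) - P * conj P) * (gs q (w0 - w) : ℝ) := by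
    rw [hG]
    simp only
    have a1 : ∑ g ∈ S, conj (c g) * (md g f w * (gs q (w0 - w) : ℝ)) = f w * conj P * (gs q (w0 - w) : ℝ) := by
      rw [hcP, Finset.mul_sum, Finset.sum_mul]
      refine Finset.sum_congr rfl fun g _ => ?_
      unfold md
      ring
    have a2 : ∑ g ∈ S, ∑ g' ∈ S, conj (c g) * c g' * (cexp ((g' - g : ℝ) * I * w) * (gs q (w0 - w) : ℝ)) =
        P * conj P * (gs q (w0 - w) : ℝ) := by
      rw [hcP, hP, Finset.sum_mul_sum, Finset.sum_mul, Finset.sum_comm]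
      refine Finset.sum_congr rfl fun g' _ => ?_
      rw [Finset.sum_mul]
      refine Finset.sum_congr rfl fun g _ => ?_
      have : cexp ((g' - g : ℝ) * I * w) = cexp (g' * I * w) * cexp (-(g * I * w)) := by
        rw [← Complex.exp_add]
        congr 1
        push_cast
        ring
      rw [this]
      ring
    rw [a1, a2]
    ring
  have hg2 : RCLike.re (G w) = (2 * (f w * conj P).re - ‖P‖ ^ 2) * gs q (w0 - w) := by
    rw [hg1]
    simp only [RCLike.re_eq_complex_re]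
    rw [Complex.re_mul_ofReal, Complex.sub_re, Complex.mul_conj, Complex.ofReal_re,
      Complex.normSq_eq_norm_sq]
    congr 2
    simp
  have hg2' : (G w).re = (2 * (f w * conj P).re - ‖P‖ ^ 2) * gs q (w0 - w) := hg2
  rw [hg2']
  refine mul_le_mul_of_nonneg_right ?_ (gs_nonneg _ _)
  have h1 := Complex.normSq_sub (f w) P
  have h2 := Complex.normSq_nonneg (f w - P)
  rw [Complex.normSq_eq_norm_sq (f w), Complex.normSq_eq_norm_sq P] at h1
  linarith

theorem bessel_lim {f : ℝ → ℂ} (hfm : AEStronglyMeasurable f volume) {C B : ℝ} (hf : EG f C B)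
    {K Λ : ℝ} (hK : 0 < K) (S : Finset ℝ) (c : ℝ → ℂ)
    (hJ : ∀ g ∈ S, ∀ ε : ℝ, 0 < ε → ∀ᶠ T : ℝ in atTop, ∀ w0 : ℝ, T ≤ w0 → w0 ≤ Λ * T →
      ‖J (md g f) (K * T) w0 - c g‖ ≤ ε) {ε : ℝ} (hε : 0 < ε) :
    ∀ᶠ T : ℝ in atTop, ∀ w0 : ℝ, T ≤ w0 → w0 ≤ Λ * T →
      ∑ g ∈ S, ‖c g‖ ^ 2 - ε ≤ ∫ w, ‖f w‖ ^ 2 * gs (K * T) (w0 - w) := by
  set N := ∑ g ∈ S, ‖c g‖ with hN
  have hN0 : 0 ≤ N := Finset.sum_nonneg fun g _ => norm_nonneg _
  set e1 := ε / (4 * (N + 1)) with he1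
  have he10 : 0 < e1 := by rw [he1]; positivity
  set e2 := ε / (2 * ((S.card : ℝ) ^ 2 + 1)) with he2
  have he20 : 0 < e2 := by rw [he2]; positivity
  have ev1 : ∀ᶠ T : ℝ in atTop, ∀ g ∈ S, ∀ w0 : ℝ, T ≤ w0 → w0 ≤ Λ * T →
      ‖J (md g f) (K * T) w0 - c g‖ ≤ e1 :=
    (Filter.eventually_all_finset S).2 fun g hg => hJ g hg e1 he10
  have ev2 : ∀ᶠ T : ℝ in atTop, ∀ g ∈ S, ∀ g' ∈ S, g' ≠ g →
      ‖c g‖ * ‖c g'‖ * Real.exp (-((K * (g' - g) ^ 2 / 2) * T)) ≤ e2 := by
    refine (Filter.eventually_all_finset S).2 fun g _ => (Filter.eventually_all_finset S).2 fun g' _ => ?_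
    by_cases h : g' = g
    · exact Eventually.of_forall fun T h' => absurd h h'
    · have hpos : 0 < K * (g' - g) ^ 2 / 2 := by
        have : g' - g ≠ 0 := sub_ne_zero.2 h
        positivity
      have h1 : Tendsto (fun T : ℝ => ‖c g‖ * ‖c g'‖ * Real.exp (-((K * (g' - g) ^ 2 / 2) * T))) atTop (𝓝 0) := by
        have h2 : Tendsto (fun T : ℝ => Real.exp (-((K * (g' - g) ^ 2 / 2) * T))) atTop (𝓝 0) := by
          refine Real.tendsto_exp_atBot.comp (tendsto_neg_atTop_atBot.comp ?_)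
          exact tendsto_id.const_mul_atTop hpos
        simpa using h2.const_mul (‖c g‖ * ‖c g'‖)
      filter_upwards [h1.eventually (Iio_mem_nhds he20)] with T hT _
      exact le_of_lt hT
  filter_upwards [ev1, ev2, eventually_gt_atTop (0:ℝ)] with T h1 h2 hT0
  intro w0 hw1 hw2
  have hb := bessel_ineq hfm hf (by positivity : 0 < K * T) w0 S c
  refine le_trans ?_ hb
  have hA : ∑ g ∈ S, ‖c g‖ ^ 2 - N * e1 ≤ (∑ g ∈ S, conj (c g) * J (md g f) (K * T) w0).re := by
    rw [Complex.re_sum, hN, Finset.sum_mul, ← Finset.sum_sub_distrib]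
    refine Finset.sum_le_sum fun g hg => ?_
    have e : conj (c g) * J (md g f) (K * T) w0 = ((‖c g‖ ^ 2 : ℝ) : ℂ) +
        conj (c g) * (J (md g f) (K * T) w0 - c g) := by
      rw [mul_sub, Complex.conj_mul']
      push_cast
      ring
    rw [e, Complex.add_re, Complex.ofReal_re]
    have h3 := Complex.abs_re_le_norm (conj (c g) * (J (md g f) (K * T) w0 - c g))
    rw [norm_mul, Complex.norm_conj] at h3
    have h4 := (abs_le.1 h3).1
    have h5 : ‖c g‖ * ‖J (md g f) (K * T) w0 - c g‖ ≤ ‖c g‖ * e1 :=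
      mul_le_mul_of_nonneg_left (h1 g hg w0 hw1 hw2) (norm_nonneg _)
    linarith
  have hD : (∑ g ∈ S, ∑ g' ∈ S, conj (c g) * c g' *
      cexp ((g' - g : ℝ) * I * w0 - (K * T : ℝ) * (g' - g : ℝ) ^ 2 / 2)).re ≤
      ∑ g ∈ S, ‖c g‖ ^ 2 + (S.card : ℝ) ^ 2 * e2 := by
    rw [Complex.re_sum]
    have hg : ∀ g ∈ S, (∑ g' ∈ S, conj (c g) * c g' *
        cexp ((g' - g : ℝ) * I * w0 - (K * T : ℝ) * (g' - g : ℝ) ^ 2 / 2)).re ≤
        ‖c g‖ ^ 2 + (S.card : ℝ) * e2 := by
      intro g hg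
      rw [Complex.re_sum]
      have : ∀ g' ∈ S, (conj (c g) * c g' *
          cexp ((g' - g : ℝ) * I * w0 - (K * T : ℝ) * (g' - g : ℝ) ^ 2 / 2)).re ≤
          (if g' = g then ‖c g‖ ^ 2 else 0) + e2 := by
        intro g' hg'
        by_cases h : g' = g
        · subst h
          rw [if_pos rfl]
          simp only [sub_self, Complex.ofReal_zero, zero_mul]
          have e : conj (c g') * c g' * cexp (0 - (K * T : ℝ) * (0:ℂ) ^ 2 / 2) = ((‖c g'‖ ^ 2 : ℝ) : ℂ) := by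
            rw [Complex.conj_mul']
            simp
          rw [e, Complex.ofReal_re]
          linarith
        · rw [if_neg h, zero_add]
          refine (Complex.re_le_norm _).trans ?_
          rw [norm_mul, norm_mul, Complex.norm_conj, Complex.norm_exp]
          have e : ((g' - g : ℝ) * I * w0 - (K * T : ℝ) * (g' - g : ℝ) ^ 2 / 2 : ℂ).re =
              -((K * (g' - g) ^ 2 / 2) * T) := by
            have : ((g' - g : ℝ) * I * w0 - (K * T : ℝ) * (g' - g : ℝ) ^ 2 / 2 : ℂ) =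
                ((-((K * (g' - g) ^ 2 / 2) * T) : ℝ) : ℂ) + (((g' - g) * w0 : ℝ) : ℂ) * I := by
              push_cast
              ring
            rw [this, Complex.add_re, Complex.ofReal_re, Complex.re_ofReal_mul, Complex.I_re, mul_zero,
              add_zero]
          rw [e]
          exact h2 g hg g' hg' h
      refine (Finset.sum_le_sum this).trans (le_of_eq ?_)
      rw [Finset.sum_add_distrib, Finset.sum_ite_eq' S g, if_pos hg, Finset.sum_const, nsmul_eq_mul]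
    refine (Finset.sum_le_sum hg).trans (le_of_eq ?_)
    rw [Finset.sum_add_distrib, Finset.sum_const, nsmul_eq_mul]
    ring
  have hf1 : N * e1 ≤ ε / 4 := by
    rw [he1, mul_div_assoc', div_le_div_iff₀ (by positivity) (by norm_num)]
    nlinarith
  have hf2 : (S.card : ℝ) ^ 2 * e2 ≤ ε / 2 := by
    rw [he2, mul_div_assoc', div_le_div_iff₀ (by positivity) (by norm_num)]
    nlinarith [sq_nonneg (S.card : ℝ)]
  linarith

end

end Pool.Agent.W190.W
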