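import Pool.Agent.W190.W.W6

/-! # From Gaussian averages to windows -/

set_option autoImplicit false

open Complex Filter Topology Set Metric MeasureTheory
open Pool.Agent.W190

namespace Pool.Agent.W190.W

noncomputable section

theorem sq_int_on {f : ℝ → ℂ} (hfm : AEStronglyMeasurable f volume) {C B : ℝ} (hB : 0 ≤ B)
    (hf : EG f C B) (a b : ℝ) : IntegrableOn (fun w => ‖f w‖ ^ 2) (Ioc a b) := by
  have hc : IntegrableOn (fun _ : ℝ => (|C| * Real.exp (B * b)) ^ 2) (Ioc a b) :=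
    integrableOn_const (by simp)
  refine hc.mono' (hfm.norm.pow 2).restrict ?_
  filter_upwards [ae_restrict_mem measurableSet_Ioc] with w hw
  rw [Real.norm_eq_abs, abs_of_nonneg (by positivity)]
  refine pow_le_pow_left₀ (norm_nonneg _) ((hf w).trans ?_) 2
  refine mul_le_mul (le_abs_self C) (Real.exp_le_exp.2 (mul_le_mul_of_nonneg_left hw.2 hB))
    (Real.exp_pos _).le (abs_nonneg _)

theorem avg_window {f : ℝ → ℂ} (hfm : AEStronglyMeasurable f volume) {C B : ℝ} (hB : 0 ≤ B)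
    (hf : EG f C B) {q : ℝ} (hq : 0 < q) {a b c d S : ℝ} (hcd : c ≤ d)
    (hl : ∀ w0 : ℝ, c < w0 → w0 ≤ d → S ≤ ∫ w in Ioc a b, ‖f w‖ ^ 2 * gs q (w0 - w)) :
    (d - c) * S ≤ ∫ w in Ioc a b, ‖f w‖ ^ 2 := by
  have hsq := sq_int_on hfm hB hf a b
  have hgb : ∀ x, gs q x ≤ (√(2 * Real.pi * q))⁻¹ := fun x => by
    unfold gs
    refine mul_le_of_le_one_right (by positivity) ?_
    rw [Real.exp_le_one_iff]
    have : 0 ≤ x ^ 2 / (2 * q) := by positivity
    rw [neg_div]
    linarith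
  have hgc := gs_cont q
  have hprod : Integrable (Function.uncurry fun (w0 : ℝ) (w : ℝ) => ‖f w‖ ^ 2 * gs q (w0 - w))
      ((volume.restrict (Ioc c d)).prod (volume.restrict (Ioc a b))) := by
    have h1 : Integrable (fun _ : ℝ => (√(2 * Real.pi * q))⁻¹) (volume.restrict (Ioc c d)) :=
      integrableOn_const (by simp)
    refine (h1.mul_prod hsq).mono' ?_ (ae_of_all _ fun p => ?_)
    · have h2 : AEStronglyMeasurable (fun p : ℝ × ℝ => ‖f p.2‖ ^ 2)
          ((volume.restrict (Ioc c d)).prod (volume.restrict (Ioc a b))) :=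
        (hfm.restrict.norm.pow 2).comp_snd
      exact h2.mul (by fun_prop : Continuous fun p : ℝ × ℝ => gs q (p.1 - p.2)).aestronglyMeasurable
    · simp only [Function.uncurry]
      rw [Real.norm_eq_abs, abs_of_nonneg (mul_nonneg (by positivity) (gs_nonneg _ _)), mul_comm]
      exact mul_le_mul_of_nonneg_right (hgb _) (by positivity)
  have hswap := integral_integral_swap hprod
  have hleft : (d - c) * S ≤ ∫ w0 in Ioc c d, ∫ w in Ioc a b, ‖f w‖ ^ 2 * gs q (w0 - w) := by
    have h1 : ∫ _ in Ioc c d, S = (d - c) * S := by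
      rw [setIntegral_const, smul_eq_mul, Measure.real, Real.volume_Ioc,
        ENNReal.toReal_ofReal (by linarith)]
    rw [← h1]
    refine setIntegral_mono_on (integrableOn_const (by simp)) hprod.integral_prod_left
      measurableSet_Ioc fun w0 hw0 => hl w0 hw0.1 hw0.2
  refine hleft.trans ?_
  rw [hswap]
  refine integral_mono hprod.integral_prod_right hsq fun w => ?_
  simp only
  rw [integral_const_mul]
  refine mul_le_of_le_one_right (by positivity) ?_
  have h2 : Integrable (fun w0 => gs q (w0 - w)) := (gs_int hq).comp_sub_right w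
  calc ∫ w0 in Ioc c d, gs q (w0 - w) ≤ ∫ w0, gs q (w0 - w) :=
        setIntegral_le_integral h2 (ae_of_all _ fun w0 => gs_nonneg _ _)
    _ = 1 := by rw [integral_sub_right_eq_self (fun w => gs q w) w, gs_total hq]

theorem window_lower {f : ℝ → ℂ} (hfm : AEStronglyMeasurable f volume) {C B : ℝ} (hB : 0 ≤ B)
    (hf : EG f C B) {S0 : ℝ}
    (hlow : ∀ K Λ : ℝ, 0 < K → 1 ≤ Λ → ∀ ε : ℝ, 0 < ε → ∀ᶠ T : ℝ in atTop, ∀ w0 : ℝ,
      T ≤ w0 → w0 ≤ Λ * T → S0 - ε ≤ ∫ w, ‖f w‖ ^ 2 * gs (K * T) (w0 - w))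
    {e S' : ℝ} (he : 0 < e) (hS : S' < S0) :
    ∀ᶠ T : ℝ in atTop, e * S' * T ≤ ∫ w in Ioc T ((1 + e) * T), ‖f w‖ ^ 2 := by
  by_cases hS' : S' ≤ 0
  · filter_upwards [eventually_ge_atTop (0:ℝ)] with T hT
    have h1 : 0 ≤ ∫ w in Ioc T ((1 + e) * T), ‖f w‖ ^ 2 := integral_nonneg fun w => by positivity
    have h2 : e * S' * T ≤ 0 := mul_nonpos_of_nonpos_of_nonneg (mul_nonpos_of_nonneg_of_nonpos he.le hS') hT
    linarith
  rw [not_le] at hS'
  set ε1 := (S0 - S') / 4 with hε1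
  have hε10 : 0 < ε1 := by rw [hε1]; linarith
  set S1 := (S0 + S') / 2 with hS1
  have hS1e : S0 - 2 * ε1 = S1 := by rw [hε1, hS1]; ring
  have hS10 : 0 < S1 := by rw [hS1]; linarith
  have hS1S : 0 < S1 - S' := by rw [hS1]; linarith
  set κ := (S1 - S') / (2 * S1) with hκ
  have hκ0 : 0 < κ := by rw [hκ]; positivity
  have hκ1 : κ ≤ 1 / 2 := by
    rw [hκ, div_le_div_iff₀ (by positivity) (by norm_num)]
    linarith
  have hκS : (1 - 2 * κ) * S1 = S' := by
    rw [hκ]; field_simp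
    ring
  set η := e * κ with hη
  have hη0 : 0 < η := by positivity
  set Λ := 1 + e with hΛ
  have hΛ1 : 1 ≤ Λ := by linarith
  set D := 2 * B + 1 + (2 * B * Λ + 1) / η with hD
  have hD0 : 0 < D := by rw [hD]; positivity
  set K := η / (2 * D) with hK
  have hK0 : 0 < K := by rw [hK]; positivity
  have hKe : 2 * B + 1 + (2 * B * Λ + 1) / η ≤ η / (2 * K) := by
    rw [← hD, hK]
    refine le_of_eq ?_
    field_simp
  have hlim : Tendsto (fun T : ℝ => C ^ 2 * Real.exp (-T) * (2 * Real.pi)) atTop (𝓝 0) := by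
    have := (Real.tendsto_exp_neg_atTop_nhds_zero.const_mul (C ^ 2)).mul_const (2 * Real.pi)
    simpa using this
  filter_upwards [hlow K Λ hK0 hΛ1 ε1 hε10, hlim.eventually (Iio_mem_nhds hε10),
    eventually_ge_atTop (1:ℝ), eventually_ge_atTop (1 / K)] with T h1 h2 h3 h4
  have hT0 : 0 < T := by linarith
  have hKT : 1 ≤ K * T := by
    rw [div_le_iff₀ hK0] at h4
    linarith
  have h2' : C ^ 2 * Real.exp (-T) * (2 * Real.pi) < ε1 := h2
  have hηe : 2 * η ≤ e := by rw [hη]; nlinarith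
  have hmain := avg_window hfm hB hf (q := K * T) (by positivity) (a := T) (b := Λ * T)
    (c := (1 + η) * T) (d := (1 + e - η) * T) (S := S1) (by nlinarith) (fun w0 hw1 hw2 => by
      have hT1 : T ≤ w0 := by nlinarith
      have hT2 : w0 ≤ Λ * T := by rw [hΛ]; nlinarith
      have a1 := h1 w0 hT1 hT2
      have a2 := tail_window hfm hB hf hη0 (by linarith : 0 ≤ Λ) hK0 hKe hT0 hKT (w0 := w0) (a := T)
        (b := Λ * T) hT2 (by linarith) (by rw [hΛ]; linarith)
      linarith)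
  refine le_trans (le_of_eq ?_) hmain
  have : ((1 + e - η) * T - (1 + η) * T) * S1 = e * ((1 - 2 * κ) * S1) * T := by
    rw [hη]; ring
  rw [this, hκS]

end

end Pool.Agent.W190.W
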