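import Pool.Agent.W190.W.W7

/-! # Mean squares over windows and poles of the Laplace transform -/

set_option autoImplicit false

open Complex Filter Topology Set Metric MeasureTheory
open Pool.Agent.W190

namespace Pool.Agent.W190.W

noncomputable section

/-- `V` is the Laplace transform of `f` on the line `Re z = x1` -/
structure Trf (f : ℝ → ℂ) (V : ℂ → ℂ) (x1 B : ℝ) : Prop where
  meas : AEStronglyMeasurable f volume
  eg : ∃ C, EG f C B
  int : Integrable (fun w => ‖f w‖ * Real.exp (-(x1 * w)))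
  eq : ∀ z : ℂ, z.re = x1 → ∫ w : ℝ, f w * cexp (-(z * w)) = V z

variable {f : ℝ → ℂ} {V : ℂ → ℂ} {x1 B : ℝ}

theorem Trf.cint (h : Trf f V x1 B) (z : ℂ) (hz : z.re = x1) :
    Integrable (fun w : ℝ => f w * cexp (-(z * w))) := by
  refine h.int.mono' (h.meas.mul (by fun_prop : Continuous fun w : ℝ => cexp (-(z * w))).aestronglyMeasurable)
    (ae_of_all _ fun w => ?_)
  rw [norm_mul, Complex.norm_exp]
  simp [hz]

theorem Trf.md (h : Trf f V x1 B) (g : ℝ) : Trf (md g f) (fun z => V (z + g * I)) x1 B := by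
  refine ⟨md_meas h.meas g, ?_, ?_, fun z hz => ?_⟩
  · obtain ⟨C, hC⟩ := h.eg
    exact ⟨C, md_EG hC g⟩
  · simpa only [md_norm] using h.int
  · rw [← h.eq (z + g * I) (by simp [hz])]
    refine integral_congr_ae (ae_of_all _ fun w => ?_)
    simp only [W.md]
    rw [mul_assoc, ← Complex.exp_add]
    congr 2
    ring

/-- a difference -/
def d1 (d : ℝ) (f : ℝ → ℂ) (w : ℝ) : ℂ := f w - f (w + d)

theorem shift_meas (hf : AEStronglyMeasurable f volume) (d : ℝ) :
    AEStronglyMeasurable (fun w => f (w + d)) volume :=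
  hf.comp_quasiMeasurePreserving (measurePreserving_add_right volume d).quasiMeasurePreserving

theorem Trf.d1 (h : Trf f V x1 B) (d : ℝ) :
    Trf (W.d1 d f) (fun z => (1 - cexp (z * d)) * V z) x1 B := by
  have hs : Integrable (fun w => ‖f (w + d)‖ * Real.exp (-(x1 * w))) := by
    have h1 := (h.int.comp_add_right d).mul_const (Real.exp (x1 * d))
    refine h1.congr (ae_of_all _ fun w => ?_)
    simp only
    rw [mul_assoc, ← Real.exp_add]
    congr 2
    ring
  have hm := shift_meas h.meas d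
  refine ⟨h.meas.sub hm, ?_, ?_, fun z hz => ?_⟩
  · obtain ⟨C, hC⟩ := h.eg
    refine ⟨C * (1 + Real.exp (B * d)), fun w => ?_⟩
    refine (norm_sub_le _ _).trans ((add_le_add (hC w) (hC (w + d))).trans (le_of_eq ?_))
    rw [mul_add, Real.exp_add]
    ring
  · refine (h.int.add hs).mono' ?_ (ae_of_all _ fun w => ?_)
    · exact (h.meas.sub hm).norm.mul (by fun_prop : Continuous fun w => Real.exp (-(x1 * w))).aestronglyMeasurable
    · simp only [Pi.add_apply, W.d1]
      rw [Real.norm_eq_abs, abs_of_nonneg (by positivity), ← add_mul]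
      exact mul_le_mul_of_nonneg_right (norm_sub_le _ _) (Real.exp_pos _).le
  · have i1 := h.cint z hz
    have i2 : Integrable (fun w : ℝ => f (w + d) * cexp (-(z * w))) := by
      refine hs.mono' (hm.mul (by fun_prop : Continuous fun w : ℝ => cexp (-(z * w))).aestronglyMeasurable)
        (ae_of_all _ fun w => ?_)
      rw [norm_mul, Complex.norm_exp]
      simp [hz]
    have e1 : ∫ w : ℝ, W.d1 d f w * cexp (-(z * w)) =
        (∫ w : ℝ, f w * cexp (-(z * w))) - ∫ w : ℝ, f (w + d) * cexp (-(z * w)) := by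
      rw [← integral_sub i1 i2]
      refine integral_congr_ae (ae_of_all _ fun w => ?_)
      simp only [W.d1]
      ring
    have e2 : ∫ w : ℝ, f (w + d) * cexp (-(z * w)) = cexp (z * d) * ∫ w : ℝ, f w * cexp (-(z * w)) := by
      rw [← integral_add_right_eq_self (fun w : ℝ => f w * cexp (-(z * w))) d, ← integral_const_mul]
      refine integral_congr_ae (ae_of_all _ fun w => ?_)
      simp only
      rw [mul_left_comm, ← Complex.exp_add]
      congr 2
      push_cast
      ring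
    rw [e1, e2, h.eq z hz]
    ring

/-- iterated differences -/
def dn (d : ℝ) : ℕ → (ℝ → ℂ) → ℝ → ℂ
  | 0, f => f
  | n + 1, f => W.d1 d (dn d n f)

theorem Trf.dn (h : Trf f V x1 B) (d : ℝ) (n : ℕ) :
    Trf (W.dn d n f) (fun z => (1 - cexp (z * d)) ^ n * V z) x1 B := by
  induction n with
  | zero =>
    have : (fun z => (1 - cexp (z * d)) ^ 0 * V z) = V := by funext z; simp
    rw [this]
    exact h
  | succ n ih =>
    have := ih.d1 d
    have e : (fun z => (1 - cexp (z * d)) ^ (n + 1) * V z) =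
        fun z => (1 - cexp (z * d)) * ((1 - cexp (z * d)) ^ n * V z) := by
      funext z; ring
    rw [e]
    exact this

theorem sq_d1_le (hfm : AEStronglyMeasurable f volume) {C : ℝ} (hB : 0 ≤ B)
    (hf : EG f C B) {d : ℝ} (hd : 0 ≤ d) (a b : ℝ) :
    ∫ w in Ioc a b, ‖W.d1 d f w‖ ^ 2 ≤ 4 * ∫ w in Ioc a (b + d), ‖f w‖ ^ 2 := by
  have i1 := sq_int_on hfm hB hf a b
  have i3 := sq_int_on hfm hB hf a (b + d)
  have hfs : EG (fun w => f (w + d)) (C * Real.exp (B * d)) B := fun w => by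
    refine (hf (w + d)).trans (le_of_eq ?_)
    rw [mul_add, Real.exp_add]; ring
  have i2 := sq_int_on (shift_meas hfm d) hB hfs a b
  have h1 : ∫ w in Ioc a b, ‖W.d1 d f w‖ ^ 2 ≤ ∫ w in Ioc a b, (2 * ‖f w‖ ^ 2 + 2 * ‖f (w + d)‖ ^ 2) := by
    refine integral_mono_of_nonneg (ae_of_all _ fun w => by positivity)
      ((i1.const_mul 2).add (i2.const_mul 2)) (ae_of_all _ fun w => ?_)
    simp only
    have h2 : ‖W.d1 d f w‖ ≤ ‖f w‖ + ‖f (w + d)‖ := norm_sub_le _ _
    have h3 := pow_le_pow_left₀ (norm_nonneg _) h2 2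
    nlinarith [sq_nonneg (‖f w‖ - ‖f (w + d)‖)]
  refine h1.trans ?_
  rw [integral_add (i1.const_mul 2) (i2.const_mul 2), integral_const_mul, integral_const_mul]
  have h4 : ∫ w in Ioc a b, ‖f w‖ ^ 2 ≤ ∫ w in Ioc a (b + d), ‖f w‖ ^ 2 :=
    setIntegral_mono_set i3 (ae_of_all _ fun w => by positivity)
      (Ioc_subset_Ioc_right (by linarith)).eventuallyLE
  have h5 : ∫ w in Ioc a b, ‖f (w + d)‖ ^ 2 = ∫ w in Ioc (a + d) (b + d), ‖f w‖ ^ 2 := by
    have := (measurePreserving_add_right volume d).setIntegral_preimage_emb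
      (measurableEmbedding_addRight d) (fun w => ‖f w‖ ^ 2) (Ioc (a + d) (b + d))
    rw [← this]
    congr 2
    ext w
    simp
  have h6 : ∫ w in Ioc (a + d) (b + d), ‖f w‖ ^ 2 ≤ ∫ w in Ioc a (b + d), ‖f w‖ ^ 2 :=
    setIntegral_mono_set i3 (ae_of_all _ fun w => by positivity)
      (Ioc_subset_Ioc_left (by linarith)).eventuallyLE
  linarith

theorem sq_dn_le (h : Trf f V x1 B) (hB : 0 ≤ B) {d : ℝ} (hd : 0 ≤ d) (n : ℕ) (a b : ℝ) :
    ∫ w in Ioc a b, ‖W.dn d n f w‖ ^ 2 ≤ 4 ^ n * ∫ w in Ioc a (b + n * d), ‖f w‖ ^ 2 := by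
  induction n generalizing b with
  | zero => simp [W.dn]
  | succ n ih =>
    obtain ⟨C, hC⟩ := (h.dn d n).eg
    have h1 := sq_d1_le (h.dn d n).meas hB hC hd a b
    have h2 := ih (b + d)
    have e : b + d + n * d = b + ((n + 1 : ℕ) : ℝ) * d := by push_cast; ring
    rw [e] at h2
    calc _ ≤ 4 * ∫ w in Ioc a (b + d), ‖W.dn d n f w‖ ^ 2 := h1
      _ ≤ 4 * (4 ^ n * ∫ w in Ioc a (b + ((n + 1 : ℕ) : ℝ) * d), ‖f w‖ ^ 2) :=
        mul_le_mul_of_nonneg_left h2 (by norm_num)
      _ = _ := by ring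

/-- **Bessel inequality for mean squares over windows.** -/
theorem mean_bessel (h : Trf f V x1 B) (hB : 0 ≤ B) (hx1 : 0 < x1)
    (hVd : DifferentiableOn ℂ V {z | 0 < z.re}) (S : Finset ℝ) (c : ℝ → ℂ)
    (hS : ∀ g ∈ S, ∃ r : ℝ, 0 < r ∧ ∃ Bg : ℂ → ℂ, DifferentiableOn ℂ Bg (ball (g * I) r) ∧
      (∀ z ∈ ball ((g : ℂ) * I) r, 0 < z.re → V z = (z - g * I)⁻¹ * Bg z) ∧ Bg (g * I) = c g)
    {e S' : ℝ} (he : 0 < e) (hS' : S' < ∑ g ∈ S, ‖c g‖ ^ 2) :
    ∀ᶠ T : ℝ in atTop, e * S' * T ≤ ∫ w in Ioc T ((1 + e) * T), ‖f w‖ ^ 2 := by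
  obtain ⟨C, hC⟩ := h.eg
  refine window_lower h.meas hB hC (S0 := ∑ g ∈ S, ‖c g‖ ^ 2) ?_ he hS'
  intro K Λ hK hΛ ε hε
  refine bessel_lim h.meas hC hK S c ?_ hε
  intro g hg ε' hε'
  obtain ⟨r, hr, Bg, hBg, hVB, hBc⟩ := hS g hg
  have hm := h.md g
  have hd : DifferentiableOn ℂ (fun z => V (z + g * I)) {z | 0 < z.re} := by
    refine hVd.comp (by fun_prop) fun z hz => ?_
    simpa using hz
  have hb : DifferentiableOn ℂ (fun z => Bg (z + g * I)) (ball 0 r) := by
    refine hBg.comp (by fun_prop) fun z hz => ?_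
    rw [mem_ball_iff_norm, add_sub_cancel_right]
    simpa using hz
  have := gauss_lim hx1 hm.meas hm.int (fun y => hm.eq _ (by simp)) hd hr hb (fun z hz hz0 => by
    have h1 := hVB (z + g * I) (by
      rw [mem_ball_iff_norm, add_sub_cancel_right]
      simpa using hz) (by simpa using hz0)
    rw [h1, add_sub_cancel_right]) hK hΛ hε'
  simpa [hBc] using this

/-- **poles of higher order** -/
theorem mean_multi (h : Trf f V x1 B) (hB : 0 ≤ B) (hx1 : 0 < x1)
    (hVd : DifferentiableOn ℂ V {z | 0 < z.re}) {g : ℝ} {n : ℕ} (hn : n ≠ 0) {r : ℝ} (hr : 0 < r)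
    {Bg : ℂ → ℂ} (hBg : DifferentiableOn ℂ Bg (ball (g * I) r))
    (hVB : ∀ z ∈ ball ((g : ℂ) * I) r, 0 < z.re → V z = ((z - g * I) ^ (n + 1))⁻¹ * Bg z)
    (hB0 : Bg (g * I) ≠ 0) {e M : ℝ} (he : 0 < e) :
    ∀ᶠ T : ℝ in atTop, e * M * T ≤ ∫ w in Ioc T ((1 + e) * T), ‖f w‖ ^ 2 := by
  have hb0 : 0 < ‖Bg (g * I)‖ := norm_pos_iff.2 hB0
  -- choose d
  obtain ⟨d, hd1, hdM⟩ : ∃ d : ℝ, 1 ≤ d ∧ 2 * 4 ^ n * |M| < ‖((-d : ℝ) : ℂ) ^ n * Bg (g * I)‖ ^ 2 := by
    set X := 2 * 4 ^ n * |M| / ‖Bg (g * I)‖ ^ 2 with hX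
    have hX0 : 0 ≤ X := by positivity
    refine ⟨X + 1, by linarith, ?_⟩
    rw [norm_mul, norm_pow, Complex.norm_real, norm_neg, Real.norm_eq_abs,
      abs_of_pos (show 0 < X + 1 by linarith), mul_pow]
    have h1 : X < ((X + 1) ^ n) ^ 2 := by
      have h2 : (X + 1) ≤ (X + 1) ^ n := le_self_pow₀ (by linarith) hn
      have h3 : (X + 1) ^ n ≤ ((X + 1) ^ n) ^ 2 := le_self_pow₀ (by linarith) (by norm_num)
      linarith
    calc 2 * 4 ^ n * |M| = X * ‖Bg (g * I)‖ ^ 2 := by rw [hX]; field_simp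
      _ < _ := mul_lt_mul_of_pos_right h1 (by positivity)
  have hd0 : 0 < d := by linarith
  have hm := (h.md g).dn d n
  set E : ℂ → ℂ := fun z => 1 - cexp (z * d) with hE
  have hEd : Differentiable ℂ E := by rw [hE]; fun_prop
  have hsl : Differentiable ℂ (dslope E 0) := by
    have := (Complex.differentiableOn_dslope (s := univ) (c := (0:ℂ)) (f := E) univ_mem).2
      hEd.differentiableOn
    rwa [differentiableOn_univ] at this
  have hE0 : dslope E 0 0 = -d := by
    rw [dslope_same]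
    have h1 : HasDerivAt E (-(cexp (0 * d) * (1 * d))) 0 := by
      have := ((((hasDerivAt_id (0:ℂ)).mul_const (d : ℂ)).cexp).const_sub 1)
      simpa [hE] using this
    rw [h1.deriv]
    simp
  have hEs : ∀ z, E z = z * dslope E 0 z := by
    intro z
    have := sub_smul_dslope E 0 z
    have h0 : E 0 = 0 := by simp [hE]
    rw [sub_zero, smul_eq_mul, h0, sub_zero] at this
    exact this.symm
  have key := mean_bessel (e := e / 2) hm hB hx1 (V := fun z => (1 - cexp (z * d)) ^ n * V (z + g * I))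
    (by
      refine DifferentiableOn.mul (by fun_prop) ?_
      refine hVd.comp (by fun_prop) fun z hz => ?_
      simpa using hz) {0} (fun _ => ((-d : ℝ) : ℂ) ^ n * Bg (g * I)) (by
      intro g' hg'
      rw [Finset.mem_singleton] at hg'
      subst hg'
      refine ⟨r, hr, fun z => dslope E 0 z ^ n * Bg (z + g * I), ?_, ?_, ?_⟩
      · refine DifferentiableOn.mul ((hsl.pow n).differentiableOn) ?_
        refine hBg.comp (by fun_prop) fun z hz => ?_
        rw [mem_ball_iff_norm, add_sub_cancel_right]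
        simpa using hz
      · intro z hz hz0
        have hz' : z ≠ 0 := by rintro rfl; simp at hz0
        have h1 := hVB (z + g * I) (by
          rw [mem_ball_iff_norm, add_sub_cancel_right]
          simpa using hz) (by simpa using hz0)
        simp only
        rw [h1, add_sub_cancel_right]
        have h2 : (1 - cexp (z * d)) = z * dslope E 0 z := hEs z
        rw [h2, mul_pow]
        simp only [Complex.ofReal_zero, zero_mul, sub_zero]
        field_simp
        ring
      · simp only [Complex.ofReal_zero, zero_mul, zero_add]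
        rw [hE0]
        push_cast
        ring) (by positivity) (S' := 2 * 4 ^ n * |M|) (by simpa using hdM)
  filter_upwards [key, eventually_ge_atTop (2 * (n * d) / e), eventually_ge_atTop (0:ℝ)] with T h1 h2 h3
  have h4 := sq_dn_le (h.md g) hB hd0.le n T ((1 + e / 2) * T)
  rw [div_le_iff₀ he] at h2
  obtain ⟨C, hC⟩ := h.eg
  have h5 : ∫ w in Ioc T ((1 + e / 2) * T + n * d), ‖md g f w‖ ^ 2 ≤ ∫ w in Ioc T ((1 + e) * T), ‖f w‖ ^ 2 := by
    simp only [md_norm]
    exact setIntegral_mono_set (sq_int_on h.meas hB hC _ _) (ae_of_all _ fun w => by positivity)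
      (Ioc_subset_Ioc_right (by linarith)).eventuallyLE
  have h6 : (4:ℝ) ^ n * (e * M * T) ≤ 4 ^ n * ∫ w in Ioc T ((1 + e) * T), ‖f w‖ ^ 2 := by
    calc (4:ℝ) ^ n * (e * M * T) ≤ 4 ^ n * (e * |M| * T) := by
          have := le_abs_self M
          gcongr
      _ = e / 2 * (2 * 4 ^ n * |M|) * T := by ring
      _ ≤ _ := h1
      _ ≤ _ := h4
      _ ≤ _ := mul_le_mul_of_nonneg_left h5 (by positivity)
  exact le_of_mul_le_mul_left h6 (by positivity)

end

end Pool.Agent.W190.W
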