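import Pool.Agent.W190.W.W8

/-! # The Laplace transform of a summatory function -/

set_option autoImplicit false

open Complex Filter Topology Set Metric MeasureTheory
open Pool.Agent.W190

namespace Pool.Agent.W190.W

noncomputable section

theorem TT_meas (a : ℕ → ℂ) : Measurable (TT a) := by
  have h1 : Measurable (fun n : ℕ => ∑ k ∈ Finset.Icc 1 n, a k) := measurable_from_nat
  have h2 : Measurable (fun v : ℝ => ⌊Real.exp v⌋₊) := Nat.measurable_floor.comp Real.measurable_exp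
  exact h1.comp h2

theorem TT_neg (a : ℕ → ℂ) {v : ℝ} (hv : v < 0) : TT a v = 0 := by
  have : ⌊Real.exp v⌋₊ = 0 := Nat.floor_eq_zero.2 (by rw [Real.exp_lt_one_iff]; exact hv)
  simp [TT, this]

theorem TT_norm {a : ℕ → ℂ} {C : ℝ} (ha : ∀ n, ‖a n‖ ≤ C) (v : ℝ) : ‖TT a v‖ ≤ C * Real.exp v := by
  have hC : 0 ≤ C := (norm_nonneg _).trans (ha 0)
  unfold TT
  refine (norm_sum_le _ _).trans ?_
  calc ∑ n ∈ Finset.Icc 1 ⌊Real.exp v⌋₊, ‖a n‖ ≤ ∑ n ∈ Finset.Icc 1 ⌊Real.exp v⌋₊, C :=
        Finset.sum_le_sum fun n _ => ha n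
    _ = ⌊Real.exp v⌋₊ * C := by simp
    _ ≤ Real.exp v * C := mul_le_mul_of_nonneg_right (Nat.floor_le (Real.exp_pos v).le) hC
    _ = _ := mul_comm _ _

theorem laplace_TT {a : ℕ → ℂ} {C : ℝ} (ha : ∀ n, ‖a n‖ ≤ C) {s : ℂ} (hs : s.re = 2) :
    ∫ w : ℝ, TT a w * cexp (-(s * w)) = LSeries a s / s := by
  have hC : 0 ≤ C := (norm_nonneg _).trans (ha 0)
  have hs0 : s ≠ 0 := by rintro rfl; simp at hs
  have hS : LSeriesSummable a s :=
    LSeriesSummable_of_bounded_of_one_lt_re (m := C) (fun n _ => ha n) (by rw [hs]; norm_num)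
  have hO : (fun n ↦ ∑ k ∈ Finset.Icc 1 n, a k) =O[atTop] fun n ↦ (n : ℝ) ^ (1 : ℝ) := by
    refine Asymptotics.IsBigO.of_bound C (Eventually.of_forall fun n => ?_)
    rw [Real.rpow_one, Real.norm_eq_abs, abs_of_nonneg (Nat.cast_nonneg n)]
    refine (norm_sum_le _ _).trans ?_
    calc ∑ k ∈ Finset.Icc 1 n, ‖a k‖ ≤ ∑ k ∈ Finset.Icc 1 n, C := Finset.sum_le_sum fun k _ => ha k
      _ = C * n := by simp [mul_comm]
  have h1 := LSeries_eq_mul_integral a (r := 1) zero_le_one (s := s) (by rw [hs]; norm_num) hS hO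
  rw [h1, mul_div_assoc, mul_comm s, div_mul_cancel₀ _ hs0]
  have himg : Ioi (1:ℝ) = Real.exp '' Ioi 0 := by
    ext t
    constructor
    · intro ht
      have ht' : (1:ℝ) < t := ht
      exact ⟨Real.log t, Real.log_pos ht', Real.exp_log (by linarith)⟩
    · rintro ⟨w, hw, rfl⟩
      exact Real.one_lt_exp_iff.2 hw
  rw [himg, integral_image_eq_integral_abs_deriv_smul measurableSet_Ioi
    (fun x _ => (Real.hasDerivAt_exp x).hasDerivWithinAt) Real.exp_injective.injOn]
  have h2 : ∫ w : ℝ, TT a w * cexp (-(s * w)) = ∫ w in Ioi (0:ℝ), TT a w * cexp (-(s * w)) := by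
    rw [← integral_indicator measurableSet_Ioi]
    have hne : ∀ᵐ w : ℝ ∂volume, w ≠ 0 := by
      have : ({0} : Set ℝ)ᶜ ∈ ae (volume : Measure ℝ) := compl_mem_ae_iff.2 (by simp)
      filter_upwards [this] with y hy
      simpa using hy
    refine integral_congr_ae ?_
    filter_upwards [hne] with w hw
    by_cases h : 0 < w
    · rw [indicator_of_mem (show w ∈ Ioi 0 from h)]
    · rw [indicator_of_notMem (show w ∉ Ioi 0 from h), TT_neg a (lt_of_le_of_ne (not_lt.1 h) hw), zero_mul]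
  rw [h2]
  refine integral_congr_ae (ae_of_all _ fun w => ?_)
  simp only [abs_of_pos (Real.exp_pos w), Complex.real_smul]
  have h3 : ((Real.exp w : ℝ) : ℂ) ^ (-(s + 1)) = cexp (w * (-(s + 1))) := by
    rw [Complex.ofReal_exp, Complex.cpow_def_of_ne_zero (Complex.exp_ne_zero _),
      Complex.log_exp (by simp [Real.pi_pos]) (by simp [Real.pi_pos.le])]
  rw [h3, Complex.ofReal_exp, mul_left_comm, ← Complex.exp_add]
  unfold TT
  congr 2
  ring

/-- the transform data of `w ↦ exp (-θ w) ∑_{n ≤ e^w} a n` -/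
theorem TT_Trf {a : ℕ → ℂ} {C : ℝ} (ha : ∀ n, ‖a n‖ ≤ C) {θ : ℝ} {A : ℂ → ℂ}
    (hA : ∀ s : ℂ, s.re = 2 → A s = LSeries a s) :
    Trf (fun w => TT a w * cexp (-(θ * w))) (fun z => A (θ + z) / (θ + z)) (2 - θ) (1 - θ) := by
  have hC : 0 ≤ C := (norm_nonneg _).trans (ha 0)
  have hn : ∀ w : ℝ, ‖TT a w * cexp (-(θ * w))‖ = ‖TT a w‖ * Real.exp (-(θ * w)) := by
    intro w
    rw [norm_mul, Complex.norm_exp]
    simp
  refine ⟨?_, ⟨C, fun w => ?_⟩, ?_, fun z hz => ?_⟩
  · exact (TT_meas a).aestronglyMeasurable.mul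
      (by fun_prop : Continuous fun w : ℝ => cexp (-(θ * w))).aestronglyMeasurable
  · rw [hn]
    calc ‖TT a w‖ * Real.exp (-(θ * w)) ≤ C * Real.exp w * Real.exp (-(θ * w)) :=
          mul_le_mul_of_nonneg_right (TT_norm ha w) (Real.exp_pos _).le
      _ = _ := by rw [mul_assoc, ← Real.exp_add]; congr 2; ring
  · have e : (fun w : ℝ => ‖TT a w * cexp (-(θ * w))‖ * Real.exp (-((2 - θ) * w))) =
        indicator (Ici 0) (fun w : ℝ => ‖TT a w‖ * Real.exp (-(2 * w))) := by
      funext w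
      by_cases h : 0 ≤ w
      · rw [indicator_of_mem (show w ∈ Ici 0 from h), hn, mul_assoc, ← Real.exp_add]
        congr 2
        ring
      · rw [indicator_of_notMem (show w ∉ Ici 0 from h), hn, TT_neg a (not_le.1 h)]
        simp
    rw [e, integrable_indicator_iff measurableSet_Ici]
    have h1 : IntegrableOn (fun w : ℝ => C * Real.exp (-1 * w)) (Ici 0) := by
      rw [integrableOn_Ici_iff_integrableOn_Ioi]
      exact (exp_neg_integrableOn_Ioi 0 one_pos).const_mul C
    refine h1.mono' ?_ (ae_of_all _ fun w => ?_)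
    · exact ((TT_meas a).aestronglyMeasurable.norm.mul
        (by fun_prop : Continuous fun w : ℝ => Real.exp (-(2 * w))).aestronglyMeasurable).restrict
    · rw [Real.norm_eq_abs, abs_of_nonneg (by positivity)]
      calc ‖TT a w‖ * Real.exp (-(2 * w)) ≤ C * Real.exp w * Real.exp (-(2 * w)) :=
            mul_le_mul_of_nonneg_right (TT_norm ha w) (Real.exp_pos _).le
        _ = _ := by rw [mul_assoc, ← Real.exp_add]; congr 2; ring
  · have hre : ((θ : ℂ) + z).re = 2 := by simp [hz]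
    have h1 := laplace_TT ha hre
    rw [hA _ hre, ← h1]
    refine integral_congr_ae (ae_of_all _ fun w => ?_)
    simp only
    rw [mul_assoc, ← Complex.exp_add]
    congr 2
    ring

theorem sq_norm_TT {a : ℕ → ℂ} (θ w : ℝ) :
    ‖TT a w * cexp (-(θ * w))‖ ^ 2 = ‖TT a w‖ ^ 2 * Real.exp (-(2 * θ * w)) := by
  rw [norm_mul, Complex.norm_exp, mul_pow, ← Real.exp_nat_mul]
  congr 2
  simp
  ring

/-- **Mean squares of summatory functions, simple poles.** -/
theorem TT_bessel {a : ℕ → ℂ} {C : ℝ} (ha : ∀ n, ‖a n‖ ≤ C) {θ : ℝ} (hθ0 : 0 < θ) (hθ1 : θ ≤ 1)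
    {A : ℂ → ℂ} (hA : ∀ s : ℂ, s.re = 2 → A s = LSeries a s)
    (hAd : DifferentiableOn ℂ A {s | θ < s.re}) (S : Finset ℝ) (c : ℝ → ℂ)
    (hS : ∀ g ∈ S, ∃ r : ℝ, 0 < r ∧ ∃ Bg : ℂ → ℂ, DifferentiableOn ℂ Bg (ball (θ + g * I) r) ∧
      (∀ s ∈ ball ((θ : ℂ) + g * I) r, θ < s.re → A s = (s - (θ + g * I))⁻¹ * Bg s) ∧
      Bg (θ + g * I) = c g)
    {e S' : ℝ} (he : 0 < e) (hS' : S' < ∑ g ∈ S, ‖c g / (θ + g * I)‖ ^ 2) :
    ∀ᶠ T : ℝ in atTop, e * S' * T ≤ ∫ w in Ioc T ((1 + e) * T), ‖TT a w‖ ^ 2 * Real.exp (-(2 * θ * w)) := by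
  have hne : ∀ z : ℂ, -θ < z.re → (θ : ℂ) + z ≠ 0 := by
    intro z hz h
    have := congrArg Complex.re h
    simp at this
    linarith
  have h := mean_bessel (TT_Trf ha (θ := θ) hA) (by linarith) (by linarith) (by
      refine DifferentiableOn.div (hAd.comp (by fun_prop) fun z hz => ?_) (by fun_prop) fun z hz => ?_
      · have hz' : 0 < z.re := hz
        simpa using hz'
      · have hz' : 0 < z.re := hz
        exact hne z (by linarith)) S (fun g => c g / (θ + g * I)) (by
      intro g hg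
      obtain ⟨r, hr, Bg, hB1, hB2, hB3⟩ := hS g hg
      refine ⟨min r θ, lt_min hr hθ0, fun z => Bg (θ + z) / (θ + z), ?_, ?_, ?_⟩
      · refine DifferentiableOn.div (hB1.comp (by fun_prop) fun z hz => ?_) (by fun_prop) fun z hz => ?_
        · rw [mem_ball_iff_norm] at hz ⊢
          have : (θ : ℂ) + z - (θ + g * I) = z - g * I := by ring
          rw [this]
          exact hz.trans_le (min_le_left _ _)
        · refine hne z ?_
          rw [mem_ball_iff_norm] at hz
          have h1 := Complex.abs_re_le_norm (z - g * I)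
          have h2 : (z - g * I).re = z.re := by simp
          rw [h2] at h1
          have h3 := (abs_le.1 h1).1
          have h4 := hz.trans_le (min_le_right r θ)
          linarith
      · intro z hz hz0
        have h1 : (θ : ℂ) + z ∈ ball ((θ : ℂ) + g * I) r := by
          rw [mem_ball_iff_norm] at hz ⊢
          have : (θ : ℂ) + z - (θ + g * I) = z - g * I := by ring
          rw [this]
          exact hz.trans_le (min_le_left _ _)
        have h2 := hB2 _ h1 (by simpa using hz0)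
        have h3 : (θ : ℂ) + z - (θ + g * I) = z - g * I := by ring
        simp only
        rw [h2, h3, mul_div_assoc]
      · simp only
        rw [hB3]) he hS'
  simpa only [sq_norm_TT] using h

/-- **Mean squares of summatory functions, multiple poles.** -/
theorem TT_multi {a : ℕ → ℂ} {C : ℝ} (ha : ∀ n, ‖a n‖ ≤ C) {θ : ℝ} (hθ0 : 0 < θ) (hθ1 : θ ≤ 1)
    {A : ℂ → ℂ} (hA : ∀ s : ℂ, s.re = 2 → A s = LSeries a s)
    (hAd : DifferentiableOn ℂ A {s | θ < s.re}) {g : ℝ} {n : ℕ} (hn : n ≠ 0) {r : ℝ} (hr : 0 < r)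
    {Bg : ℂ → ℂ} (hBg : DifferentiableOn ℂ Bg (ball (θ + g * I) r))
    (hVB : ∀ s ∈ ball ((θ : ℂ) + g * I) r, θ < s.re → A s = ((s - (θ + g * I)) ^ (n + 1))⁻¹ * Bg s)
    (hB0 : Bg (θ + g * I) ≠ 0) {e M : ℝ} (he : 0 < e) :
    ∀ᶠ T : ℝ in atTop, e * M * T ≤ ∫ w in Ioc T ((1 + e) * T), ‖TT a w‖ ^ 2 * Real.exp (-(2 * θ * w)) := by
  have hne : ∀ z : ℂ, -θ < z.re → (θ : ℂ) + z ≠ 0 := by
    intro z hz h
    have := congrArg Complex.re h
    simp at this
    linarith
  have h := mean_multi (M := M) (TT_Trf ha (θ := θ) hA) (by linarith) (by linarith) (by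
      refine DifferentiableOn.div (hAd.comp (by fun_prop) fun z hz => ?_) (by fun_prop) fun z hz => ?_
      · have hz' : 0 < z.re := hz
        simpa using hz'
      · have hz' : 0 < z.re := hz
        exact hne z (by linarith)) (g := g) hn (lt_min hr hθ0) (Bg := fun z => Bg (θ + z) / (θ + z)) (by
        refine DifferentiableOn.div (hBg.comp (by fun_prop) fun z hz => ?_) (by fun_prop) fun z hz => ?_
        · rw [mem_ball_iff_norm] at hz ⊢
          have : (θ : ℂ) + z - (θ + g * I) = z - g * I := by ring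
          rw [this]
          exact hz.trans_le (min_le_left _ _)
        · refine hne z ?_
          rw [mem_ball_iff_norm] at hz
          have h1 := Complex.abs_re_le_norm (z - g * I)
          have h2 : (z - g * I).re = z.re := by simp
          rw [h2] at h1
          have h3 := (abs_le.1 h1).1
          have h4 := hz.trans_le (min_le_right r θ)
          linarith) (by
        intro z hz hz0
        have h1 : (θ : ℂ) + z ∈ ball ((θ : ℂ) + g * I) r := by
          rw [mem_ball_iff_norm] at hz ⊢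
          have : (θ : ℂ) + z - (θ + g * I) = z - g * I := by ring
          rw [this]
          exact hz.trans_le (min_le_left _ _)
        have h2 := hVB _ h1 (by simpa using hz0)
        have h3 : (θ : ℂ) + z - (θ + g * I) = z - g * I := by ring
        rw [h2, h3, mul_div_assoc]) (div_ne_zero hB0 (hne _ (by simp [hθ0]))) he
  simpa only [sq_norm_TT] using h

/-- change of variables -/
theorem window_change (a : ℕ → ℂ) (θ : ℝ) {x e : ℝ} (hx : 1 ≤ x) (he : 0 ≤ e) :
    ∫ u in x..(x ^ (1 + e)), ‖∑ n ∈ Finset.Icc 1 ⌊u⌋₊, a n‖ ^ 2 * u ^ (-(2 * θ) - 1) =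
      ∫ w in Ioc (Real.log x) ((1 + e) * Real.log x), ‖TT a w‖ ^ 2 * Real.exp (-(2 * θ * w)) := by
  have hx0 : 0 < x := by linarith
  have hle : x ≤ x ^ (1 + e) := by
    calc x = x ^ (1:ℝ) := (Real.rpow_one x).symm
      _ ≤ _ := Real.rpow_le_rpow_of_exponent_le hx (by linarith)
  rw [intervalIntegral.integral_of_le hle]
  have himg : Ioc x (x ^ (1 + e)) = Real.exp '' Ioc (Real.log x) ((1 + e) * Real.log x) := by
    ext t
    constructor
    · intro ht
      have ht0 : 0 < t := hx0.trans ht.1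
      refine ⟨Real.log t, ⟨Real.log_lt_log hx0 ht.1, ?_⟩, Real.exp_log ht0⟩
      rw [← Real.log_rpow hx0]
      exact Real.log_le_log ht0 ht.2
    · rintro ⟨w, hw, rfl⟩
      refine ⟨?_, ?_⟩
      · rw [← Real.log_lt_iff_lt_exp hx0]
        exact hw.1
      · rw [Real.rpow_def_of_pos hx0, mul_comm (Real.log x)]
        exact Real.exp_le_exp.2 hw.2
  rw [himg, integral_image_eq_integral_abs_deriv_smul measurableSet_Ioc
    (fun x _ => (Real.hasDerivAt_exp x).hasDerivWithinAt) Real.exp_injective.injOn]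
  refine integral_congr_ae (ae_of_all _ fun w => ?_)
  simp only [abs_of_pos (Real.exp_pos w), smul_eq_mul]
  rw [← Real.exp_mul, mul_left_comm, ← Real.exp_add]
  unfold TT
  congr 2
  ring

end

end Pool.Agent.W190.W
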